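import Mathlib

/-!
Heat kernel bound for simple random walk on a vertex transitive graph with at least cubic growth:
`p_n(x,y) ≤ C n^{-3/2}`.  The proof is elementary: the vectors `v n x = p_n(x, .)` of `ℓ²` satisfy
`⟪v n x, v m z⟫ = p_{n+m}(x,z)`, and the decrease of the return probability controls
`‖v n x - v n z‖` for `z` two steps away from `x`.
-/

open scoped BigOperators ENNReal RealInnerProductSpace

noncomputable section

namespace Pool.Agent.Frog.Heat

variable {V : Type*} [DecidableEq V]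

/-- the `n`-step transition weights of simple random walk on a `d`-regular graph -/
def pk (G : SimpleGraph V) [G.LocallyFinite] (d : ℕ) : ℕ → V → V → ℝ
  | 0, x, y => if x = y then 1 else 0
  | n + 1, x, y => (∑ z ∈ G.neighborFinset x, pk G d n z y) / d

section basic

variable (G : SimpleGraph V) [G.LocallyFinite] (d : ℕ)

theorem pk_zero (x y : V) : pk G d 0 x y = if x = y then 1 else 0 := rfl

theorem pk_succ (n : ℕ) (x y : V) :
    pk G d (n + 1) x y = (∑ z ∈ G.neighborFinset x, pk G d n z y) / d := rfl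

theorem pk_nonneg (n : ℕ) (x y : V) : 0 ≤ pk G d n x y := by
  induction n generalizing x with
  | zero => rw [pk_zero]; split_ifs <;> norm_num
  | succ n ih =>
    rw [pk_succ]
    exact div_nonneg (Finset.sum_nonneg fun z _ => ih z) (Nat.cast_nonneg d)

theorem pk_succ' (n : ℕ) (x y : V) :
    pk G d (n + 1) x y = (∑ z ∈ G.neighborFinset y, pk G d n x z) / d := by
  induction n generalizing x with
  | zero =>
    rw [pk_succ]
    congr 1
    have h1 : ∀ z, pk G d 0 z y = if z = y then 1 else 0 := fun z => rfl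
    have h2 : ∀ z, pk G d 0 x z = if x = z then 1 else 0 := fun z => rfl
    rw [Finset.sum_congr rfl fun z _ => h1 z, Finset.sum_congr rfl fun z _ => h2 z]
    rw [Finset.sum_ite_eq', Finset.sum_ite_eq]
    have h3 : (y ∈ G.neighborFinset x) ↔ (x ∈ G.neighborFinset y) := by
      rw [SimpleGraph.mem_neighborFinset, SimpleGraph.mem_neighborFinset, G.adj_comm x y]
    by_cases h : y ∈ G.neighborFinset x
    · rw [if_pos h, if_pos (h3.1 h)]
    · rw [if_neg h, if_neg fun h' => h (h3.2 h')]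
  | succ n ih =>
    rw [pk_succ]
    have h1 : ∀ z ∈ G.neighborFinset x, pk G d (n + 1) z y =
        (∑ w ∈ G.neighborFinset y, pk G d n z w) / d := fun z _ => ih z
    rw [Finset.sum_congr rfl h1]
    simp only [pk_succ]
    rw [← Finset.sum_div, ← Finset.sum_div, Finset.sum_comm]

theorem pk_symm (n : ℕ) (x y : V) : pk G d n x y = pk G d n y x := by
  induction n generalizing x with
  | zero => simp only [pk_zero, eq_comm]
  | succ n ih =>
    rw [pk_succ, pk_succ' G d n y x]
    rw [Finset.sum_congr rfl fun z _ => ih z]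

theorem pk_iso (e : G ≃g G) (n : ℕ) (x y : V) : pk G d n (e x) (e y) = pk G d n x y := by
  induction n generalizing x with
  | zero => simp only [pk_zero, EmbeddingLike.apply_eq_iff_eq]
  | succ n ih =>
    rw [pk_succ, pk_succ]
    congr 1
    symm
    refine Finset.sum_nbij' (fun z => e z) (fun z => e.symm z) ?_ ?_ ?_ ?_ ?_
    · intro z hz
      rw [SimpleGraph.mem_neighborFinset] at hz ⊢
      exact e.map_adj_iff.2 hz
    · intro z hz
      rw [SimpleGraph.mem_neighborFinset] at hz ⊢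
      have h := e.symm.map_adj_iff.2 hz
      simpa using h
    · intro z _; simp
    · intro z _; simp
    · intro z _; exact (ih z).symm

variable {G d}

theorem sum_pk_le_one (hreg : G.IsRegularOfDegree d) (n : ℕ) (x : V) (A : Finset V) :
    ∑ z ∈ A, pk G d n x z ≤ 1 := by
  induction n generalizing x with
  | zero =>
    simp only [pk_zero]
    rw [Finset.sum_ite_eq]
    split_ifs <;> norm_num
  | succ n ih =>
    simp only [pk_succ]
    rw [← Finset.sum_div, Finset.sum_comm]
    have h1 : ∑ u ∈ G.neighborFinset x, ∑ z ∈ A, pk G d n u z ≤ (d : ℝ) := by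
      calc ∑ u ∈ G.neighborFinset x, ∑ z ∈ A, pk G d n u z
          ≤ ∑ u ∈ G.neighborFinset x, (1 : ℝ) := Finset.sum_le_sum fun u _ => ih u
        _ = (d : ℝ) := by
            rw [Finset.sum_const, nsmul_eq_mul, mul_one, SimpleGraph.card_neighborFinset_eq_degree,
              hreg x]
    rcases Nat.eq_zero_or_pos d with h0 | h0
    · subst h0; simp
    · have hd : (0 : ℝ) < d := by exact_mod_cast h0
      rw [div_le_one hd]
      exact h1

/-- the vector `p_n(x, .)` of `ℓ²` -/
def vec (G : SimpleGraph V) [G.LocallyFinite] (d : ℕ) : ℕ → V → lp (fun _ : V => ℝ) 2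
  | 0, x => lp.single (E := fun _ : V => ℝ) 2 x (1 : ℝ)
  | n + 1, x => (1 / (d : ℝ)) • ∑ z ∈ G.neighborFinset x, vec G d n z

theorem vec_succ (n : ℕ) (x : V) :
    vec G d (n + 1) x = (1 / (d : ℝ)) • ∑ z ∈ G.neighborFinset x, vec G d n z := rfl

theorem inner_vec_zero (m : ℕ) (x z : V) : ⟪vec G d 0 x, vec G d m z⟫ = pk G d m z x := by
  induction m generalizing z with
  | zero =>
    change ⟪lp.single (E := fun _ : V => ℝ) 2 x (1 : ℝ),
      lp.single (E := fun _ : V => ℝ) 2 z (1 : ℝ)⟫ = _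
    rw [lp.inner_single_left, pk_zero]
    rw [lp.single_apply]
    by_cases h : z = x
    · subst h; simp
    · have h' : x ≠ z := fun e => h e.symm
      simp [h, h']
  | succ m ih =>
    rw [vec_succ, inner_smul_right, inner_sum, pk_succ]
    rw [Finset.sum_congr rfl fun w _ => ih w]
    ring

theorem inner_vec (n m : ℕ) (x z : V) : ⟪vec G d n x, vec G d m z⟫ = pk G d (n + m) x z := by
  induction n generalizing x with
  | zero => rw [inner_vec_zero, pk_symm, Nat.zero_add]
  | succ n ih =>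
    rw [vec_succ, real_inner_smul_left, sum_inner]
    rw [Finset.sum_congr rfl fun w _ => ih w]
    have h : n + 1 + m = (n + m) + 1 := by omega
    rw [h, pk_succ]
    ring

theorem norm_vec_sq (n : ℕ) (x : V) : ‖vec G d n x‖ ^ 2 = pk G d (2 * n) x x := by
  rw [← real_inner_self_eq_norm_sq, inner_vec, two_mul]

/-- symmetry: a walk with all vertices alike -/
def Trans (G : SimpleGraph V) : Prop := ∀ x y : V, ∃ e : G ≃g G, e x = y

theorem pk_diag (htr : Trans G) (n : ℕ) (x y : V) : pk G d n x x = pk G d n y y := by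
  obtain ⟨e, he⟩ := htr x y
  rw [← he, pk_iso]

theorem pk_two_le (htr : Trans G) (n : ℕ) (x y o : V) : pk G d (2 * n) x y ≤ pk G d (2 * n) o o := by
  have h1 : pk G d (2 * n) x y = ⟪vec G d n x, vec G d n y⟫ := by rw [inner_vec, two_mul]
  have h2 := real_inner_le_norm (vec G d n x) (vec G d n y)
  have h3 : ‖vec G d n x‖ ^ 2 = pk G d (2 * n) o o := by rw [norm_vec_sq, pk_diag htr _ x o]
  have h4 : ‖vec G d n y‖ ^ 2 = pk G d (2 * n) o o := by rw [norm_vec_sq, pk_diag htr _ y o]
  rw [h1]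
  nlinarith [sq_nonneg (‖vec G d n x‖ - ‖vec G d n y‖)]

theorem inner_eq (htr : Trans G) (n : ℕ) (x z o : V) :
    pk G d (2 * n) x z = pk G d (2 * n) o o - ‖vec G d n x - vec G d n z‖ ^ 2 / 2 := by
  have h1 : pk G d (2 * n) x z = ⟪vec G d n x, vec G d n z⟫ := by rw [inner_vec, two_mul]
  have h3 : ‖vec G d n x‖ ^ 2 = pk G d (2 * n) o o := by rw [norm_vec_sq, pk_diag htr _ x o]
  have h4 : ‖vec G d n z‖ ^ 2 = pk G d (2 * n) o o := by rw [norm_vec_sq, pk_diag htr _ z o]
  have h5 := norm_sub_sq_real (vec G d n x) (vec G d n z)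
  rw [h1]
  linarith

/-- the decrease of the return probability is an average of squared differences -/
theorem drop_eq (htr : Trans G) (hreg : G.IsRegularOfDegree d) (hd : 0 < d) (n : ℕ) (x : V) :
    pk G d (2 * n) x x - pk G d (2 * (n + 1)) x x =
      (∑ w ∈ G.neighborFinset x, ∑ z ∈ G.neighborFinset w,
        ‖vec G d n x - vec G d n z‖ ^ 2) / (2 * (d : ℝ) ^ 2) := by
  have hd' : (d : ℝ) ≠ 0 := by exact_mod_cast hd.ne'
  have h1 : 2 * (n + 1) = (2 * n + 1) + 1 := by ring
  have hcard : ∀ w, ((G.neighborFinset w).card : ℝ) = d := fun w => by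
    rw [SimpleGraph.card_neighborFinset_eq_degree, hreg w]
  have h2 : ∀ w z, w ∈ G.neighborFinset x → z ∈ G.neighborFinset w → pk G d (2 * n) z x =
      pk G d (2 * n) x x - ‖vec G d n x - vec G d n z‖ ^ 2 / 2 := fun w z _ _ => by
    rw [pk_symm, inner_eq htr n x z x]
  rw [h1, pk_succ]
  have h3 : ∀ w ∈ G.neighborFinset x, pk G d (2 * n + 1) w x =
      pk G d (2 * n) x x - (∑ z ∈ G.neighborFinset w, ‖vec G d n x - vec G d n z‖ ^ 2) / (2 * d) := by
    intro w hw
    rw [pk_succ, Finset.sum_congr rfl fun z hz => h2 w z hw hz, Finset.sum_sub_distrib,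
      Finset.sum_const, nsmul_eq_mul, hcard, ← Finset.sum_div]
    field_simp
  rw [Finset.sum_congr rfl h3, Finset.sum_sub_distrib, Finset.sum_const, nsmul_eq_mul, hcard,
    ← Finset.sum_div]
  field_simp
  ring

theorem drop_nonneg (htr : Trans G) (hreg : G.IsRegularOfDegree d) (hd : 0 < d) (n : ℕ) (x : V) :
    pk G d (2 * (n + 1)) x x ≤ pk G d (2 * n) x x := by
  have h := drop_eq htr hreg hd n x
  have h2 : 0 ≤ (∑ w ∈ G.neighborFinset x, ∑ z ∈ G.neighborFinset w,
        ‖vec G d n x - vec G d n z‖ ^ 2) / (2 * (d : ℝ) ^ 2) := by positivity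
  linarith

theorem step_le (htr : Trans G) (hreg : G.IsRegularOfDegree d) (hd : 0 < d) (n : ℕ) (x w z o : V)
    (hw : w ∈ G.neighborFinset x) (hz : z ∈ G.neighborFinset w) :
    ‖vec G d n x - vec G d n z‖ ≤
      √(2 * (d : ℝ) ^ 2 * (pk G d (2 * n) o o - pk G d (2 * (n + 1)) o o)) := by
  apply Real.le_sqrt_of_sq_le
  have hd' : (0 : ℝ) < d := by exact_mod_cast hd
  have h := drop_eq htr hreg hd n x
  rw [pk_diag htr (2 * n) x o, pk_diag htr (2 * (n + 1)) x o] at h
  have h1 : ‖vec G d n x - vec G d n z‖ ^ 2 ≤ ∑ w ∈ G.neighborFinset x,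
      ∑ z ∈ G.neighborFinset w, ‖vec G d n x - vec G d n z‖ ^ 2 := by
    calc ‖vec G d n x - vec G d n z‖ ^ 2
        ≤ ∑ z ∈ G.neighborFinset w, ‖vec G d n x - vec G d n z‖ ^ 2 :=
          Finset.single_le_sum (f := fun z => ‖vec G d n x - vec G d n z‖ ^ 2)
            (fun i _ => sq_nonneg _) hz
      _ ≤ _ := Finset.single_le_sum
            (f := fun w => ∑ z ∈ G.neighborFinset w, ‖vec G d n x - vec G d n z‖ ^ 2)
            (fun i _ => Finset.sum_nonneg fun _ _ => sq_nonneg _) hw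
  rw [h]
  have h3 : 2 * (d : ℝ) ^ 2 * ((∑ w ∈ G.neighborFinset x, ∑ z ∈ G.neighborFinset w,
        ‖vec G d n x - vec G d n z‖ ^ 2) / (2 * (d : ℝ) ^ 2)) =
      ∑ w ∈ G.neighborFinset x, ∑ z ∈ G.neighborFinset w,
        ‖vec G d n x - vec G d n z‖ ^ 2 := by
    field_simp
  rw [h3]
  exact h1

/-- vertices reached by at most `r` double steps -/
def evenBall (G : SimpleGraph V) [G.LocallyFinite] (x : V) : ℕ → Finset V
  | 0 => {x}
  | r + 1 => evenBall G x r ∪
      (evenBall G x r).biUnion fun z => (G.neighborFinset z).biUnion fun w => G.neighborFinset w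

theorem norm_chain (htr : Trans G) (hreg : G.IsRegularOfDegree d) (hd : 0 < d) (n r : ℕ) (x z o : V)
    (hz : z ∈ evenBall G x r) :
    ‖vec G d n x - vec G d n z‖ ≤
      r * √(2 * (d : ℝ) ^ 2 * (pk G d (2 * n) o o - pk G d (2 * (n + 1)) o o)) := by
  induction r generalizing z with
  | zero =>
    rw [evenBall, Finset.mem_singleton] at hz
    subst hz
    simp
  | succ r ih =>
    rw [evenBall, Finset.mem_union] at hz
    push_cast
    rcases hz with hz | hz
    · refine (ih z hz).trans ?_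
      have := Real.sqrt_nonneg (2 * (d : ℝ) ^ 2 * (pk G d (2 * n) o o - pk G d (2 * (n + 1)) o o))
      nlinarith
    · simp only [Finset.mem_biUnion] at hz
      obtain ⟨y, hy, w, hw, hz⟩ := hz
      have h1 := ih y hy
      have h2 := step_le htr hreg hd n y w z o hw hz
      have h3 : ‖vec G d n x - vec G d n z‖ ≤ ‖vec G d n x - vec G d n y‖ +
          ‖vec G d n y - vec G d n z‖ := norm_sub_le_norm_sub_add_norm_sub _ _ _
      linarith

theorem pk_lower (htr : Trans G) (hreg : G.IsRegularOfDegree d) (hd : 0 < d) (n r : ℕ) (x z : V)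
    (hz : z ∈ evenBall G x r) :
    pk G d (2 * n) x x - (d : ℝ) ^ 2 * (r : ℝ) ^ 2 *
      (pk G d (2 * n) x x - pk G d (2 * (n + 1)) x x) ≤ pk G d (2 * n) x z := by
  have h1 := norm_chain htr hreg hd n r x z x hz
  have h2 := drop_nonneg htr hreg hd n x
  have h3 : 0 ≤ 2 * (d : ℝ) ^ 2 * (pk G d (2 * n) x x - pk G d (2 * (n + 1)) x x) :=
    mul_nonneg (by positivity) (by linarith)
  have h4 : ‖vec G d n x - vec G d n z‖ ^ 2 ≤ (r : ℝ) ^ 2 *
      (2 * (d : ℝ) ^ 2 * (pk G d (2 * n) x x - pk G d (2 * (n + 1)) x x)) := by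
    calc ‖vec G d n x - vec G d n z‖ ^ 2 ≤
        (r * √(2 * (d : ℝ) ^ 2 * (pk G d (2 * n) x x - pk G d (2 * (n + 1)) x x))) ^ 2 :=
          pow_le_pow_left₀ (norm_nonneg _) h1 2
      _ = _ := by rw [mul_pow, Real.sq_sqrt h3]
  rw [inner_eq htr n x z x]
  linarith

theorem mem_of_walk (x : V) (j : ℕ) :
    (∀ y, (∃ p : G.Walk x y, p.length = 2 * j) → y ∈ evenBall G x j) ∧
    (∀ y, (∃ p : G.Walk x y, p.length = 2 * j + 1) →
      y ∈ (evenBall G x j).biUnion fun w => G.neighborFinset w) := by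
  have last : ∀ (k : ℕ) (y : V), (∃ p : G.Walk x y, p.length = k + 1) →
      ∃ z, (∃ p : G.Walk x z, p.length = k) ∧ G.Adj z y := by
    rintro k y ⟨p, hp⟩
    refine ⟨p.penultimate, ⟨p.dropLast, ?_⟩, ?_⟩
    · rw [SimpleGraph.Walk.length_dropLast, hp]; rfl
    · apply p.adj_penultimate
      rw [← SimpleGraph.Walk.length_eq_zero_iff, hp]
      omega
  induction j with
  | zero =>
    constructor
    · rintro y ⟨p, hp⟩
      have := SimpleGraph.Walk.eq_of_length_eq_zero hp
      subst this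
      simp [evenBall]
    · rintro y hy
      obtain ⟨z, ⟨p, hp⟩, hz⟩ := last _ y hy
      have := SimpleGraph.Walk.eq_of_length_eq_zero hp
      subst this
      simp [evenBall, hz]
  | succ j ih =>
    have h1 : ∀ y, (∃ p : G.Walk x y, p.length = 2 * (j + 1)) → y ∈ evenBall G x (j + 1) := by
      intro y hy
      obtain ⟨z, hz1, hz2⟩ := last (2 * j + 1) y hy
      have h2 := ih.2 z hz1
      rw [Finset.mem_biUnion] at h2
      obtain ⟨w, hw, hwz⟩ := h2
      rw [evenBall, Finset.mem_union]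
      right
      simp only [Finset.mem_biUnion]
      exact ⟨w, hw, z, hwz, by rw [SimpleGraph.mem_neighborFinset]; exact hz2⟩
    refine ⟨h1, ?_⟩
    intro y hy
    obtain ⟨z, hz1, hz2⟩ := last (2 * (j + 1)) y hy
    rw [Finset.mem_biUnion]
    exact ⟨z, h1 z hz1, by rw [SimpleGraph.mem_neighborFinset]; exact hz2⟩

theorem evenBall_mono (x : V) {r s : ℕ} (h : r ≤ s) : evenBall G x r ⊆ evenBall G x s := by
  induction s, h using Nat.le_induction with
  | base => exact Finset.Subset.refl _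
  | succ s _ ih => exact ih.trans (by rw [evenBall]; exact Finset.subset_union_left)

theorem ball_subset (hconn : G.Connected) (x : V) (r : ℕ) :
    {y : V | G.dist x y ≤ 2 * r} ⊆
      ↑(evenBall G x r ∪ (evenBall G x r).biUnion fun w => G.neighborFinset w) := by
  intro y hy
  have hy' : G.dist x y ≤ 2 * r := hy
  obtain ⟨p, hp⟩ := hconn.exists_walk_length_eq_dist x y
  rw [Finset.mem_coe, Finset.mem_union]
  rcases Nat.even_or_odd' (G.dist x y) with ⟨j, hj | hj⟩
  · left
    have h1 := (mem_of_walk (G := G) x j).1 y ⟨p, by rw [hp, hj]⟩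
    exact evenBall_mono x (by omega) h1
  · right
    have h1 := (mem_of_walk (G := G) x j).2 y ⟨p, by rw [hp, hj]⟩
    rw [Finset.mem_biUnion] at h1 ⊢
    obtain ⟨w, hw, h2⟩ := h1
    exact ⟨w, evenBall_mono x (by omega) hw, h2⟩

theorem ncard_ball_le (hconn : G.Connected) (hreg : G.IsRegularOfDegree d) (x : V) (r : ℕ) :
    (Set.ncard {y : V | G.dist x y ≤ 2 * r} : ℝ) ≤ (1 + d) * ((evenBall G x r).card : ℝ) := by
  have h1 : Set.ncard {y : V | G.dist x y ≤ 2 * r} ≤
      (evenBall G x r ∪ (evenBall G x r).biUnion fun w => G.neighborFinset w).card := by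
    have h := Set.ncard_le_ncard (ball_subset hconn x r) (Finset.finite_toSet _)
    rwa [Set.ncard_coe_finset] at h
  have h2 : ((evenBall G x r).biUnion fun w => G.neighborFinset w).card ≤
      (evenBall G x r).card * d :=
    Finset.card_biUnion_le_card_mul _ _ _ fun w _ => by
      rw [SimpleGraph.card_neighborFinset_eq_degree, hreg w]
  have h3 := Finset.card_union_le (evenBall G x r)
    ((evenBall G x r).biUnion fun w => G.neighborFinset w)
  have h4 : Set.ncard {y : V | G.dist x y ≤ 2 * r} ≤ (1 + d) * (evenBall G x r).card := by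
    nlinarith
  exact_mod_cast h4

theorem key (htr : Trans G) (hreg : G.IsRegularOfDegree d) (hd : 0 < d) (hconn : G.Connected)
    (x : V) {c : ℝ} (hc : 0 < c)
    (hgr : ∀ n : ℕ, 1 ≤ n → c * (n : ℝ) ^ 3 ≤ Set.ncard {y : V | G.dist x y ≤ n})
    (n r : ℕ) (hr : 1 ≤ r) :
    pk G d (2 * n) x x ≤ 1 / ((8 * c / (1 + d)) * (r : ℝ) ^ 3) + (d : ℝ) ^ 2 * (r : ℝ) ^ 2 *
      (pk G d (2 * n) x x - pk G d (2 * (n + 1)) x x) := by
  have hr' : (0 : ℝ) < r := by exact_mod_cast hr
  have h1 := hgr (2 * r) (by omega)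
  have h2 := ncard_ball_le hconn hreg x r
  have h3 : (8 * c / (1 + d)) * (r : ℝ) ^ 3 ≤ ((evenBall G x r).card : ℝ) := by
    rw [div_mul_eq_mul_div, div_le_iff₀ (by positivity)]
    push_cast at h1
    nlinarith
  have h4 : (0 : ℝ) < (8 * c / (1 + d)) * (r : ℝ) ^ 3 := by positivity
  have h5 : (0 : ℝ) < ((evenBall G x r).card : ℝ) := lt_of_lt_of_le h4 h3
  set q := pk G d (2 * n) x x - (d : ℝ) ^ 2 * (r : ℝ) ^ 2 *
      (pk G d (2 * n) x x - pk G d (2 * (n + 1)) x x) with hq
  have h6 : ((evenBall G x r).card : ℝ) * q ≤ 1 := by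
    calc ((evenBall G x r).card : ℝ) * q = ∑ z ∈ evenBall G x r, q := by
          rw [Finset.sum_const, nsmul_eq_mul]
      _ ≤ ∑ z ∈ evenBall G x r, pk G d (2 * n) x z :=
          Finset.sum_le_sum fun z hz => pk_lower htr hreg hd n r x z hz
      _ ≤ 1 := sum_pk_le_one hreg _ x _
  have h7 : q ≤ 1 / ((8 * c / (1 + d)) * (r : ℝ) ^ 3) := by
    rcases le_or_gt q 0 with h0 | h0
    · exact h0.trans (by positivity)
    · rw [le_div_iff₀ h4]
      nlinarith
  linarith

end basic

section analysis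

/-- the recursive inequality forces the decay `n^{-3/2}` along powers of four -/
theorem decay_pow {u : ℕ → ℝ} (hanti : Antitone u) (h0 : ∀ n, 0 ≤ u n) (h1 : ∀ n, u n ≤ 1)
    {c₁ D : ℝ} (hc : 0 < c₁) (hD : 0 < D)
    (hk : ∀ n r : ℕ, 1 ≤ r → u n ≤ 1 / (c₁ * (r : ℝ) ^ 3) + D * (r : ℝ) ^ 2 * (u n - u (n + 1))) :
    ∃ M : ℝ, 0 < M ∧ ∀ k : ℕ, u (4 ^ k) ≤ M / 8 ^ k := by
  obtain ⟨j, hj⟩ := pow_unbounded_of_one_lt (6 * D) (show (1 : ℝ) < 4 by norm_num)
  refine ⟨16 * 8 ^ j / c₁ + 8 ^ j, by positivity, ?_⟩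
  set M : ℝ := 16 * 8 ^ j / c₁ + 8 ^ j with hM
  have hMpos : 0 < M := by positivity
  have hstep : ∀ k, j ≤ k → u (4 ^ k) ≤ M / 8 ^ k → u (4 ^ (k + 1)) ≤ M / 8 ^ (k + 1) := by
    intro k hjk hu
    set r : ℕ := 2 ^ (k - j) with hr
    have hr1 : 1 ≤ r := Nat.one_le_two_pow
    have hr' : (0 : ℝ) < r := by exact_mod_cast hr1
    set N : ℕ := 4 ^ k with hN
    have hN' : (0 : ℝ) < N := by rw [hN]; positivity
    have hN4 : 4 ^ (k + 1) = 4 * N := by rw [hN, pow_succ]; ring
    have hsum : ∑ n ∈ Finset.Ico N (4 * N), u n ≤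
        ∑ n ∈ Finset.Ico N (4 * N), (1 / (c₁ * (r : ℝ) ^ 3) +
          D * (r : ℝ) ^ 2 * (u n - u (n + 1))) :=
      Finset.sum_le_sum fun n _ => hk n r hr1
    have hcard : ((Finset.Ico N (4 * N)).card : ℝ) = 3 * N := by
      rw [Nat.card_Ico]
      have : 4 * N - N = 3 * N := by omega
      rw [this]; push_cast; ring
    have htel : ∑ n ∈ Finset.Ico N (4 * N), (u n - u (n + 1)) = u N - u (4 * N) := by
      have h := Finset.sum_Ico_sub u (show N ≤ 4 * N by omega)
      have h2 : ∑ n ∈ Finset.Ico N (4 * N), (u n - u (n + 1)) =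
          - ∑ n ∈ Finset.Ico N (4 * N), (u (n + 1) - u n) := by
        rw [← Finset.sum_neg_distrib]
        exact Finset.sum_congr rfl fun n _ => by ring
      rw [h2, h]; ring
    rw [Finset.sum_add_distrib, Finset.sum_const, nsmul_eq_mul, hcard, ← Finset.mul_sum, htel]
      at hsum
    have hlow : 3 * (N : ℝ) * u (4 * N) ≤ ∑ n ∈ Finset.Ico N (4 * N), u n := by
      calc 3 * (N : ℝ) * u (4 * N) = ∑ n ∈ Finset.Ico N (4 * N), u (4 * N) := by
            rw [Finset.sum_const, nsmul_eq_mul, hcard]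
        _ ≤ _ := Finset.sum_le_sum fun n hn => hanti (by
            rw [Finset.mem_Ico] at hn; omega)
    have hmain : 3 * (N : ℝ) * u (4 * N) ≤ 3 * N * (1 / (c₁ * (r : ℝ) ^ 3)) +
        D * (r : ℝ) ^ 2 * u N := by
      have h5 : 0 ≤ D * (r : ℝ) ^ 2 * u (4 * N) := mul_nonneg (by positivity) (h0 _)
      nlinarith
    have hr2 : (r : ℝ) ^ 2 * 4 ^ j = N := by
      rw [hr, hN]
      push_cast
      have e1 : ((2 : ℝ) ^ (k - j)) ^ 2 = 4 ^ (k - j) := by
        rw [← pow_mul, mul_comm, pow_mul]; norm_num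
      rw [e1, ← pow_add]
      congr 1; omega
    have hr3 : (r : ℝ) ^ 3 * 8 ^ j = 8 ^ k := by
      rw [hr]
      push_cast
      have e1 : ((2 : ℝ) ^ (k - j)) ^ 3 = 8 ^ (k - j) := by
        rw [← pow_mul, mul_comm, pow_mul]; norm_num
      rw [e1, ← pow_add]
      congr 1; omega
    have hA : D * (r : ℝ) ^ 2 * u N ≤ 3 * N * ((1 / 16) * u N) := by
      have : D * (r : ℝ) ^ 2 ≤ 3 * N * (1 / 16) := by
        have h6 : 6 * D * (r : ℝ) ^ 2 ≤ 4 ^ j * (r : ℝ) ^ 2 :=
          mul_le_mul_of_nonneg_right hj.le (by positivity)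
        nlinarith
      calc D * (r : ℝ) ^ 2 * u N ≤ 3 * N * (1 / 16) * u N :=
            mul_le_mul_of_nonneg_right this (h0 _)
        _ = _ := by ring
    have hfin : u (4 * N) ≤ 1 / (c₁ * (r : ℝ) ^ 3) + (1 / 16) * u N := by
      have h7 : 3 * (N : ℝ) * u (4 * N) ≤ 3 * N * (1 / (c₁ * (r : ℝ) ^ 3) + (1 / 16) * u N) := by
        rw [mul_add]; linarith
      exact le_of_mul_le_mul_left h7 (by positivity)
    have hB : 1 / (c₁ * (r : ℝ) ^ 3) = (8 ^ j / c₁) / 8 ^ k := by
      rw [← hr3]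
      field_simp
    rw [hN4]
    rw [hB] at hfin
    have hC : (8 ^ j / c₁) / 8 ^ k ≤ (M / 16) / 8 ^ k := by
      apply div_le_div_of_nonneg_right _ (by positivity)
      rw [hM]
      have : (0 : ℝ) < 8 ^ j := by positivity
      have e : (16 : ℝ) * 8 ^ j / c₁ = 16 * (8 ^ j / c₁) := by ring
      rw [e]
      linarith
    calc u (4 * N) ≤ (M / 16) / 8 ^ k + (1 / 16) * (M / 8 ^ k) := by linarith
      _ = M / 8 ^ (k + 1) := by rw [pow_succ]; field_simp; norm_num
  intro k
  induction k with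
  | zero =>
    rw [pow_zero, pow_zero, div_one]
    refine (h1 _).trans ?_
    have : (1 : ℝ) ≤ 8 ^ j := one_le_pow₀ (by norm_num)
    have h2 : (0 : ℝ) ≤ 16 * 8 ^ j / c₁ := by positivity
    linarith
  | succ k ih =>
    rcases le_or_gt j k with h | h
    · exact hstep k h ih
    · refine (h1 _).trans ?_
      rw [le_div_iff₀ (by positivity), one_mul]
      have h3 : (8 : ℝ) ^ (k + 1) ≤ 8 ^ j := pow_le_pow_right₀ (by norm_num) h
      have h2 : (0 : ℝ) ≤ 16 * 8 ^ j / c₁ := by positivity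
      linarith

theorem decay {u : ℕ → ℝ} (hanti : Antitone u) (h0 : ∀ n, 0 ≤ u n) (h1 : ∀ n, u n ≤ 1)
    {c₁ D : ℝ} (hc : 0 < c₁) (hD : 0 < D)
    (hk : ∀ n r : ℕ, 1 ≤ r → u n ≤ 1 / (c₁ * (r : ℝ) ^ 3) + D * (r : ℝ) ^ 2 * (u n - u (n + 1))) :
    ∃ C : ℝ, 0 < C ∧ ∀ n : ℕ, 1 ≤ n → u n ≤ C / (n * √n) := by
  obtain ⟨M, hM, h⟩ := decay_pow hanti h0 h1 hc hD hk
  refine ⟨8 * M, by positivity, ?_⟩
  intro n hn
  have hn' : (0 : ℝ) < n := by exact_mod_cast hn
  set k := Nat.log 4 n with hk'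
  have hlow : 4 ^ k ≤ n := Nat.pow_log_le_self 4 (by omega)
  have hup : n < 4 ^ (k + 1) := Nat.lt_pow_succ_log_self (by norm_num) n
  have hup' : (n : ℝ) ≤ 4 ^ (k + 1) := by exact_mod_cast hup.le
  have hsq : √(n : ℝ) ≤ 2 ^ (k + 1) := by
    apply Real.sqrt_le_iff.2
    refine ⟨by positivity, hup'.trans (le_of_eq ?_)⟩
    rw [← pow_mul, mul_comm, pow_mul]; norm_num
  have hprod : (n : ℝ) * √n ≤ 8 ^ (k + 1) := by
    calc (n : ℝ) * √n ≤ 4 ^ (k + 1) * 2 ^ (k + 1) :=
          mul_le_mul hup' hsq (Real.sqrt_nonneg _) (by positivity)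
      _ = 8 ^ (k + 1) := by rw [← mul_pow]; norm_num
  have hpos : 0 < (n : ℝ) * √n := mul_pos hn' (Real.sqrt_pos.2 hn')
  calc u n ≤ u (4 ^ k) := hanti hlow
    _ ≤ M / 8 ^ k := h k
    _ = 8 * M / 8 ^ (k + 1) := by rw [pow_succ]; field_simp
    _ ≤ 8 * M / (n * √n) := div_le_div_of_nonneg_left (by positivity) hpos hprod

end analysis

/-- **Heat kernel bound.**  On a connected, vertex transitive, `d`-regular graph with
`|B(x,n)| ≥ c n³` the transition probabilities of simple random walk satisfy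
`p_n(x,y) ≤ C n^{-3/2}`. -/
theorem pk_le (G : SimpleGraph V) [G.LocallyFinite] {d : ℕ} (hreg : G.IsRegularOfDegree d)
    (hconn : G.Connected) (htr : ∀ x y : V, ∃ e : G ≃g G, e x = y) (o : V) {c : ℝ} (hc : 0 < c)
    (hgr : ∀ n : ℕ, 1 ≤ n → c * (n : ℝ) ^ 3 ≤ Set.ncard {y : V | G.dist o y ≤ n}) :
    ∃ C : ℝ, 0 < C ∧ ∀ (n : ℕ) (x y : V), 1 ≤ n → pk G d n x y ≤ C / (n * √n) := by
  -- the degree is positive
  have hd : 0 < d := by
    rcases Nat.eq_zero_or_pos d with h0 | h0
    · exfalso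
      subst h0
      have h1 : ∀ r : ℕ, (Set.ncard {y : V | G.dist o y ≤ 2 * r} : ℝ) ≤
          (1 + (0 : ℕ)) * ((evenBall G o r).card : ℝ) := fun r => ncard_ball_le hconn hreg o r
      have h2 : ∀ w, G.neighborFinset w = ∅ := fun w => by
        rw [← Finset.card_eq_zero, SimpleGraph.card_neighborFinset_eq_degree, hreg w]
      have h3 : ∀ r, (evenBall G o r) = {o} := by
        intro r
        induction r with
        | zero => rfl
        | succ r ih =>
          rw [evenBall, ih]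
          simp [h2]
      obtain ⟨r, hr⟩ := exists_nat_gt (1 / c)
      have hr0 : (0 : ℝ) < r := lt_trans (by positivity) hr
      have hr1 : 1 ≤ r := by
        have : 0 < r := by exact_mod_cast hr0
        omega
      have h4 := hgr (2 * r) (by omega)
      have h5 := h1 r
      rw [h3 r, Finset.card_singleton, Nat.cast_zero, add_zero, Nat.cast_one, mul_one] at h5
      have h6 : c * ((2 * r : ℕ) : ℝ) ^ 3 ≤ 1 := h4.trans h5
      have h7 : 1 < c * r := by
        rw [div_lt_iff₀ hc] at hr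
        linarith
      have h8 : (1 : ℝ) ≤ r := by exact_mod_cast hr1
      push_cast at h6
      have h9 : c * r ≤ c * (2 * r) ^ 3 := by
        apply mul_le_mul_of_nonneg_left _ hc.le
        nlinarith [sq_nonneg ((r : ℝ)), mul_pos hr0 hr0]
      linarith
    · exact h0
  have hd' : (0 : ℝ) < d := by exact_mod_cast hd
  have htr' : Trans G := htr
  have hanti : Antitone fun n => pk G d (2 * n) o o :=
    antitone_nat_of_succ_le fun n => drop_nonneg htr' hreg hd n o
  have hle1 : ∀ (n : ℕ) (x y : V), pk G d n x y ≤ 1 := fun n x y => by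
    have := sum_pk_le_one hreg n x {y}
    rwa [Finset.sum_singleton] at this
  obtain ⟨C, hC, h⟩ := decay (u := fun n => pk G d (2 * n) o o) hanti
    (fun n => pk_nonneg G d _ _ _) (fun n => hle1 _ _ _)
    (c₁ := 8 * c / (1 + d)) (D := (d : ℝ) ^ 2) (by positivity) (by positivity)
    (fun n r hr => key htr' hreg hd hconn o hc hgr n r hr)
  refine ⟨6 * C + 1, by positivity, ?_⟩
  intro m x y hm
  have hm' : (0 : ℝ) < m := by exact_mod_cast hm
  have hmpos : 0 < (m : ℝ) * √m := mul_pos hm' (Real.sqrt_pos.2 hm')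
  -- reduction to the even return probability
  have hhalf : ∀ x y, pk G d m x y ≤ pk G d (2 * (m / 2)) o o := by
    intro x y
    rcases Nat.even_or_odd' m with ⟨j, hj | hj⟩
    · have : m / 2 = j := by omega
      rw [this, ← hj, hj]
      exact pk_two_le htr' j x y o
    · have : m / 2 = j := by omega
      rw [this, hj, pk_succ, div_le_iff₀ hd']
      calc ∑ z ∈ G.neighborFinset x, pk G d (2 * j) z y
          ≤ ∑ z ∈ G.neighborFinset x, pk G d (2 * j) o o :=
            Finset.sum_le_sum fun z _ => pk_two_le htr' j z y o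
        _ = pk G d (2 * j) o o * d := by
            rw [Finset.sum_const, nsmul_eq_mul, SimpleGraph.card_neighborFinset_eq_degree, hreg x]
            ring
  rcases Nat.lt_or_ge m 2 with h2 | h2
  · have : m = 1 := by omega
    subst this
    refine (hle1 _ _ _).trans ?_
    simp
    linarith
  · set n := m / 2 with hn
    have hn1 : 1 ≤ n := by omega
    have hmn : m ≤ 3 * n := by omega
    have hn' : (0 : ℝ) < n := by exact_mod_cast hn1
    have hmn' : (m : ℝ) ≤ 3 * n := by exact_mod_cast hmn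
    have hs : √(m : ℝ) ≤ 2 * √(n : ℝ) := by
      apply Real.sqrt_le_iff.2
      refine ⟨by positivity, ?_⟩
      rw [mul_pow, Real.sq_sqrt hn'.le]
      linarith
    have hprod : (m : ℝ) * √m ≤ 6 * (n * √n) := by
      calc (m : ℝ) * √m ≤ (3 * n) * (2 * √n) :=
            mul_le_mul hmn' hs (Real.sqrt_nonneg _) (by positivity)
        _ = 6 * (n * √n) := by ring
    have hnpos : 0 < (n : ℝ) * √n := mul_pos hn' (Real.sqrt_pos.2 hn')
    calc pk G d m x y ≤ pk G d (2 * n) o o := hhalf x y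
      _ ≤ C / (n * √n) := h n hn1
      _ ≤ (6 * C) / (m * √m) := by
          rw [div_le_div_iff₀ hnpos hmpos]
          nlinarith
      _ ≤ (6 * C + 1) / (m * √m) := by
          apply div_le_div_of_nonneg_right _ hmpos.le
          linarith

end Pool.Agent.Frog.Heat
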