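import Pool.Agent.Work.MP_c9ff92_pr.Levels

/-!
# Comparison of the finite models (MP_c9ff92_pr)
-/

open Finset

noncomputable section

namespace Pool.Agent.Frog

variable {V : Type*} [DecidableEq V]

/-- One step of activation by the present trajectories. -/
def rel (A : Finset (V × List V)) (x z : V) : Prop := ∃ l, (x, l) ∈ A ∧ z ∈ l

/-- The vertex `o` activates a vertex outside `B`. -/
def Out (B : Finset V) (o : V) (A : Finset (V × List V)) : Prop :=
  ∃ y, y ∉ B ∧ Relation.ReflTransGen (rel A) o y

omit [DecidableEq V] in
theorem rel_mono {A A' : Finset (V × List V)} (h : A ⊆ A') {x z : V} (hx : rel A x z) :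
    rel A' x z := by
  obtain ⟨l, hl, hz⟩ := hx
  exact ⟨l, h hl, hz⟩

omit [DecidableEq V] in
theorem up_Out (B : Finset V) (o : V) : Up (Out B o) := by
  rintro A A' h ⟨y, hy, hr⟩
  exact ⟨y, hy, Relation.ReflTransGen.mono (fun _ _ => rel_mono h) _ _ hr⟩

theorem Out_ext {B : Finset V} {o x y : V} {l : List V} {A : Finset (V × List V)}
    (h : Out B o (insert (x, l) A)) : Out B o (A ∪ {(x, y :: l)}) := by
  obtain ⟨w, hw, hr⟩ := h
  refine ⟨w, hw, Relation.ReflTransGen.mono ?_ _ _ hr⟩
  rintro a b ⟨l', hl', hb⟩
  rw [mem_insert] at hl'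
  rcases hl' with h1 | h1
  · obtain ⟨rfl, rfl⟩ := Prod.mk.injEq _ _ _ _ ▸ h1
    exact ⟨y :: l', by simp, List.mem_cons_of_mem _ hb⟩
  · exact ⟨l', mem_union_left _ h1, hb⟩

/-- The one-jump trajectories along a trajectory, as long as they start in `B`. -/
def edg (B : Finset V) (x : V) : List V → Finset (V × List V)
  | [] => ∅
  | y :: l => (if cur (x, l) ∈ B then {(cur (x, l), [y])} else ∅) ∪ edg B x l

theorem reach_along {B : Finset V} {o x : V} {l : List V} {A : Finset (V × List V)}
    (hA : edg B x l ⊆ A) (hx : Relation.ReflTransGen (rel A) o x) :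
    Out B o A ∨ ∀ z ∈ l, Relation.ReflTransGen (rel A) o z := by
  induction l with
  | nil => exact Or.inr fun z hz => by simp at hz
  | cons y l ih =>
    rw [edg, union_subset_iff] at hA
    rcases ih hA.2 with h | h
    · exact Or.inl h
    · have hc : Relation.ReflTransGen (rel A) o (cur (x, l)) := by
        rcases cur_mem (x, l) with h1 | h1
        · rw [h1]; exact hx
        · exact h _ h1
      by_cases hB : cur (x, l) ∈ B
      · rw [if_pos hB] at hA
        have hy : Relation.ReflTransGen (rel A) o y :=
          hc.tail ⟨[y], hA.1 (mem_singleton_self _), by simp⟩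
        refine Or.inr fun z hz => ?_
        rcases List.mem_cons.1 hz with rfl | hz
        · exact hy
        · exact h z hz
      · exact Or.inl ⟨_, hB, hc⟩

theorem Out_edg {B : Finset V} {o x : V} {l : List V} {A : Finset (V × List V)}
    (h : Out B o (insert (x, l) A)) : Out B o (A ∪ edg B x l) := by
  obtain ⟨w, hw, hr⟩ := h
  have key : Out B o (A ∪ edg B x l) ∨ Relation.ReflTransGen (rel (A ∪ edg B x l)) o w := by
    clear hw
    induction hr with
    | refl => exact Or.inr Relation.ReflTransGen.refl
    | tail _ hst ih =>
      rcases ih with ih | ih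
      · exact Or.inl ih
      · obtain ⟨l', hl', hb⟩ := hst
        rw [mem_insert] at hl'
        rcases hl' with h1 | h1
        · obtain ⟨rfl, rfl⟩ := Prod.mk.injEq _ _ _ _ ▸ h1
          rcases reach_along subset_union_right ih with h2 | h2
          · exact Or.inl h2
          · exact Or.inr (h2 _ hb)
        · exact Or.inr (ih.tail ⟨l', mem_union_left _ h1, hb⟩)
  rcases key with h | h
  · exact h
  · exact ⟨w, hw, h⟩

theorem edg_nonempty {B : Finset V} {x : V} (hx : x ∈ B) {l : List V} (hl : l ≠ []) :
    (edg B x l).Nonempty := by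
  induction l with
  | nil => exact absurd rfl hl
  | cons y l ih =>
    rw [edg]
    rcases l with _ | ⟨y', l⟩
    · simp [hx, edg]
    · exact (ih (by simp)).mono subset_union_right

theorem card_edg_le {B : Finset V} {x : V} {l : List V} : (edg B x l).card ≤ l.length := by
  induction l with
  | nil => simp [edg]
  | cons y l ih =>
    rw [edg, List.length_cons]
    refine (card_union_le _ _).trans ?_
    have : (if cur (x, l) ∈ B then ({(cur (x, l), [y])} : Finset (V × List V)) else ∅).card ≤ 1 := by
      split_ifs <;> simp
    omega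

theorem mem_edg {B : Finset V} {x : V} {l : List V} {γ : V × List V} (h : γ ∈ edg B x l) :
    γ.1 ∈ B ∧ γ.2.length = 1 ∧ (γ.1 = x ∨ γ.1 ∈ l) := by
  induction l with
  | nil => simp [edg] at h
  | cons y l ih =>
    rw [edg, mem_union] at h
    rcases h with h | h
    · split_ifs at h with hB
      · rw [mem_singleton] at h
        subst h
        refine ⟨hB, rfl, ?_⟩
        rcases cur_mem (x, l) with h1 | h1
        · exact Or.inl h1
        · exact Or.inr (List.mem_cons_of_mem _ h1)
      · simp at h
    · obtain ⟨h1, h2, h3⟩ := ih h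
      exact ⟨h1, h2, h3.imp_right (List.mem_cons_of_mem _)⟩

theorem mem_edg_good {G : SimpleGraph V} {B : Finset V} {x : V} {l : List V} (hg : Good G x l)
    {γ : V × List V} (h : γ ∈ edg B x l) : Good G γ.1 γ.2 := by
  induction l with
  | nil => simp [edg] at h
  | cons y l ih =>
    rw [edg, mem_union] at h
    obtain ⟨h1, h2⟩ := hg
    rcases h with h | h
    · split_ifs at h with hB
      · rw [mem_singleton] at h
        subst h
        exact ⟨h1, trivial⟩
      · simp at h
    · exact ih h2 h

variable (G : SimpleGraph V) [G.LocallyFinite]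

/-- The trajectories started in `B` with at least one and at most `M` jumps. -/
def idx (B : Finset V) (M : ℕ) : Finset (V × List V) := (range M).biUnion fun m => lev G B (m + 1)

theorem mem_idx {B : Finset V} {M : ℕ} {x : V} {l : List V} :
    (x, l) ∈ idx G B M ↔ x ∈ B ∧ 1 ≤ l.length ∧ l.length ≤ M ∧ Good G x l := by
  rw [idx, mem_biUnion]
  simp only [mem_range, mem_lev]
  constructor
  · rintro ⟨m, hm, h1, h2, h3⟩
    exact ⟨h1, by omega, by omega, h3⟩
  · rintro ⟨h1, h2, h3, h4⟩
    exact ⟨l.length - 1, by omega, h1, by omega, h4⟩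

/-- The rate of the trajectory `γ` if `a m` is the rate of the particles with at least `m` jumps. -/
def rate (a : ℕ → ℝ) (γ : V × List V) : ℝ :=
  (a γ.2.length - a (γ.2.length + 1)) * wgt G γ.1 γ.2

omit [DecidableEq V] in
theorem rate_nonneg {a : ℕ → ℝ} {γ : V × List V} (h : a (γ.2.length + 1) ≤ a γ.2.length) :
    0 ≤ rate G a γ := mul_nonneg (by linarith) (wgt_nonneg G _ _)

/-- The trajectory without its last jump. -/
def tl (γ : V × List V) : V × List V := (γ.1, γ.2.tail)

variable {G}

theorem sum_tl (hdeg : ∀ v, 0 < G.degree v) (B : Finset V) (m : ℕ) (γ : V × List V) :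
    ∑ γ' ∈ lev G B (m + 1), (if tl γ' = γ then wgt G γ'.1 γ'.2 else 0) =
      if γ ∈ lev G B m then wgt G γ.1 γ.2 else 0 := by
  rw [sum_lev_succ]
  have h : ∀ δ ∈ lev G B m, (∑ y ∈ G.neighborFinset (cur δ),
      if tl (δ.1, y :: δ.2) = γ then wgt G (δ.1, y :: δ.2).1 (δ.1, y :: δ.2).2 else 0) =
      if δ = γ then wgt G δ.1 δ.2 else 0 := by
    intro δ _
    have e : ∀ y : V, tl (δ.1, y :: δ.2) = δ := fun y => rfl
    simp only [e]
    by_cases h1 : δ = γ
    · simp only [if_pos h1]
      exact sum_wgt_cons hdeg δ
    · simp only [if_neg h1, sum_const_zero]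
  rw [sum_congr rfl h, sum_ite_eq']

/-- Increasing the tails lowers the probability to stay inside. -/
theorem Q_rate_anti (hdeg : ∀ v, 0 < G.degree v) {a b : ℕ → ℝ} {B : Finset V} {M : ℕ} (o : V)
    (ha : ∀ m, 1 ≤ m → a (m + 1) ≤ a m) (hb : ∀ m, 1 ≤ m → b (m + 1) ≤ b m)
    (hab : ∀ m, 1 ≤ m → a m ≤ b m) (ha0 : ∀ m, M < m → a m = 0) (hb0 : ∀ m, M < m → b m = 0) :
    Q (rate G b) (idx G B M) (Out B o) ≤ Q (rate G a) (idx G B M) (Out B o) := by
  set mix : ℕ → ℕ → ℝ := fun j i => if i ≤ j then b i else a i with hmix
  -- the mixtures interpolate between the two sequences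
  have e0 : Q (rate G (mix 0)) (idx G B M) (Out B o) = Q (rate G a) (idx G B M) (Out B o) := by
    refine Q_congr (fun γ hγ => ?_) _
    obtain ⟨x, l⟩ := γ
    rw [mem_idx] at hγ
    simp only [rate, hmix]
    rw [if_neg (show ¬ l.length ≤ 0 by omega), if_neg (show ¬ l.length + 1 ≤ 0 by omega)]
  have eM : Q (rate G (mix M)) (idx G B M) (Out B o) = Q (rate G b) (idx G B M) (Out B o) := by
    refine Q_congr (fun γ hγ => ?_) _
    obtain ⟨x, l⟩ := γ
    rw [mem_idx] at hγ
    simp only [rate, hmix]
    rw [if_pos (show l.length ≤ M by omega)]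
    by_cases h : l.length + 1 ≤ M
    · rw [if_pos h]
    · rw [if_neg h, ha0 (l.length + 1) (by omega), hb0 (l.length + 1) (by omega)]
  -- one step
  have step : ∀ j, Q (rate G (mix (j + 1))) (idx G B M) (Out B o) ≤
      Q (rate G (mix j)) (idx G B M) (Out B o) := by
    intro j
    have hΔ : 0 ≤ b (j + 1) - a (j + 1) := by linarith [hab (j + 1) (by omega)]
    set Δ : ℝ := b (j + 1) - a (j + 1) with hΔdef
    rcases Nat.eq_zero_or_pos j with rfl | hj
    · -- the first level: rates only increase
      refine Q_anti_r (fun γ hγ => ?_) (fun γ hγ => ?_) (up_Out B o)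
      · obtain ⟨x, l⟩ := γ
        rw [mem_idx] at hγ
        apply rate_nonneg
        simp only [hmix]
        rw [if_neg (show ¬ l.length + 1 ≤ 0 by omega), if_neg (show ¬ l.length ≤ 0 by omega)]
        exact ha _ (by omega)
      · obtain ⟨x, l⟩ := γ
        rw [mem_idx] at hγ
        simp only [rate, hmix]
        apply mul_le_mul_of_nonneg_right _ (wgt_nonneg G _ _)
        by_cases h : l.length = 1
        · simp only [h]
          norm_num
          linarith [hab 1 le_rfl]
        · rw [if_neg (show ¬ l.length ≤ 0 by omega), if_neg (show ¬ l.length + 1 ≤ 0 by omega),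
            if_neg (show ¬ l.length ≤ 0 + 1 by omega), if_neg (show ¬ l.length + 1 ≤ 0 + 1 by omega)]
    · by_cases hjM : j + 1 ≤ M
      swap
      · -- nothing changes
        apply le_of_eq
        refine Q_congr (fun γ hγ => ?_) _
        obtain ⟨x, l⟩ := γ
        rw [mem_idx] at hγ
        simp only [rate, hmix]
        rw [if_pos (show l.length ≤ j + 1 by omega), if_pos (show l.length ≤ j by omega)]
        by_cases h : l.length + 1 ≤ j
        · rw [if_pos (show l.length + 1 ≤ j + 1 by omega), if_pos h]
        · by_cases h' : l.length + 1 ≤ j + 1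
          · rw [if_pos h', if_neg h, ha0 (l.length + 1) (by omega), hb0 (l.length + 1) (by omega)]
          · rw [if_neg h', if_neg h]
      -- move the mass along the trajectories with `j + 1` jumps
      set rK : Finset (V × List V) → V × List V → ℝ := fun K γ =>
        rate G (mix j) γ + (if γ ∈ K then Δ * wgt G γ.1 γ.2 else 0) -
          Δ * ∑ γ' ∈ K, (if tl γ' = γ then wgt G γ'.1 γ'.2 else 0) with hrK
      have hlen : ∀ K ⊆ lev G B (j + 1), ∀ γ ∈ K, γ.2.length = j + 1 := by
        intro K hK γ hγ
        obtain ⟨x, l⟩ := γ
        exact (mem_lev (G := G).1 (hK hγ)).2.1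
      have hsum0 : ∀ K ⊆ lev G B (j + 1), ∀ γ : V × List V, γ.2.length ≠ j →
          ∑ γ' ∈ K, (if tl γ' = γ then wgt G γ'.1 γ'.2 else 0) = 0 := by
        intro K hK γ hγ
        refine sum_eq_zero fun γ' hγ' => if_neg fun h => hγ ?_
        rw [← h]
        have := hlen K hK γ' hγ'
        simp only [tl, List.length_tail]
        omega
      have hsumle : ∀ K ⊆ lev G B (j + 1), ∀ γ : V × List V,
          ∑ γ' ∈ K, (if tl γ' = γ then wgt G γ'.1 γ'.2 else 0) ≤ wgt G γ.1 γ.2 := by
        intro K hK γ
        have h1 : ∑ γ' ∈ K, (if tl γ' = γ then wgt G γ'.1 γ'.2 else 0) ≤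
            ∑ γ' ∈ lev G B (j + 1), (if tl γ' = γ then wgt G γ'.1 γ'.2 else 0) :=
          sum_le_sum_of_subset_of_nonneg hK fun γ' _ _ => by
            split_ifs <;> [exact wgt_nonneg G _ _; exact le_rfl]
        rw [sum_tl hdeg] at h1
        refine h1.trans ?_
        split_ifs <;> [exact le_rfl; exact wgt_nonneg G _ _]
      have hnn : ∀ K ⊆ lev G B (j + 1), ∀ γ ∈ idx G B M, 0 ≤ rK K γ := by
        intro K hK γ hγ
        obtain ⟨x, l⟩ := γ
        rw [mem_idx] at hγ
        have hw := wgt_nonneg G x l
        simp only [hrK]
        by_cases h : l.length = j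
        · have hnot : (x, l) ∉ K := fun hmem => by
            have := hlen K hK _ hmem
            simp only at this
            omega
          rw [if_neg hnot]
          have h1 := hsumle K hK (x, l)
          simp only [rate, hmix]
          rw [if_pos (show l.length ≤ j by omega), if_neg (show ¬ l.length + 1 ≤ j by omega), h]
          have h2 := hb j (by omega)
          have h3 := mul_le_mul_of_nonneg_left h1 hΔ
          simp only at h3
          nlinarith
        · rw [hsum0 K hK (x, l) h, mul_zero, sub_zero]
          have h1 : 0 ≤ rate G (mix j) (x, l) := by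
            apply rate_nonneg
            simp only [hmix]
            by_cases h' : l.length + 1 ≤ j
            · rw [if_pos h', if_pos (show l.length ≤ j by omega)]
              exact hb _ (by omega)
            · rw [if_neg h', if_neg (show ¬ l.length ≤ j by omega)]
              exact ha _ (by omega)
          have h2 : 0 ≤ (if (x, l) ∈ K then Δ * wgt G (x, l).1 (x, l).2 else 0) := by
            split_ifs <;> [exact mul_nonneg hΔ hw; exact le_rfl]
          linarith
      have hind : ∀ K ⊆ lev G B (j + 1),
          Q (rK K) (idx G B M) (Out B o) ≤ Q (rK ∅) (idx G B M) (Out B o) := by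
        intro K
        induction K using Finset.induction_on with
        | empty => intro _; exact le_rfl
        | insert γ' K hγ' ih =>
          intro hK
          have hK' : K ⊆ lev G B (j + 1) := (subset_insert _ _).trans hK
          refine le_trans ?_ (ih hK')
          have hmem : γ' ∈ lev G B (j + 1) := hK (mem_insert_self _ _)
          obtain ⟨x, l⟩ := γ'
          obtain ⟨hx, hl, hg⟩ := mem_lev (G := G).1 hmem
          rcases l with _ | ⟨y, l⟩
          · simp at hl
          have hl' : l.length = j := by simpa using hl
          obtain ⟨hg1, hg2⟩ := hg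
          have hk : (x, l) ∈ idx G B M := (mem_idx G).2 ⟨hx, by omega, by omega, hg2⟩
          have hk' : (x, y :: l) ∈ idx G B M :=
            (mem_idx G).2 ⟨hx, by simp, by simp; omega, hg1, hg2⟩
          have hne : (x, l) ≠ (x, y :: l) := by
            intro h
            have := congrArg (fun γ : V × List V => γ.2.length) h
            simp at this
          have hw := wgt_nonneg G x (y :: l)
          have hkK : (x, l) ∉ insert (x, y :: l) K := by
            intro h
            have := hlen _ hK _ h
            simp only at this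
            omega
          have hkK' : (x, l) ∉ K := fun h => hkK (mem_insert_of_mem h)
          refine Q_replace' (ρ := 0) (ε := Δ * wgt G x (y :: l)) (δ := Δ * wgt G x (y :: l))
            (S := {(x, y :: l)}) (k := (x, l)) le_rfl (mul_nonneg hΔ hw) (mul_nonneg hΔ hw)
            (singleton_nonempty _) (by rwa [mem_singleton]) hk
            (singleton_subset_iff.2 hk') ?_ ?_ (hnn K hK') ?_ ?_ (hnn _ hK _ hk) ?_
            (up_Out B o) (fun A h => Out_ext h)
          · intro i hi
            rw [mem_singleton] at hi
            subst hi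
            exact hnn K hK' _ hk'
          · intro i hi
            rw [mem_singleton] at hi
            subst hi
            simp only [hrK]
            rw [hsum0 _ hK _ (by simp; omega), hsum0 _ hK' _ (by simp; omega), if_pos
              (mem_insert_self _ _), if_neg hγ']
            ring
          · intro i hi hi1 hi2
            rw [mem_singleton] at hi1
            simp only [hrK]
            rw [sum_insert hγ', if_neg (show tl (x, y :: l) ≠ i from fun h => hi2 h.symm), zero_add]
            have : (i ∈ insert (x, y :: l) K) ↔ i ∈ K := by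
              rw [mem_insert]
              exact or_iff_right hi1
            simp only [this]
          · simp only [hrK]
            rw [sum_insert hγ', if_pos (show tl (x, y :: l) = (x, l) from rfl), if_neg hkK,
              if_neg hkK']
            ring
          · simp
      have hfin := hind (lev G B (j + 1)) Subset.rfl
      have e1 : Q (rK ∅) (idx G B M) (Out B o) = Q (rate G (mix j)) (idx G B M) (Out B o) := by
        refine Q_congr (fun γ _ => ?_) _
        simp [hrK]
      have e2 : Q (rK (lev G B (j + 1))) (idx G B M) (Out B o) =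
          Q (rate G (mix (j + 1))) (idx G B M) (Out B o) := by
        refine Q_congr (fun γ hγ => ?_) _
        obtain ⟨x, l⟩ := γ
        rw [mem_idx] at hγ
        simp only [hrK]
        rw [sum_tl hdeg]
        have m1 : ((x, l) ∈ lev G B (j + 1)) ↔ l.length = j + 1 := by
          rw [mem_lev]
          exact ⟨fun h => h.2.1, fun h => ⟨hγ.1, h, hγ.2.2.2⟩⟩
        have m2 : ((x, l) ∈ lev G B j) ↔ l.length = j := by
          rw [mem_lev]
          exact ⟨fun h => h.2.1, fun h => ⟨hγ.1, h, hγ.2.2.2⟩⟩
        simp only [rate, hmix]
        rcases lt_trichotomy l.length j with h | h | h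
        · rw [if_neg (mt m1.1 (by omega)), if_neg (mt m2.1 (by omega)),
            if_pos (show l.length ≤ j by omega), if_pos (show l.length + 1 ≤ j by omega),
            if_pos (show l.length ≤ j + 1 by omega), if_pos (show l.length + 1 ≤ j + 1 by omega)]
          ring
        · rw [if_neg (mt m1.1 (by omega)), if_pos (m2.2 h),
            if_pos (show l.length ≤ j by omega), if_neg (show ¬ l.length + 1 ≤ j by omega),
            if_pos (show l.length ≤ j + 1 by omega), if_pos (show l.length + 1 ≤ j + 1 by omega),
            h, hΔdef]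
          ring
        · by_cases h' : l.length = j + 1
          · rw [if_pos (m1.2 h'), if_neg (mt m2.1 (by omega)),
              if_neg (show ¬ l.length ≤ j by omega), if_neg (show ¬ l.length + 1 ≤ j by omega),
              if_pos (show l.length ≤ j + 1 by omega),
              if_neg (show ¬ l.length + 1 ≤ j + 1 by omega), h', hΔdef]
            ring
          · rw [if_neg (mt m1.1 (by omega)), if_neg (mt m2.1 (by omega)),
              if_neg (show ¬ l.length ≤ j by omega), if_neg (show ¬ l.length + 1 ≤ j by omega),
              if_neg (show ¬ l.length ≤ j + 1 by omega),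
              if_neg (show ¬ l.length + 1 ≤ j + 1 by omega)]
            ring
      rw [← e1, ← e2]
      exact hfin
  have all : ∀ j, Q (rate G (mix j)) (idx G B M) (Out B o) ≤
      Q (rate G (mix 0)) (idx G B M) (Out B o) := by
    intro j
    induction j with
    | zero => exact le_rfl
    | succ j ih => exact (step j).trans ih
  rw [← e0, ← eM]
  exact all M

end Pool.Agent.Frog
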