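import Pool.Agent.Work.MP_c9ff92_pr.Compare

/-!
# The trade-off of long trajectories against one-jump trajectories (MP_c9ff92_pr)
-/

open Finset

noncomputable section

namespace Pool.Agent.Frog

variable {V : Type*} [DecidableEq V] {G : SimpleGraph V} [G.LocallyFinite]

theorem edg_subset_idx {B : Finset V} {M : ℕ} (hM : 1 ≤ M) {x : V} {l : List V}
    (hg : Good G x l) : edg B x l ⊆ idx G B M := by
  intro γ hγ
  obtain ⟨h1, h2, _⟩ := mem_edg hγ
  have h3 := mem_edg_good hg hγ
  obtain ⟨y, k⟩ := γ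
  exact (mem_idx G).2 ⟨h1, h2.ge, h2.le.trans hM, h3⟩

/-- The trade-off: long trajectories are removed, one-jump trajectories are added. -/
theorem Q_tradeoff (hdeg : ∀ v, 0 < G.degree v) {D : ℕ} (hD : ∀ v, G.degree v ≤ D)
    {a b : ℕ → ℝ} {B : Finset V} {M : ℕ} (hM : 1 ≤ M) (o : V)
    (ha : ∀ m, 1 ≤ m → a (m + 1) ≤ a m) (hb : ∀ m, 1 ≤ m → b (m + 1) ≤ b m)
    {ρ : ℝ} (hρ : 0 < ρ) (hρ1 : ∀ γ ∈ idx G B M, γ.2.length = 1 → ρ ≤ rate G a γ)
    (σ : ℕ → ℝ) (hσ : ∀ m, 0 ≤ σ m)
    (hσ1 : ∀ γ ∈ idx G B M, 2 ≤ γ.2.length →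
      rate G a γ - rate G b γ ≤ σ γ.2.length * wgt G γ.1 γ.2)
    (hmain : ∀ γ ∈ idx G B M, γ.2.length = 1 → rate G a γ +
      ∑ m ∈ Icc 2 M, σ m / (1 - Real.exp (-ρ)) ^ m * ((D : ℝ) + 1) ^ m ≤ rate G b γ) :
    Q (rate G b) (idx G B M) (Out B o) ≤ Q (rate G a) (idx G B M) (Out B o) := by
  set p : ℝ := 1 - Real.exp (-ρ) with hp
  have hp0 : 0 < p := by
    rw [hp]
    have : Real.exp (-ρ) < 1 := by
      rw [← Real.exp_zero]
      exact Real.exp_lt_exp.2 (by linarith)
    linarith
  have hp1 : p ≤ 1 := by rw [hp]; linarith [Real.exp_pos (-ρ)]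
  set δ : V × List V → ℝ := fun γ => max 0 (rate G a γ - rate G b γ) with hδ
  have hδ0 : ∀ γ, 0 ≤ δ γ := fun γ => le_max_left _ _
  have hra : ∀ γ ∈ idx G B M, 0 ≤ rate G a γ := by
    intro γ hγ
    obtain ⟨x, l⟩ := γ
    rw [mem_idx] at hγ
    exact rate_nonneg G (ha _ hγ.2.1)
  have hrb : ∀ γ ∈ idx G B M, 0 ≤ rate G b γ := by
    intro γ hγ
    obtain ⟨x, l⟩ := γ
    rw [mem_idx] at hγ
    exact rate_nonneg G (hb _ hγ.2.1)
  have hδa : ∀ γ ∈ idx G B M, δ γ ≤ rate G a γ := by
    intro γ hγ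
    exact max_le (hra γ hγ) (by linarith [hrb γ hγ])
  set rK : Finset (V × List V) → V × List V → ℝ := fun K γ =>
    if γ.2.length = 1 then
      rate G a γ + ∑ k ∈ K, (if γ ∈ edg B k.1 k.2 then δ k / p ^ k.2.length else 0)
    else rate G a γ - (if γ ∈ K then δ γ else 0) with hrK
  have hsum0 : ∀ K : Finset (V × List V), ∀ γ : V × List V,
      0 ≤ ∑ k ∈ K, (if γ ∈ edg B k.1 k.2 then δ k / p ^ k.2.length else 0) := by
    intro K γ
    refine sum_nonneg fun k _ => ?_
    split_ifs
    · exact div_nonneg (hδ0 k) (pow_nonneg hp0.le _)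
    · exact le_rfl
  have hnn : ∀ K : Finset (V × List V), ∀ γ ∈ idx G B M, 0 ≤ rK K γ := by
    intro K γ hγ
    simp only [hrK]
    by_cases h1 : γ.2.length = 1
    · rw [if_pos h1]
      linarith [hra γ hγ, hsum0 K γ]
    · rw [if_neg h1]
      by_cases h2 : γ ∈ K
      · rw [if_pos h2]
        linarith [hδa γ hγ]
      · rw [if_neg h2]
        linarith [hra γ hγ]
  have hind : ∀ K ⊆ (idx G B M).filter (fun γ => 2 ≤ γ.2.length),
      Q (rK K) (idx G B M) (Out B o) ≤ Q (rK ∅) (idx G B M) (Out B o) := by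
    intro K
    induction K using Finset.induction_on with
    | empty => intro _; exact le_rfl
    | insert k K hk ih =>
      intro hK
      have hK' : K ⊆ (idx G B M).filter (fun γ => 2 ≤ γ.2.length) :=
        (subset_insert _ _).trans hK
      refine le_trans ?_ (ih hK')
      have hmem := mem_filter.1 (hK (mem_insert_self _ _))
      obtain ⟨hkI, hk2⟩ := hmem
      obtain ⟨x, l⟩ := k
      obtain ⟨hx, hl1, hlM, hg⟩ := (mem_idx G).1 hkI
      simp only at hk2
      have hS1 : ∀ i ∈ edg B x l, i.2.length = 1 := fun i hi => (mem_edg hi).2.1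
      have hSI : edg B x l ⊆ idx G B M := edg_subset_idx hM hg
      have hkS : (x, l) ∉ edg B x l := fun h => by
        have := hS1 _ h
        simp only at this
        omega
      refine Q_replace' (ρ := ρ) (ε := δ (x, l) / p ^ l.length) (δ := δ (x, l))
        (S := edg B x l) (k := (x, l)) hρ.le (div_nonneg (hδ0 _) (pow_nonneg hp0.le _)) (hδ0 _)
        (edg_nonempty hx (by rintro rfl; simp at hl1)) hkS hkI hSI ?_ ?_ (hnn K) ?_ ?_
        (hnn _ _ hkI) ?_ (up_Out B o) (fun A h => Out_edg h)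
      · intro i hi
        simp only [hrK]
        rw [if_pos (hS1 i hi)]
        linarith [hρ1 i (hSI hi) (hS1 i hi), hsum0 K i]
      · intro i hi
        simp only [hrK]
        rw [if_pos (hS1 i hi), if_pos (hS1 i hi), sum_insert hk, if_pos hi]
        ring
      · intro i hi hi1 hi2
        simp only [hrK]
        by_cases h1 : i.2.length = 1
        · rw [if_pos h1, if_pos h1, sum_insert hk, if_neg hi1, zero_add]
        · rw [if_neg h1, if_neg h1]
          have : (i ∈ insert (x, l) K) ↔ i ∈ K := by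
            rw [mem_insert]
            exact or_iff_right hi2
          simp only [this]
      · simp only [hrK]
        have h1 : ¬ l.length = 1 := by omega
        rw [if_neg h1, if_neg h1, if_pos (mem_insert_self _ _), if_neg hk]
        ring
      · have h1 : (edg B x l).card - 1 ≤ l.length := by
          have := card_edg_le (B := B) (x := x) (l := l)
          omega
        have h2 : p ^ l.length ≤ p ^ ((edg B x l).card - 1) := pow_le_pow_of_le_one hp0.le hp1 h1
        have h3 : 0 < p ^ l.length := pow_pos hp0 _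
        rw [div_mul_eq_mul_div, le_div_iff₀ h3]
        exact mul_le_mul_of_nonneg_left h2 (hδ0 _)
  have hfin := hind ((idx G B M).filter (fun γ => 2 ≤ γ.2.length)) Subset.rfl
  have e1 : Q (rK ∅) (idx G B M) (Out B o) = Q (rate G a) (idx G B M) (Out B o) := by
    refine Q_congr (fun γ _ => ?_) _
    simp [hrK]
  rw [← e1]
  refine le_trans ?_ hfin
  refine Q_anti_r (hnn _) (fun γ hγ => ?_) (up_Out B o)
  simp only [hrK]
  by_cases h1 : γ.2.length = 1
  · rw [if_pos h1]
    refine le_trans ?_ (hmain γ hγ h1)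
    have key : ∑ k ∈ (idx G B M).filter (fun γ => 2 ≤ γ.2.length),
        (if γ ∈ edg B k.1 k.2 then δ k / p ^ k.2.length else 0) ≤
        ∑ m ∈ Icc 2 M, ∑ k ∈ lev G B m,
          (if γ.1 = k.1 ∨ γ.1 ∈ k.2 then σ m / p ^ m * wgt G k.1 k.2 else 0) := by
      rw [← sum_fiberwise_of_maps_to (s := (idx G B M).filter (fun γ => 2 ≤ γ.2.length))
        (t := Icc 2 M) (g := fun k => k.2.length)]
      · refine sum_le_sum fun m hm => ?_
        have hsub : (filter (fun k : V × List V => k.2.length = m)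
            ((idx G B M).filter (fun γ => 2 ≤ γ.2.length))) ⊆ lev G B m := by
          intro k hk
          obtain ⟨h2, h3⟩ := mem_filter.1 hk
          obtain ⟨h4, _⟩ := mem_filter.1 h2
          obtain ⟨x, l⟩ := k
          obtain ⟨h5, _, _, h6⟩ := (mem_idx G).1 h4
          exact (mem_lev G).2 ⟨h5, h3, h6⟩
        refine le_trans (sum_le_sum fun k hk => ?_) (sum_le_sum_of_subset_of_nonneg hsub
          fun k _ _ => ?_)
        · obtain ⟨h2, h3⟩ := mem_filter.1 hk
          obtain ⟨h4, h5⟩ := mem_filter.1 h2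
          by_cases h6 : γ ∈ edg B k.1 k.2
          · rw [if_pos h6, if_pos (mem_edg h6).2.2, h3]
            have h7 : δ k ≤ σ m * wgt G k.1 k.2 := by
              apply max_le (mul_nonneg (hσ m) (wgt_nonneg G _ _))
              have := hσ1 k h4 h5
              rwa [h3] at this
            have h8 : 0 < p ^ m := pow_pos hp0 _
            calc δ k / p ^ m ≤ σ m * wgt G k.1 k.2 / p ^ m := div_le_div_of_nonneg_right h7 h8.le
              _ = σ m / p ^ m * wgt G k.1 k.2 := by ring
          · rw [if_neg h6]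
            split_ifs
            · exact mul_nonneg (div_nonneg (hσ m) (pow_nonneg hp0.le _)) (wgt_nonneg G _ _)
            · exact le_rfl
        · split_ifs
          · exact mul_nonneg (div_nonneg (hσ m) (pow_nonneg hp0.le _)) (wgt_nonneg G _ _)
          · exact le_rfl
      · intro k hk
        obtain ⟨h4, h5⟩ := mem_filter.1 hk
        obtain ⟨x, l⟩ := k
        have := (mem_idx G).1 h4
        exact mem_coe.2 (mem_Icc.2 ⟨h5, this.2.2.1⟩)
    have key2 : ∀ m ∈ Icc 2 M, ∑ k ∈ lev G B m,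
        (if γ.1 = k.1 ∨ γ.1 ∈ k.2 then σ m / p ^ m * wgt G k.1 k.2 else 0) ≤
        σ m / p ^ m * ((D : ℝ) + 1) ^ m := by
      intro m _
      have h2 : ∑ k ∈ lev G B m,
          (if γ.1 = k.1 ∨ γ.1 ∈ k.2 then σ m / p ^ m * wgt G k.1 k.2 else 0) =
          σ m / p ^ m * thr G B m γ.1 := by
        rw [thr, mul_sum]
        refine sum_congr rfl fun k _ => ?_
        split_ifs <;> ring
      rw [h2]
      exact mul_le_mul_of_nonneg_left (thr_le hdeg hD B m γ.1)
        (div_nonneg (hσ m) (pow_nonneg hp0.le _))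
    linarith [sum_le_sum key2]
  · rw [if_neg h1]
    have hlen : 2 ≤ γ.2.length := by
      obtain ⟨x, l⟩ := γ
      have := (mem_idx G).1 hγ
      simp only at h1 ⊢
      omega
    rw [if_pos (mem_filter.2 ⟨hγ, hlen⟩)]
    have := le_max_right (0 : ℝ) (rate G a γ - rate G b γ)
    simp only [hδ]
    linarith

end Pool.Agent.Frog
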