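import Pool.Agent.Work.MP_c9ff92_pr.Tail

/-!
# Abstract critical curves (MP_c9ff92_pr)
-/

open MeasureTheory ProbabilityTheory Set
open scoped ENNReal NNReal

noncomputable section

namespace Pool.Agent.Frog

theorem critical_curves (θ : ℝ≥0 → ℝ≥0 → ℝ≥0∞) (K : ℝ × ℝ → ℝ)
    (hA : ∀ l l' t t' : ℝ≥0, t ≤ t' →
      (l : ℝ) * (1 - Real.exp (-t)) ≤ l' * (1 - Real.exp (-t')) → θ l t ≤ θ l' t')
    (hK : ContinuousOn K (Ioi 0 ×ˢ Ioi 0))
    (hB : ∀ l l' t t' : ℝ≥0, 0 < l → l ≤ l' → 0 < t' → t' ≤ t →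
      (l : ℝ) * (t - t') * K (l, t) ≤ (l' - l) * (t' * Real.exp (-t')) → θ l t ≤ θ l' t')
    (hC : ∀ l t : ℝ≥0, l * t < 1 → θ l t = 0) (lc tc : ℝ≥0 → ℝ≥0∞)
    (hlc : ∀ t, lc t = ⨆ (l : ℝ≥0) (_ : θ l t = 0), (l : ℝ≥0∞))
    (htc : ∀ l, tc l = ⨆ (t : ℝ≥0) (_ : θ l t = 0), (t : ℝ≥0∞)) :
    (∀ t, 0 < t → 0 < lc t) ∧ ContinuousOn lc (Ioi 0) ∧
    (∀ s t, 0 < s → s < t → lc s ≠ ⊤ → lc t < lc s) ∧
    (∀ s t, 0 < s → 0 < t → lc s ≠ ⊤ → lc t ≠ ⊤) ∧
    (∀ l, 0 < l → 0 < tc l) ∧ ContinuousOn tc (Ioi 0) ∧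
    (∀ l m, 0 < l → l < m → tc l ≠ ⊤ → tc m < tc l) := by
  -- elementary facts
  have mono : ∀ l l' t t' : ℝ≥0, l ≤ l' → t ≤ t' → θ l t ≤ θ l' t' := by
    intro l l' t t' hl ht
    apply hA l l' t t' ht
    have h0 : (t : ℝ) ≤ t' := by exact_mod_cast ht
    have h1 : Real.exp (-(t' : ℝ)) ≤ Real.exp (-(t : ℝ)) := Real.exp_le_exp.2 (by linarith)
    have h2 : Real.exp (-(t : ℝ)) ≤ 1 := Real.exp_le_one_iff.2 (by simp)
    have h3 : (l : ℝ) ≤ l' := by exact_mod_cast hl
    have h4 : (0 : ℝ) ≤ l' := l'.coe_nonneg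
    calc (l : ℝ) * (1 - Real.exp (-t)) ≤ l' * (1 - Real.exp (-t)) :=
          mul_le_mul_of_nonneg_right h3 (by linarith)
      _ ≤ l' * (1 - Real.exp (-t')) := mul_le_mul_of_nonneg_left (by linarith) h4
  have lc1 : ∀ m t : ℝ≥0, θ m t = 0 → (m : ℝ≥0∞) ≤ lc t := by
    intro m t h
    rw [hlc]
    exact le_iSup₂_of_le m h le_rfl
  have lc2 : ∀ m t : ℝ≥0, θ m t ≠ 0 → lc t ≤ m := by
    intro m t h
    rw [hlc]
    refine iSup₂_le fun l hl => ?_
    by_contra hcon
    rw [not_le] at hcon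
    have h1 : m ≤ l := by exact_mod_cast hcon.le
    exact h (le_antisymm ((mono m l t t h1 le_rfl).trans hl.le) zero_le)
  have tc1 : ∀ m t : ℝ≥0, θ m t = 0 → (t : ℝ≥0∞) ≤ tc m := by
    intro m t h
    rw [htc]
    exact le_iSup₂_of_le t h le_rfl
  have tc2 : ∀ m t : ℝ≥0, θ m t ≠ 0 → tc m ≤ t := by
    intro m t h
    rw [htc]
    refine iSup₂_le fun s hs => ?_
    by_contra hcon
    rw [not_le] at hcon
    have h1 : t ≤ s := by exact_mod_cast hcon.le
    exact h (le_antisymm ((mono m m t s le_rfl h1).trans hs.le) zero_le)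
  have lc_lt : ∀ m t : ℝ≥0, lc t < m → θ m t ≠ 0 := fun m t h h0 =>
    absurd (lc1 m t h0) (not_le.2 h)
  have lt_lc : ∀ m t : ℝ≥0, (m : ℝ≥0∞) < lc t → θ m t = 0 := fun m t h => by
    by_contra h0
    exact absurd (lc2 m t h0) (not_le.2 h)
  have tc_lt : ∀ m t : ℝ≥0, tc m < t → θ m t ≠ 0 := fun m t h h0 =>
    absurd (tc1 m t h0) (not_le.2 h)
  have lt_tc : ∀ m t : ℝ≥0, (t : ℝ≥0∞) < tc m → θ m t = 0 := fun m t h => by
    by_contra h0
    exact absurd (tc2 m t h0) (not_le.2 h)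
  have lc_anti : ∀ s t : ℝ≥0, s ≤ t → lc t ≤ lc s := by
    intro s t hst
    refine le_of_forall_lt fun c hc => ?_
    obtain ⟨d, hcd, hd⟩ := ENNReal.lt_iff_exists_nnreal_btwn.1 hc
    refine lt_of_lt_of_le hcd (lc1 d s ?_)
    exact le_antisymm ((mono d d s t le_rfl hst).trans (lt_lc d t hd).le) zero_le
  have pos1 : ∀ t : ℝ≥0, 0 < t → 0 < lc t := by
    intro t ht
    have h1 : (t⁻¹ / 2) * t < 1 := by
      have : (t⁻¹ / 2) * t = 1 / 2 := by field_simp
      rw [this]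
      exact NNReal.half_lt_self one_ne_zero
    refine lt_of_lt_of_le ?_ (lc1 _ t (hC _ _ h1))
    have : 0 < t⁻¹ / 2 := by positivity
    exact_mod_cast this
  have pos2 : ∀ l : ℝ≥0, 0 < l → 0 < tc l := by
    intro l hl
    have h1 : l * (l⁻¹ / 2) < 1 := by
      have : l * (l⁻¹ / 2) = 1 / 2 := by field_simp
      rw [this]
      exact NNReal.half_lt_self one_ne_zero
    refine lt_of_lt_of_le ?_ (tc1 l _ (hC _ _ h1))
    have : 0 < l⁻¹ / 2 := by positivity
    exact_mod_cast this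
  have Kcont : ∀ a t : ℝ≥0, 0 < a → 0 < t → ContinuousAt K ((a : ℝ), (t : ℝ)) := by
    intro a t ha ht
    refine hK.continuousAt ((isOpen_Ioi.prod isOpen_Ioi).mem_nhds ?_)
    exact ⟨by simpa using ha, by simpa using ht⟩
  refine ⟨pos1, ?_, ?_, ?_, pos2, ?_, ?_⟩
  · -- continuity of lc
    intro t₀ ht₀
    have ht₀ : 0 < t₀ := ht₀
    have ht₀' : (0 : ℝ) < t₀ := by exact_mod_cast ht₀
    refine ContinuousAt.continuousWithinAt ?_
    refine tendsto_order.2 ⟨fun a ha => ?_, fun b hb => ?_⟩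
    · obtain ⟨a', haa', ha'⟩ := ENNReal.lt_iff_exists_nnreal_btwn.1 ha
      obtain ⟨b', hab', hb'⟩ := ENNReal.lt_iff_exists_nnreal_btwn.1 ha'
      have ha0 : 0 < a' := by
        have : (0 : ℝ≥0∞) < a' := lt_of_le_of_lt zero_le haa'
        exact_mod_cast this
      have hab : a' < b' := by exact_mod_cast hab'
      have hab2 : (a' : ℝ) < b' := by exact_mod_cast hab
      have hθ : θ b' t₀ = 0 := lt_lc b' t₀ hb'
      have hc : ContinuousAt (fun t : ℝ≥0 => (a' : ℝ) * (t - t₀) * K (a', t)) t₀ := by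
        have h1 : ContinuousAt (fun t : ℝ≥0 => K ((a' : ℝ), (t : ℝ))) t₀ := by
          have h2 : ContinuousAt (fun t : ℝ≥0 => ((a' : ℝ), (t : ℝ))) t₀ := by fun_prop
          exact ContinuousAt.comp (f := fun t : ℝ≥0 => ((a' : ℝ), (t : ℝ))) (g := K)
            (Kcont a' t₀ ha0 ht₀) h2
        exact ContinuousAt.mul (by fun_prop) h1
      have hev : ∀ᶠ t : ℝ≥0 in nhds t₀,
          (a' : ℝ) * (t - t₀) * K (a', t) < (b' - a') * (t₀ * Real.exp (-t₀)) := by
        refine hc.eventually_lt continuousAt_const ?_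
        have : 0 < ((b' : ℝ) - a') * (t₀ * Real.exp (-t₀)) :=
          mul_pos (by linarith) (mul_pos ht₀' (Real.exp_pos _))
        simpa using this
      filter_upwards [hev] with t ht
      rcases le_total t t₀ with h | h
      · exact lt_of_lt_of_le ha (lc_anti t t₀ h)
      · refine lt_of_lt_of_le haa' (lc1 a' t ?_)
        exact le_antisymm ((hB a' b' t t₀ ha0 hab.le ht₀ h ht.le).trans hθ.le) zero_le
    · obtain ⟨a', haa', ha'⟩ := ENNReal.lt_iff_exists_nnreal_btwn.1 hb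
      obtain ⟨b', hab', hb'⟩ := ENNReal.lt_iff_exists_nnreal_btwn.1 ha'
      have ha0 : 0 < a' := by
        have : (0 : ℝ≥0∞) < a' := lt_of_le_of_lt zero_le haa'
        exact_mod_cast this
      have hab : a' < b' := by exact_mod_cast hab'
      have hab2 : (a' : ℝ) < b' := by exact_mod_cast hab
      have hθ : θ a' t₀ ≠ 0 := lc_lt a' t₀ haa'
      have hev : ∀ᶠ t : ℝ≥0 in nhds t₀,
          (a' : ℝ) * (t₀ - t) * K (a', t₀) < (b' - a') * (t * Real.exp (-t)) := by
        have hc1 : ContinuousAt (fun t : ℝ≥0 => (a' : ℝ) * (t₀ - t) * K (a', t₀)) t₀ := by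
          fun_prop
        have hc2 : ContinuousAt
            (fun t : ℝ≥0 => ((b' : ℝ) - a') * ((t : ℝ) * Real.exp (-(t : ℝ)))) t₀ := by
          fun_prop
        refine hc1.eventually_lt hc2 ?_
        have : 0 < ((b' : ℝ) - a') * (t₀ * Real.exp (-t₀)) :=
          mul_pos (by linarith) (mul_pos ht₀' (Real.exp_pos _))
        simpa using this
      filter_upwards [hev, lt_mem_nhds ht₀] with t ht ht0
      rcases le_total t t₀ with h | h
      · refine lt_of_le_of_lt (lc2 b' t fun h0 => hθ ?_) hb'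
        exact le_antisymm ((hB a' b' t₀ t ha0 hab.le ht0 h ht.le).trans h0.le) zero_le
      · exact lt_of_le_of_lt (lc_anti t₀ t h) hb
  · -- strict monotonicity of lc
    intro s t hs hst hfin
    have hL0 : 0 < lc s := pos1 s hs
    set L := (lc s).toNNReal with hLdef
    have hL : (L : ℝ≥0∞) = lc s := ENNReal.coe_toNNReal hfin
    have hLpos : 0 < L := by
      rw [← hL] at hL0
      exact_mod_cast hL0
    have hs' : (0 : ℝ) < s := by exact_mod_cast hs
    have hst' : (s : ℝ) < t := by exact_mod_cast hst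
    have hLr : (0 : ℝ) < L := by exact_mod_cast hLpos
    have e1 : Real.exp (-(t : ℝ)) < Real.exp (-(s : ℝ)) := Real.exp_lt_exp.2 (by linarith)
    have e2 : Real.exp (-(s : ℝ)) < 1 := exp_lt_one' (by linarith)
    have hps : 0 < 1 - Real.exp (-(s : ℝ)) := by linarith
    have hpt : 0 < 1 - Real.exp (-(t : ℝ)) := by linarith
    -- choose m slightly above L
    have hcont : ContinuousAt (fun m : ℝ => m * (1 - Real.exp (-(s : ℝ)))) (L : ℝ) := by
      fun_prop
    have hev : ∀ᶠ m : ℝ in nhds (L : ℝ),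
        m * (1 - Real.exp (-(s : ℝ))) < L * (1 - Real.exp (-(t : ℝ))) :=
      hcont.eventually_lt continuousAt_const (mul_lt_mul_of_pos_left (by linarith) hLr)
    obtain ⟨m, hm1, hm2⟩ :=
      ((hev.filter_mono nhdsWithin_le_nhds).and
        (self_mem_nhdsWithin : Ioi (L : ℝ) ∈ nhdsWithin (L : ℝ) (Ioi (L : ℝ)))).exists
    have hm2 : (L : ℝ) < m := hm2
    have hm0 : 0 ≤ m := by linarith
    -- the smaller parameter
    set l' : ℝ := m * (1 - Real.exp (-(s : ℝ))) / (1 - Real.exp (-(t : ℝ))) with hl'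
    have hl'0 : 0 ≤ l' := by positivity
    have hl'L : l' < L := by
      rw [hl', div_lt_iff₀ hpt]
      exact hm1
    have hne : θ ⟨m, hm0⟩ s ≠ 0 := by
      apply lc_lt
      rw [← hL]
      have : L < (⟨m, hm0⟩ : ℝ≥0) := NNReal.coe_lt_coe.1 hm2
      exact_mod_cast this
    have hne' : θ ⟨l', hl'0⟩ t ≠ 0 := by
      intro h0
      apply hne
      refine le_antisymm ((hA ⟨m, hm0⟩ ⟨l', hl'0⟩ s t hst.le ?_).trans h0.le) zero_le
      show m * (1 - Real.exp (-(s : ℝ))) ≤ l' * (1 - Real.exp (-(t : ℝ)))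
      rw [hl', div_mul_cancel₀ _ hpt.ne']
    refine lt_of_le_of_lt (lc2 _ _ hne') ?_
    rw [← hL]
    have : (⟨l', hl'0⟩ : ℝ≥0) < L := NNReal.coe_lt_coe.1 hl'L
    exact_mod_cast this
  · -- finiteness everywhere
    intro s t hs ht hfin
    rcases le_total s t with h | h
    · exact ne_top_of_le_ne_top hfin (lc_anti s t h)
    · have ht' : (0 : ℝ) < t := by exact_mod_cast ht
      set l : ℝ≥0 := (lc s).toNNReal + 1 with hl
      have hlt : lc s < l := by
        rw [hl]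
        push_cast
        rw [ENNReal.coe_toNNReal hfin]
        exact ENNReal.lt_add_right hfin one_ne_zero
      have hl0 : 0 < l := by positivity
      have hne : θ l s ≠ 0 := lc_lt l s hlt
      have hden : 0 < (t : ℝ) * Real.exp (-(t : ℝ)) := mul_pos ht' (Real.exp_pos _)
      have hst : (0 : ℝ) ≤ s - t := by
        have : (t : ℝ) ≤ s := by exact_mod_cast h
        linarith
      set d : ℝ := (l : ℝ) * (s - t) * |K (l, s)| / (t * Real.exp (-(t : ℝ))) with hd
      have hd0 : 0 ≤ d := by positivity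
      have hne' : θ (l + ⟨d, hd0⟩) t ≠ 0 := by
        intro h0
        apply hne
        refine le_antisymm ((hB l (l + ⟨d, hd0⟩) s t hl0 (by simp) ht h ?_).trans h0.le)
          zero_le
        have e1 : (((l + ⟨d, hd0⟩ : ℝ≥0) : ℝ) - l) = d := by
          push_cast
          show (l : ℝ) + d - l = d
          ring
        rw [e1, hd, div_mul_cancel₀ _ hden.ne']
        exact mul_le_mul_of_nonneg_left (le_abs_self _) (by positivity)
      exact ne_top_of_le_ne_top ENNReal.coe_ne_top (lc2 _ _ hne')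
  · -- continuity of tc
    intro l₀ hl₀
    have hl₀ : 0 < l₀ := hl₀
    have hl₀' : (0 : ℝ) < l₀ := by exact_mod_cast hl₀
    refine ContinuousAt.continuousWithinAt ?_
    refine tendsto_order.2 ⟨fun a ha => ?_, fun b hb => ?_⟩
    · obtain ⟨a', haa', ha'⟩ := ENNReal.lt_iff_exists_nnreal_btwn.1 ha
      obtain ⟨b', hab', hb'⟩ := ENNReal.lt_iff_exists_nnreal_btwn.1 ha'
      have hab : a' < b' := by exact_mod_cast hab'
      have hab2 : (a' : ℝ) < b' := by exact_mod_cast hab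
      have e1 : Real.exp (-(b' : ℝ)) < Real.exp (-(a' : ℝ)) := Real.exp_lt_exp.2 (by linarith)
      have hθ : θ l₀ b' = 0 := lt_tc l₀ b' hb'
      have hc : ContinuousAt (fun l : ℝ≥0 => (l : ℝ) * (1 - Real.exp (-(a' : ℝ)))) l₀ := by
        fun_prop
      have hev : ∀ᶠ l : ℝ≥0 in nhds l₀,
          (l : ℝ) * (1 - Real.exp (-(a' : ℝ))) < l₀ * (1 - Real.exp (-(b' : ℝ))) :=
        hc.eventually_lt continuousAt_const (mul_lt_mul_of_pos_left (by linarith) hl₀')
      filter_upwards [hev] with l hl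
      refine lt_of_lt_of_le haa' (tc1 l a' ?_)
      exact le_antisymm ((hA l l₀ a' b' hab.le hl.le).trans hθ.le) zero_le
    · obtain ⟨a', haa', ha'⟩ := ENNReal.lt_iff_exists_nnreal_btwn.1 hb
      obtain ⟨b', hab', hb'⟩ := ENNReal.lt_iff_exists_nnreal_btwn.1 ha'
      have hab : a' < b' := by exact_mod_cast hab'
      have hab2 : (a' : ℝ) < b' := by exact_mod_cast hab
      have e1 : Real.exp (-(b' : ℝ)) < Real.exp (-(a' : ℝ)) := Real.exp_lt_exp.2 (by linarith)
      have hθ : θ l₀ a' ≠ 0 := tc_lt l₀ a' haa'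
      have hc : ContinuousAt (fun l : ℝ≥0 => (l : ℝ) * (1 - Real.exp (-(b' : ℝ)))) l₀ := by
        fun_prop
      have hev : ∀ᶠ l : ℝ≥0 in nhds l₀,
          (l₀ : ℝ) * (1 - Real.exp (-(a' : ℝ))) < l * (1 - Real.exp (-(b' : ℝ))) :=
        continuousAt_const.eventually_lt hc (mul_lt_mul_of_pos_left (by linarith) hl₀')
      filter_upwards [hev] with l hl
      refine lt_of_le_of_lt (tc2 l b' fun h0 => hθ ?_) hb'
      exact le_antisymm ((hA l₀ l a' b' hab.le hl.le).trans h0.le) zero_le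
  · -- strict monotonicity of tc
    intro l m hl hlm hfin
    have hT0 : 0 < tc l := pos2 l hl
    set T := (tc l).toNNReal with hTdef
    have hT : (T : ℝ≥0∞) = tc l := ENNReal.coe_toNNReal hfin
    have hTpos : 0 < T := by
      rw [← hT] at hT0
      exact_mod_cast hT0
    have hTr : (0 : ℝ) < T := by exact_mod_cast hTpos
    have hlm' : (l : ℝ) < m := by exact_mod_cast hlm
    -- choose t' slightly below T
    have hev : ∀ᶠ t' : ℝ in nhds (T : ℝ),
        (l : ℝ) * (T - t') * K (l, T) < (m - l) * (t' * Real.exp (-t')) := by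
      have hc1 : ContinuousAt (fun t' : ℝ => (l : ℝ) * (T - t') * K (l, T)) (T : ℝ) := by
        fun_prop
      have hc2 : ContinuousAt (fun t' : ℝ => ((m : ℝ) - l) * (t' * Real.exp (-t'))) (T : ℝ) := by
        fun_prop
      refine hc1.eventually_lt hc2 ?_
      have : 0 < ((m : ℝ) - l) * (T * Real.exp (-(T : ℝ))) :=
        mul_pos (by linarith) (mul_pos hTr (Real.exp_pos _))
      simpa using this
    obtain ⟨t', ⟨ht1, ht2⟩, ht3⟩ :=
      (((hev.and (lt_mem_nhds hTr)).filter_mono nhdsWithin_le_nhds).and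
        (self_mem_nhdsWithin : Iio (T : ℝ) ∈ nhdsWithin (T : ℝ) (Iio (T : ℝ)))).exists
    have ht3 : t' < (T : ℝ) := ht3
    have ht2 : 0 < t' := ht2
    -- choose t slightly above T
    have hev2 : ∀ᶠ t : ℝ in nhds (T : ℝ),
        (l : ℝ) * (t - t') * K (l, t) < (m - l) * (t' * Real.exp (-t')) := by
      have h1 : ContinuousAt (fun t : ℝ => K ((l : ℝ), t)) (T : ℝ) := by
        have h2 : ContinuousAt (fun t : ℝ => ((l : ℝ), t)) (T : ℝ) := by fun_prop
        exact ContinuousAt.comp (f := fun t : ℝ => ((l : ℝ), t)) (g := K)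
          (Kcont l T hl hTpos) h2
      have hc : ContinuousAt (fun t : ℝ => (l : ℝ) * (t - t') * K (l, t)) (T : ℝ) :=
        ContinuousAt.mul (by fun_prop) h1
      exact hc.eventually_lt continuousAt_const ht1
    obtain ⟨t, ht4, ht5⟩ :=
      ((hev2.filter_mono nhdsWithin_le_nhds).and
        (self_mem_nhdsWithin : Ioi (T : ℝ) ∈ nhdsWithin (T : ℝ) (Ioi (T : ℝ)))).exists
    have ht5 : (T : ℝ) < t := ht5
    have ht0 : 0 ≤ t := by linarith
    have hne : θ l ⟨t, ht0⟩ ≠ 0 := by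
      apply tc_lt
      rw [← hT]
      have : T < (⟨t, ht0⟩ : ℝ≥0) := NNReal.coe_lt_coe.1 ht5
      exact_mod_cast this
    have hne' : θ m ⟨t', ht2.le⟩ ≠ 0 := by
      intro h0
      apply hne
      refine le_antisymm ((hB l m ⟨t, ht0⟩ ⟨t', ht2.le⟩ hl hlm.le ?_ ?_ ht4.le).trans h0.le)
        zero_le
      · exact NNReal.coe_pos.1 ht2
      · exact NNReal.coe_le_coe.1 (show t' ≤ t by linarith)
    refine lt_of_le_of_lt (tc2 _ _ hne') ?_
    rw [← hT]
    have : (⟨t', ht2.le⟩ : ℝ≥0) < T := NNReal.coe_lt_coe.1 ht3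
    exact_mod_cast this

end Pool.Agent.Frog
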