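import Pool.Agent.Work.MP_c9ff92_pr.Clock

/-!
# The subcritical regime (MP_c9ff92_pr)

If `l * t < 1` there is no percolation: the expected number of chains of length `K` starting at
`o` is at most `(l * t) ^ K`.
-/

open MeasureTheory ProbabilityTheory Set
open scoped ENNReal NNReal

noncomputable section

namespace Pool.Agent.Frog

/-! ### Paths in a digraph with finite out-degrees -/

/-- The vertices reachable in at most `k` steps. -/
def brS {V : Type*} (R : V → V → Prop) (o : V) : ℕ → Set V
  | 0 => {o}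
  | k + 1 => brS R o k ∪ {y | ∃ x ∈ brS R o k, R x y}

theorem brS_finite {V : Type*} (R : V → V → Prop) (o : V) (hfin : ∀ x, {y | R x y}.Finite)
    (k : ℕ) : (brS R o k).Finite := by
  induction k with
  | zero => exact Set.finite_singleton o
  | succ k ih =>
    refine ih.union ?_
    have : {y | ∃ x ∈ brS R o k, R x y} = ⋃ x ∈ brS R o k, {y | R x y} := by
      ext y; simp
    rw [this]
    exact ih.biUnion fun x _ => hfin x

theorem brS_mono {V : Type*} (R : V → V → Prop) (o : V) : Monotone (brS R o) :=
  monotone_nat_of_le_succ fun _ => subset_union_left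

theorem br_exists_path {V : Type*} (R : V → V → Prop) (o : V) (hfin : ∀ x, {y | R x y}.Finite)
    (hinf : {y | Relation.ReflTransGen R o y}.Infinite) (K : ℕ) :
    ∃ p : ℕ → V, p 0 = o ∧ (∀ i < K, R (p i) (p (i + 1))) ∧
      ∀ i j, i < j → j ≤ K → p i ≠ p j := by
  -- a new vertex at every level
  have hnew : ∀ k, ∃ y ∈ brS R o (k + 1), y ∉ brS R o k := by
    intro k
    by_contra h
    push Not at h
    apply hinf
    apply (brS_finite R o hfin k).subset
    intro y hy
    induction hy with
    | refl =>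
      exact brS_mono R o (Nat.zero_le k) rfl
    | tail _ hbc ih => exact h _ (Or.inr ⟨_, ih, hbc⟩)
  -- paths to the vertices of exact level
  have hpath : ∀ k y, y ∈ brS R o k → (∀ j < k, y ∉ brS R o j) →
      ∃ p : ℕ → V, p 0 = o ∧ p k = y ∧ (∀ i < k, R (p i) (p (i + 1))) ∧
        ∀ i ≤ k, p i ∈ brS R o i ∧ ∀ j < i, p i ∉ brS R o j := by
    intro k
    induction k with
    | zero =>
      intro y hy _
      refine ⟨fun _ => o, rfl, ?_, fun i hi => absurd hi (Nat.not_lt_zero i), ?_⟩
      · exact (mem_singleton_iff.1 hy).symm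
      · intro i hi
        obtain rfl : i = 0 := by omega
        exact ⟨rfl, fun j hj => absurd hj (Nat.not_lt_zero j)⟩
    | succ k ih =>
      intro y hy hny
      have hyk : y ∉ brS R o k := hny k (Nat.lt_succ_self k)
      rcases hy with hy | ⟨x, hx, hxy⟩
      · exact absurd hy hyk
      have hxl : ∀ j < k, x ∉ brS R o j := by
        intro j hj hxj
        have : y ∈ brS R o (j + 1) := Or.inr ⟨x, hxj, hxy⟩
        exact hny (j + 1) (by omega) this
      obtain ⟨p, hp0, hpk, hpR, hpl⟩ := ih x hx hxl
      refine ⟨fun i => if i ≤ k then p i else y, ?_, ?_, ?_, ?_⟩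
      · simp [hp0]
      · simp
      · intro i hi
        rcases Nat.lt_or_ge i k with h | h
        · simp only [if_pos h.le, if_pos (show i + 1 ≤ k by omega)]
          exact hpR i h
        · obtain rfl : i = k := by omega
          simp only [le_refl, if_true, if_neg (show ¬ i + 1 ≤ i by omega)]
          rw [hpk]; exact hxy
      · intro i hi
        rcases Nat.lt_or_ge k i with h | h
        · obtain rfl : i = k + 1 := by omega
          simp only [if_neg (show ¬ k + 1 ≤ k by omega)]
          exact ⟨Or.inr ⟨x, hx, hxy⟩, hny⟩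
        · simp only [if_pos h]
          exact hpl i h
  -- a vertex of exact level `K`
  have hex : ∃ y ∈ brS R o K, ∀ j < K, y ∉ brS R o j := by
    rcases K with _ | K
    · exact ⟨o, rfl, fun j hj => absurd hj (Nat.not_lt_zero j)⟩
    · obtain ⟨y, hy, hny⟩ := hnew K
      exact ⟨y, hy, fun j hj h => hny (brS_mono R o (by omega) h)⟩
  obtain ⟨y, hy, hny⟩ := hex
  obtain ⟨p, hp0, -, hpR, hpl⟩ := hpath K y hy hny
  refine ⟨p, hp0, hpR, ?_⟩
  intro i j hij hj h
  have h1 := (hpl i (by omega)).1
  have h2 := (hpl j hj).2 i hij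
  rw [← h] at h2
  exact h2 h1

/-! ### The sum of the tails -/

theorem br_sum_tail_le (n : ℕ) {t : ℝ} (ht : 0 ≤ t) :
    ∑ k ∈ Finset.range n, tail (k + 1) t ≤ t := by
  have hder : ∀ s, HasDerivAt (fun s => s - ∑ k ∈ Finset.range n, tail (k + 1) s)
      (tail n s) s := by
    intro s
    have h1 : HasDerivAt (fun s => ∑ k ∈ Finset.range n, tail (k + 1) s)
        (∑ k ∈ Finset.range n, Real.exp (-s) * (s ^ k / (k.factorial : ℝ))) s :=
      HasDerivAt.fun_sum fun k _ => hasDerivAt_tail k s
    refine ((hasDerivAt_id s).sub h1).congr_deriv ?_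
    rw [tail, Finset.mul_sum]
  have hm : MonotoneOn (fun s => s - ∑ k ∈ Finset.range n, tail (k + 1) s) (Ici 0) := by
    apply monotoneOn_of_deriv_nonneg (convex_Ici 0)
    · exact fun s _ => (hder s).continuousAt.continuousWithinAt
    · exact fun s _ => (hder s).differentiableAt.differentiableWithinAt
    · intro s hs
      rw [interior_Ici] at hs
      rw [(hder s).deriv]
      exact tail_nonneg n (le_of_lt hs)
  have h2 := hm (mem_Ici.2 le_rfl) (mem_Ici.2 ht) ht
  have h3 : ∑ k ∈ Finset.range n, tail (k + 1) 0 = 0 :=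
    Finset.sum_eq_zero fun k _ => tail_at_zero (by omega)
  simp only [h3] at h2
  linarith

theorem br_tsum_tail_le {t : ℝ} (ht : 0 ≤ t) :
    ∑' k : ℕ, ENNReal.ofReal (tail (k + 1) t) ≤ ENNReal.ofReal t := by
  rw [ENNReal.tsum_eq_iSup_nat]
  apply iSup_le
  intro n
  rw [← ENNReal.ofReal_sum_of_nonneg fun k _ => tail_nonneg _ ht]
  exact ENNReal.ofReal_le_ofReal (br_sum_tail_le n ht)

theorem br_poisson_gt (l : ℝ≥0) (i : ℕ) :
    poissonMeasure l {n | i < n} = ENNReal.ofReal (tail (i + 1) l) := by
  have h1 : {n : ℕ | i < n} = ((Finset.range (i + 1) : Finset ℕ) : Set ℕ)ᶜ := by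
    ext n
    simp
  rw [h1, prob_compl_eq_one_sub (Finset.measurableSet _), ← sum_measure_singleton]
  simp only [poissonMeasure_singleton]
  rw [← ENNReal.ofReal_sum_of_nonneg fun k _ => by positivity]
  rw [← ENNReal.ofReal_one, ← ENNReal.ofReal_sub _ (Finset.sum_nonneg fun k _ => by positivity)]
  congr 1
  rw [tail, Finset.mul_sum]
  congr 1
  apply Finset.sum_congr rfl
  intro k _
  ring

/-! ### Measurability -/

section meas

variable {V : Type*} [Countable V] [MeasurableSpace V] [DiscreteMeasurableSpace V]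

omit [Countable V] [DiscreteMeasurableSpace V] in
theorem br_measurable_jumpTime (k : ℕ) : Measurable fun p : Particle V => jumpTime p k := by
  unfold jumpTime
  fun_prop

theorem br_measurable_pos (x : V) (k : ℕ) : Measurable fun p : Particle V => pos x p k := by
  induction k with
  | zero => exact measurable_const
  | succ k ih =>
    apply measurable_to_countable'
    intro y
    have : (fun p : Particle V => pos x p (k + 1)) ⁻¹' {y} =
        ⋃ v : V, ((fun p : Particle V => pos x p k) ⁻¹' {v}) ∩ {p | p.2 (k, v) = y} := by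
      ext p
      simp [pos]
    rw [this]
    refine MeasurableSet.iUnion fun v => (ih (measurableSet_singleton v)).inter ?_
    have h2 : Measurable fun p : Particle V => p.2 (k, v) := by fun_prop
    exact h2 (measurableSet_singleton y)

/-- The event that a particle visits `y` after at least one jump. -/
def brA (t : ℝ) (x y : V) : Set (Particle V) :=
  {p | ∃ k, jumpTime p (k + 1) ≤ t ∧ pos x p (k + 1) = y}

/-- The event that the particles of `x` visit `y`, for `y` different from `x`. -/
def brE (t : ℝ) (x y : V) : Set (ℕ × (ℕ → Particle V)) :=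
  {s | y ∈ visits t x s ∧ y ≠ x}

theorem br_measurableSet_step (t : ℝ) (x y : V) (k : ℕ) :
    MeasurableSet {p : Particle V | jumpTime p k ≤ t ∧ pos x p k = y} :=
  (measurableSet_le (br_measurable_jumpTime k) measurable_const).inter
    (br_measurable_pos x k (measurableSet_singleton y))

theorem br_measurableSet_A (t : ℝ) (x y : V) : MeasurableSet (brA t x y) := by
  have : brA t x y = ⋃ k, {p : Particle V | jumpTime p (k + 1) ≤ t ∧ pos x p (k + 1) = y} := by
    ext p; simp [brA]
  rw [this]
  exact MeasurableSet.iUnion fun k => br_measurableSet_step t x y (k + 1)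

theorem br_measurableSet_E (t : ℝ) (x y : V) : MeasurableSet (brE t x y) := by
  by_cases hxy : y = x
  · have : brE t x y = ∅ := by
      ext s; simp [brE, hxy]
    rw [this]; exact MeasurableSet.empty
  · have : brE t x y = ⋃ i, ⋃ k, {s : ℕ × (ℕ → Particle V) | i < s.1} ∩
        ((fun s : ℕ × (ℕ → Particle V) => s.2 i) ⁻¹'
          {p : Particle V | jumpTime p k ≤ t ∧ pos x p k = y}) := by
      ext s
      simp only [brE, visits, mem_ofPred_eq, mem_insert_iff, hxy, false_or, ne_eq,
        not_false_eq_true, and_true, mem_iUnion, mem_inter_iff, mem_preimage, exists_and_left]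
    rw [this]
    refine MeasurableSet.iUnion fun i => MeasurableSet.iUnion fun k => MeasurableSet.inter ?_ ?_
    · exact measurable_fst (measurableSet_Ioi)
    · have h2 : Measurable fun s : ℕ × (ℕ → Particle V) => s.2 i := by fun_prop
      exact h2 (br_measurableSet_step t x y k)

omit [Countable V] [MeasurableSpace V] [DiscreteMeasurableSpace V] in
theorem br_E_subset (t : ℝ) (x y : V) :
    brE t x y ⊆ ⋃ i, {n : ℕ | i < n} ×ˢ ((fun f : ℕ → Particle V => f i) ⁻¹' brA t x y) := by
  rintro s ⟨hs, hyx⟩
  rcases hs with hs | ⟨i, hi, k, hk, hp⟩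
  · exact absurd hs hyx
  · refine mem_iUnion.2 ⟨i, hi, ?_⟩
    rcases k with _ | k
    · exact absurd hp.symm hyx
    · exact ⟨k, hk, hp⟩

end meas

/-! ### Probability measures -/

section prob

variable {V : Type*} [Countable V] [MeasurableSpace V] [DiscreteMeasurableSpace V]
  {G : SimpleGraph V} [G.LocallyFinite]

theorem br_prob_exp : IsProbabilityMeasure (expMeasure 1) :=
  isProbabilityMeasure_expMeasure one_pos

theorem br_prob_uniform (hne : ∀ v, (G.neighborSet v).Nonempty) (v : V) :
    IsProbabilityMeasure (uniformOn (G.neighborSet v)) :=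
  isProbabilityMeasure_uniformOn (Set.toFinite _) (hne v)

theorem br_prob_particle (hne : ∀ v, (G.neighborSet v).Nonempty) :
    IsProbabilityMeasure (particleLaw G) := by
  have := br_prob_exp
  have := br_prob_uniform hne
  unfold particleLaw
  infer_instance

theorem br_prob_site (hne : ∀ v, (G.neighborSet v).Nonempty) (l : ℝ≥0) :
    IsProbabilityMeasure (siteLaw G l) := by
  have := br_prob_particle hne
  unfold siteLaw
  infer_instance

theorem br_particle_clock (hne : ∀ v, (G.neighborSet v).Nonempty) (A : Set (ℕ → ℝ)) :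
    particleLaw G (Prod.fst ⁻¹' A) = (Measure.infinitePi fun _ : ℕ => expMeasure 1) A := by
  have := br_prob_exp
  have := br_prob_uniform hne
  have : (Prod.fst ⁻¹' A : Set (Particle V)) = A ×ˢ univ := by
    ext p; simp
  rw [this, particleLaw, Measure.prod_prod, measure_univ, mul_one]

theorem br_particle_sum (hne : ∀ v, (G.neighborSet v).Nonempty) (x : V) {t : ℝ} (ht : 0 ≤ t) :
    ∑' y, particleLaw G (brA t x y) ≤ ENNReal.ofReal t := by
  have h1 : ∀ y, particleLaw G (brA t x y) ≤
      ∑' k : ℕ, particleLaw G {p | jumpTime p (k + 1) ≤ t ∧ pos x p (k + 1) = y} := by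
    intro y
    have : brA t x y = ⋃ k, {p : Particle V | jumpTime p (k + 1) ≤ t ∧ pos x p (k + 1) = y} := by
      ext p; simp [brA]
    rw [this]
    exact measure_iUnion_le _
  have h2 : ∀ k : ℕ, ∑' y, particleLaw G {p | jumpTime p (k + 1) ≤ t ∧ pos x p (k + 1) = y} =
      ENNReal.ofReal (tail (k + 1) t) := by
    intro k
    rw [← measure_iUnion _ fun y => br_measurableSet_step t x y (k + 1)]
    · have : (⋃ y, {p : Particle V | jumpTime p (k + 1) ≤ t ∧ pos x p (k + 1) = y}) =
          Prod.fst ⁻¹' {T : ℕ → ℝ | ∑ j ∈ Finset.range (k + 1), T j ≤ t} := by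
        ext p; simp [jumpTime]
      rw [this, br_particle_clock hne, clock_law (k + 1) ht]
    · intro y z hyz
      refine Set.disjoint_left.2 ?_
      rintro p ⟨-, hp⟩ ⟨-, hp'⟩
      exact hyz (hp.symm.trans hp')
  calc ∑' y, particleLaw G (brA t x y)
      ≤ ∑' y, ∑' k : ℕ, particleLaw G {p | jumpTime p (k + 1) ≤ t ∧ pos x p (k + 1) = y} :=
        ENNReal.tsum_le_tsum h1
    _ = ∑' k : ℕ, ∑' y, particleLaw G {p | jumpTime p (k + 1) ≤ t ∧ pos x p (k + 1) = y} :=
        ENNReal.tsum_comm
    _ = ∑' k : ℕ, ENNReal.ofReal (tail (k + 1) t) := tsum_congr h2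
    _ ≤ ENNReal.ofReal t := br_tsum_tail_le ht

theorem br_site_sum (hne : ∀ v, (G.neighborSet v).Nonempty) (x : V) (l t : ℝ≥0) :
    ∑' y, siteLaw G l (brE t x y) ≤ ((l * t : ℝ≥0) : ℝ≥0∞) := by
  have := br_prob_particle hne
  have h1 : ∀ y, siteLaw G l (brE t x y) ≤
      ∑' i : ℕ, ENNReal.ofReal (tail (i + 1) l) * particleLaw G (brA t x y) := by
    intro y
    refine (measure_mono (br_E_subset (t : ℝ) x y)).trans ((measure_iUnion_le _).trans ?_)
    refine ENNReal.tsum_le_tsum fun i => ?_
    rw [siteLaw, Measure.prod_prod, br_poisson_gt,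
      (measurePreserving_eval_infinitePi (fun _ : ℕ => particleLaw G) i).measure_preimage
        (br_measurableSet_A (t : ℝ) x y).nullMeasurableSet]
  calc ∑' y, siteLaw G l (brE t x y)
      ≤ ∑' y, ∑' i : ℕ, ENNReal.ofReal (tail (i + 1) l) * particleLaw G (brA t x y) :=
        ENNReal.tsum_le_tsum h1
    _ = ∑' i : ℕ, ∑' y, ENNReal.ofReal (tail (i + 1) l) * particleLaw G (brA t x y) :=
        ENNReal.tsum_comm
    _ = (∑' i : ℕ, ENNReal.ofReal (tail (i + 1) l)) * ∑' y, particleLaw G (brA t x y) := by
        rw [← ENNReal.tsum_mul_right]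
        exact tsum_congr fun i => ENNReal.tsum_mul_left
    _ ≤ ENNReal.ofReal l * ENNReal.ofReal t :=
        mul_le_mul' (br_tsum_tail_le l.2) (br_particle_sum hne x t.2)
    _ = ((l * t : ℝ≥0) : ℝ≥0∞) := by
        rw [ENNReal.ofReal_coe_nnreal, ENNReal.ofReal_coe_nnreal, ENNReal.coe_mul]

/-! ### Almost surely every vertex visits finitely many vertices -/

theorem br_tail_tendsto {t : ℝ} (ht : 0 ≤ t) :
    Filter.Tendsto (fun k => ENNReal.ofReal (tail (k + 1) t)) Filter.atTop (nhds 0) := by
  refine ENNReal.tendsto_atTop_zero_of_tsum_ne_top ?_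
  exact ne_top_of_le_ne_top ENNReal.ofReal_ne_top (br_tsum_tail_le ht)

theorem br_ae_particle (hne : ∀ v, (G.neighborSet v).Nonempty) {t : ℝ} (ht : 0 ≤ t) :
    ∀ᵐ p ∂(particleLaw G), ∃ K, ∀ k, K ≤ k → t < jumpTime p k := by
  have := br_prob_exp
  have := br_prob_uniform hne
  -- the waiting times are nonnegative
  have h1 : ∀ᵐ p ∂(particleLaw G), ∀ j, 0 ≤ p.1 j := by
    have := clock_ae_nonneg
    rw [ae_iff] at this ⊢
    have h2 := br_particle_clock hne {T : ℕ → ℝ | ¬ ∀ j, 0 ≤ T j}
    rw [this] at h2
    exact h2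
  -- some jump time is beyond `t`
  have h2 : ∀ᵐ p ∂(particleLaw G), ∃ k, t < jumpTime p k := by
    rw [ae_iff]
    have h3 : ∀ k : ℕ, particleLaw G {p | ¬ ∃ k, t < jumpTime p k} ≤
        ENNReal.ofReal (tail (k + 1) t) := by
      intro k
      rw [← clock_law (k + 1) ht, ← br_particle_clock hne]
      apply measure_mono
      intro p hp
      simp only [mem_ofPred_eq, not_exists, not_lt] at hp
      exact hp (k + 1)
    exact le_antisymm (ge_of_tendsto' (br_tail_tendsto ht) h3) (zero_le)
  filter_upwards [h1, h2] with p hp ⟨K, hK⟩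
  refine ⟨K, fun k hk => hK.trans_le ?_⟩
  exact Finset.sum_le_sum_of_subset_of_nonneg (Finset.range_mono hk) fun j _ _ => hp j

theorem br_ae_site (hne : ∀ v, (G.neighborSet v).Nonempty) (l : ℝ≥0) {t : ℝ} (ht : 0 ≤ t) (x : V) :
    ∀ᵐ s ∂(siteLaw G l), (visits t x s).Finite := by
  have := br_prob_particle hne
  have h1 : ∀ᵐ s ∂(siteLaw G l), ∀ i, ∃ K, ∀ k, K ≤ k → t < jumpTime (s.2 i) k := by
    rw [ae_all_iff]
    intro i
    have h2 : Measure.QuasiMeasurePreserving (fun s : ℕ × (ℕ → Particle V) => s.2 i)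
        (siteLaw G l) (particleLaw G) := by
      have h3 := (measurePreserving_eval_infinitePi
        (fun _ : ℕ => particleLaw G) i).quasiMeasurePreserving
      have h4 : Measure.QuasiMeasurePreserving (Prod.snd : ℕ × (ℕ → Particle V) → _)
        (siteLaw G l) (Measure.infinitePi fun _ : ℕ => particleLaw G) := by
        unfold siteLaw
        exact Measure.quasiMeasurePreserving_snd
      exact h3.comp h4
    exact h2.ae (br_ae_particle hne ht)
  filter_upwards [h1] with s hs
  choose K hK using hs
  refine Set.Finite.insert x (Set.Finite.subset (s := ⋃ i ∈ Set.Iio s.1, ⋃ k ∈ Set.Iio (K i),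
    {pos x (s.2 i) k}) ?_ ?_)
  · exact (Set.finite_Iio _).biUnion fun i _ =>
      (Set.finite_Iio _).biUnion fun k _ => Set.finite_singleton _
  · rintro y ⟨i, hi, k, hk, rfl⟩
    simp only [mem_iUnion, mem_Iio]
    refine ⟨i, hi, k, ?_, rfl⟩
    by_contra hc
    exact absurd (hK i k (not_lt.1 hc)) (not_lt.2 hk)

theorem br_ae_law (hne : ∀ v, (G.neighborSet v).Nonempty) (l : ℝ≥0) {t : ℝ} (ht : 0 ≤ t) :
    ∀ᵐ ω ∂(law G l), ∀ x, (visits t x (ω x)).Finite := by
  have := br_prob_site hne l
  rw [ae_all_iff]
  intro x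
  have h2 : Measure.QuasiMeasurePreserving (fun ω : Config V => ω x)
      (law G l) (siteLaw G l) :=
    (measurePreserving_eval_infinitePi (fun _ : V => siteLaw G l) x).quasiMeasurePreserving
  exact h2.ae (br_ae_site hne l ht x)

end prob


/-! ### Counting chains -/

section count

theorem br_chain_sum {V : Type*} (q : V → V → ℝ≥0∞) (c : ℝ≥0∞) (hq : ∀ x, ∑' y, q x y ≤ c)
    (K : ℕ) (x : V) :
    ∑' g : Fin K → V, ∏ i : Fin K, q ((Fin.cons x g : Fin (K + 1) → V) i.castSucc)
      ((Fin.cons x g : Fin (K + 1) → V) i.succ) ≤ c ^ K := by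
  induction K generalizing x with
  | zero => simp
  | succ K ih =>
    rw [← (Fin.consEquiv fun _ : Fin (K + 1) => V).tsum_eq, ENNReal.tsum_prod']
    have h1 : ∀ (y : V) (g : Fin K → V),
        ∏ i : Fin (K + 1), q ((Fin.cons x ((Fin.consEquiv fun _ : Fin (K + 1) => V) (y, g)) :
          Fin (K + 1 + 1) → V) i.castSucc)
          ((Fin.cons x ((Fin.consEquiv fun _ : Fin (K + 1) => V) (y, g)) :
          Fin (K + 1 + 1) → V) i.succ) =
        q x y * ∏ i : Fin K, q ((Fin.cons y g : Fin (K + 1) → V) i.castSucc)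
          ((Fin.cons y g : Fin (K + 1) → V) i.succ) := by
      intro y g
      rw [Fin.prod_univ_succ]
      congr 1
    calc ∑' (y : V) (g : Fin K → V), ∏ i : Fin (K + 1),
          q ((Fin.cons x ((Fin.consEquiv fun _ : Fin (K + 1) => V) (y, g)) :
          Fin (K + 1 + 1) → V) i.castSucc)
          ((Fin.cons x ((Fin.consEquiv fun _ : Fin (K + 1) => V) (y, g)) :
          Fin (K + 1 + 1) → V) i.succ)
        = ∑' (y : V), q x y * ∑' (g : Fin K → V), ∏ i : Fin K,
          q ((Fin.cons y g : Fin (K + 1) → V) i.castSucc)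
          ((Fin.cons y g : Fin (K + 1) → V) i.succ) := by
          refine tsum_congr fun y => ?_
          rw [← ENNReal.tsum_mul_left]
          exact tsum_congr fun g => h1 y g
      _ ≤ ∑' (y : V), q x y * c ^ K :=
          ENNReal.tsum_le_tsum fun y => mul_le_mul_right (ih y) _
      _ = (∑' (y : V), q x y) * c ^ K := ENNReal.tsum_mul_right
      _ ≤ c * c ^ K := mul_le_mul_left (hq x) _
      _ = c ^ (K + 1) := (pow_succ' c K).symm

theorem br_cylinder {V : Type*} [Countable V] [MeasurableSpace V] [DiscreteMeasurableSpace V]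
    {G : SimpleGraph V} [G.LocallyFinite] (hne : ∀ v, (G.neighborSet v).Nonempty) (l : ℝ≥0)
    (t : ℝ) (K : ℕ) (f : Fin (K + 1) → V) (hf : Function.Injective f) :
    law G l {ω | ∀ i : Fin K, ω (f i.castSucc) ∈ brE t (f i.castSucc) (f i.succ)} ≤
      ∏ i : Fin K, siteLaw G l (brE t (f i.castSucc) (f i.succ)) := by
  classical
  have := br_prob_site hne l
  have hinj : Function.Injective fun i : Fin K => f i.castSucc :=
    hf.comp (Fin.castSucc_injective K)
  set h : V → V := Function.extend (fun i : Fin K => f i.castSucc) (fun i : Fin K => f i.succ) id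
    with hh
  have hh1 : ∀ i : Fin K, h (f i.castSucc) = f i.succ := fun i => hinj.extend_apply _ _ i
  have h1 : {ω : Config V | ∀ i : Fin K, ω (f i.castSucc) ∈ brE t (f i.castSucc) (f i.succ)} ⊆
      Set.pi ((Finset.univ.image fun i : Fin K => f i.castSucc : Finset V) : Set V)
        fun v => brE t v (h v) := by
    intro ω hω v hv
    obtain ⟨i, -, rfl⟩ := Finset.mem_image.1 (Finset.mem_coe.1 hv)
    show ω (f i.castSucc) ∈ brE t (f i.castSucc) (h (f i.castSucc))
    rw [hh1]
    exact hω i
  refine (measure_mono h1).trans ?_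
  rw [law, Measure.infinitePi_pi _ fun v _ => br_measurableSet_E t v (h v),
    Finset.prod_image fun i _ j _ hij => hinj hij]
  exact le_of_eq (Finset.prod_congr rfl fun i _ => by rw [hh1])

end count

theorem theta_eq_zero {V : Type*} [Countable V] [Infinite V] [MeasurableSpace V]
    [DiscreteMeasurableSpace V] (G : SimpleGraph V) [G.LocallyFinite] (hG : G.Connected) (o : V)
    (l t : ℝ≥0) (h : l * t < 1) : theta G o l t = 0 := by
  have hne : ∀ v, (G.neighborSet v).Nonempty := by
    intro v
    obtain ⟨w, hw⟩ := hG.preconnected.exists_adj_of_nontrivial v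
    exact ⟨w, hw⟩
  have h1 : ∀ K : ℕ, theta G o l t ≤ ((l * t : ℝ≥0) : ℝ≥0∞) ^ K := by
    intro K
    have h2 : percolates G o t ⊆ {ω : Config V | ¬ ∀ x, (visits t x (ω x)).Finite} ∪
        ⋃ g : Fin K → V, {ω : Config V | Function.Injective (Fin.cons o g : Fin (K + 1) → V) ∧
          ∀ i : Fin K, ω ((Fin.cons o g : Fin (K + 1) → V) i.castSucc) ∈
            brE t ((Fin.cons o g : Fin (K + 1) → V) i.castSucc)
              ((Fin.cons o g : Fin (K + 1) → V) i.succ)} := by
      intro ω hω
      by_cases hfin : ∀ x, (visits t x (ω x)).Finite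
      swap
      · exact Or.inl hfin
      right
      have hinf : {y | Relation.ReflTransGen (fun x z => z ∈ visits t x (ω x)) o y}.Infinite := by
        intro hf
        obtain ⟨n, hn⟩ := (hf.image fun y => G.dist o y).bddAbove
        obtain ⟨y, hy, hr⟩ := hω n
        exact absurd (hn (mem_image_of_mem _ hr)) (not_le.2 hy)
      obtain ⟨p, hp0, hpR, hpne⟩ := br_exists_path (fun x z => z ∈ visits t x (ω x)) o hfin hinf K
      have hcons : (Fin.cons o fun i : Fin K => p (i + 1) : Fin (K + 1) → V) =
          fun i : Fin (K + 1) => p i := by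
        funext i
        refine Fin.cases ?_ (fun j => ?_) i
        · simp [hp0]
        · simp
      refine mem_iUnion.2 ⟨fun i : Fin K => p (i + 1), ?_, ?_⟩
      · rw [hcons]
        intro i j hij
        by_contra hne'
        rcases lt_or_gt_of_ne hne' with hlt | hlt
        · exact hpne i j hlt (by omega) hij
        · exact hpne j i hlt (by omega) hij.symm
      · intro i
        rw [hcons]
        exact ⟨hpR i i.2, (hpne i (i + 1) (by omega) (by omega)).symm⟩
    have h3 : law G l {ω : Config V | ¬ ∀ x, (visits t x (ω x)).Finite} = 0 :=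
      ae_iff.1 (br_ae_law hne l t.2)
    calc theta G o l t ≤ law G l {ω : Config V | ¬ ∀ x, (visits t x (ω x)).Finite} +
          law G l (⋃ g : Fin K → V, {ω : Config V |
          Function.Injective (Fin.cons o g : Fin (K + 1) → V) ∧
          ∀ i : Fin K, ω ((Fin.cons o g : Fin (K + 1) → V) i.castSucc) ∈
            brE t ((Fin.cons o g : Fin (K + 1) → V) i.castSucc)
              ((Fin.cons o g : Fin (K + 1) → V) i.succ)}) :=
          (measure_mono h2).trans (measure_union_le _ _)
      _ ≤ ∑' g : Fin K → V, ∏ i : Fin K,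
          siteLaw G l (brE t ((Fin.cons o g : Fin (K + 1) → V) i.castSucc)
            ((Fin.cons o g : Fin (K + 1) → V) i.succ)) := by
          rw [h3, zero_add]
          refine (measure_iUnion_le _).trans (ENNReal.tsum_le_tsum fun g => ?_)
          by_cases hg : Function.Injective (Fin.cons o g : Fin (K + 1) → V)
          · refine (measure_mono ?_).trans (br_cylinder hne l t K (Fin.cons o g) hg)
            exact fun ω hω => hω.2
          · have : {ω : Config V | Function.Injective (Fin.cons o g : Fin (K + 1) → V) ∧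
                ∀ i : Fin K, ω ((Fin.cons o g : Fin (K + 1) → V) i.castSucc) ∈
                brE t ((Fin.cons o g : Fin (K + 1) → V) i.castSucc)
                ((Fin.cons o g : Fin (K + 1) → V) i.succ)} = ∅ := by
              ext ω
              simp [hg]
            rw [this, measure_empty]
            exact zero_le
      _ ≤ ((l * t : ℝ≥0) : ℝ≥0∞) ^ K :=
          br_chain_sum (fun x y => siteLaw G l (brE t x y)) _
            (fun x => br_site_sum hne x l t) K o
  have h4 : Filter.Tendsto (fun K : ℕ => ((l * t : ℝ≥0) : ℝ≥0∞) ^ K) Filter.atTop (nhds 0) :=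
    ENNReal.tendsto_pow_atTop_nhds_zero_of_lt_one (by exact_mod_cast h)
  exact le_antisymm (ge_of_tendsto' h4 h1) zero_le

end Pool.Agent.Frog
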