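import Pool.Agent.Work.MP_c9ff92_pr.LinkDefs
import Pool.Agent.Work.MP_c9ff92_pr.Branch

/-!
# Poisson thinning for the frog configuration (MP_c9ff92_pr, L2)
-/

open MeasureTheory ProbabilityTheory Set
open scoped ENNReal NNReal

noncomputable section

namespace Pool.Agent.Frog

/-! ### Trajectories -/

theorem lb_pos_eq {V : Type*} (x : V) (p : Particle V) (k : ℕ) :
    pos x p k = pos x ((fun _ => 0 : ℕ → ℝ), p.2) k := by
  induction k with
  | zero => rfl
  | succ k ih => rw [pos, pos, ih]

theorem lb_posList_eq {V : Type*} (x : V) (p : Particle V) (k : ℕ) :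
    posList x p k = posList x ((fun _ => 0 : ℕ → ℝ), p.2) k := by
  induction k with
  | zero => rfl
  | succ k ih => rw [posList, posList, ih, lb_pos_eq]

theorem lb_posList_length {V : Type*} (x : V) (p : Particle V) (k : ℕ) :
    (posList x p k).length = k := by
  induction k with
  | zero => rfl
  | succ k ih => rw [posList, List.length_cons, ih]

theorem lb_cur_posList {V : Type*} (x : V) (p : Particle V) (k : ℕ) :
    cur (x, posList x p k) = pos x p k := by
  cases k with
  | zero => rfl
  | succ k => rfl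

theorem lb_traj_iff {V : Type*} (t : ℝ) (M : ℕ) (x : V) (p : Particle V) (l : List V) :
    traj t M x p = l ↔ njumps t M p = l.length ∧ posList x p l.length = l := by
  unfold traj
  constructor
  · intro h
    have h1 : njumps t M p = l.length := by rw [← h, lb_posList_length]
    exact ⟨h1, by rw [← h1]; exact h⟩
  · rintro ⟨h1, h2⟩
    rw [h1, h2]

theorem lb_mem_pres {V : Type*} {t : ℝ} {M : ℕ} {s : Finset (V × List V)} {ω : Config V}
    {γ : V × List V} : γ ∈ pres t M s ω ↔
      γ ∈ s ∧ ∃ i < (ω γ.1).1, traj t M γ.1 ((ω γ.1).2 i) = γ.2 := by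
  unfold pres
  exact @Finset.mem_filter _ _ (_) _ _

/-! ### Measurability -/

section meas

variable {V : Type*} [Countable V] [MeasurableSpace V] [DiscreteMeasurableSpace V]

omit [Countable V] [DiscreteMeasurableSpace V] in
theorem lb_measurable_njumps (t : ℝ) (M : ℕ) : Measurable fun p : Particle V => njumps t M p := by
  unfold njumps
  exact measurable_findGreatest fun k _ =>
    measurableSet_le (br_measurable_jumpTime k) measurable_const

theorem lb_measurableSet_posList (x : V) (k : ℕ) (l : List V) :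
    MeasurableSet {p : Particle V | posList x p k = l} := by
  induction k generalizing l with
  | zero =>
    by_cases h : [] = l
    · have e : {p : Particle V | posList x p 0 = l} = univ := by
        ext p
        simp [posList, h]
      rw [e]
      exact MeasurableSet.univ
    · have e : {p : Particle V | posList x p 0 = l} = ∅ := by
        ext p
        simp [posList, h]
      rw [e]
      exact MeasurableSet.empty
  | succ k ih =>
    rcases l with _ | ⟨y, l⟩
    · have e : {p : Particle V | posList x p (k + 1) = []} = ∅ := by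
        ext p
        simp [posList]
      rw [e]
      exact MeasurableSet.empty
    · have e : {p : Particle V | posList x p (k + 1) = y :: l} =
          {p | pos x p (k + 1) = y} ∩ {p | posList x p k = l} := by
        ext p
        simp only [posList, List.cons.injEq, mem_ofPred_eq, mem_inter_iff]
      rw [e]
      exact (br_measurable_pos x (k + 1) (measurableSet_singleton y)).inter (ih l)

theorem lb_measurableSet_traj (t : ℝ) (M : ℕ) (x : V) (l : List V) :
    MeasurableSet {p : Particle V | traj t M x p = l} := by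
  have e : {p : Particle V | traj t M x p = l} =
      ((fun p => njumps t M p) ⁻¹' {l.length}) ∩ {p | posList x p l.length = l} := by
    ext p
    simp only [mem_ofPred_eq, mem_inter_iff, mem_preimage, mem_singleton_iff, lb_traj_iff]
  rw [e]
  exact (lb_measurable_njumps t M (measurableSet_singleton _)).inter
    (lb_measurableSet_posList x _ l)

/-- Some particle of `x` has the trajectory `l`. -/
def lbPres (t : ℝ) (M : ℕ) (x : V) (l : List V) : Set (ℕ × (ℕ → Particle V)) :=
  {s | ∃ i < s.1, traj t M x (s.2 i) = l}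

theorem lb_measurableSet_pres' (t : ℝ) (M : ℕ) (x : V) (l : List V) :
    MeasurableSet (lbPres t M x l) := by
  have e : lbPres t M x l = ⋃ i, {s : ℕ × (ℕ → Particle V) | i < s.1} ∩
      ((fun s : ℕ × (ℕ → Particle V) => s.2 i) ⁻¹' {p : Particle V | traj t M x p = l}) := by
    ext s
    simp only [lbPres, mem_ofPred_eq, mem_iUnion, mem_inter_iff, mem_preimage]
  rw [e]
  refine MeasurableSet.iUnion fun i => MeasurableSet.inter ?_ ?_
  · exact measurable_fst measurableSet_Ioi
  · have h2 : Measurable fun s : ℕ × (ℕ → Particle V) => s.2 i := by fun_prop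
    exact h2 (lb_measurableSet_traj t M x l)

theorem measurableSet_pres [DecidableEq V] (t : ℝ) (M : ℕ) (s : Finset (V × List V))
    (A : Finset (V × List V)) : MeasurableSet {ω : Config V | pres t M s ω = A} := by
  by_cases hA : A ⊆ s
  · have e : {ω : Config V | pres t M s ω = A} =
        ⋂ γ ∈ s, {ω : Config V | ω γ.1 ∈ lbPres t M γ.1 γ.2 ↔ γ ∈ A} := by
      ext ω
      simp only [mem_ofPred_eq, mem_iInter]
      constructor
      · rintro rfl γ hγ
        simp only [lb_mem_pres, hγ, true_and, lbPres, mem_ofPred_eq]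
      · intro h
        ext γ
        rw [lb_mem_pres]
        constructor
        · rintro ⟨h1, h2⟩
          exact (h γ h1).1 h2
        · intro h1
          exact ⟨hA h1, (h γ (hA h1)).2 h1⟩
    rw [e]
    refine Finset.measurableSet_biInter s fun γ _ => ?_
    have h1 : MeasurableSet {ω : Config V | ω γ.1 ∈ lbPres t M γ.1 γ.2} :=
      (measurable_pi_apply γ.1) (lb_measurableSet_pres' t M γ.1 γ.2)
    by_cases h : γ ∈ A
    · have e2 : {ω : Config V | ω γ.1 ∈ lbPres t M γ.1 γ.2 ↔ γ ∈ A} =
          {ω : Config V | ω γ.1 ∈ lbPres t M γ.1 γ.2} := by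
        ext ω
        simp [h]
      rw [e2]
      exact h1
    · have e2 : {ω : Config V | ω γ.1 ∈ lbPres t M γ.1 γ.2 ↔ γ ∈ A} =
          {ω : Config V | ω γ.1 ∈ lbPres t M γ.1 γ.2}ᶜ := by
        ext ω
        simp [h]
      rw [e2]
      exact h1.compl
  · have e : {ω : Config V | pres t M s ω = A} = ∅ := by
      ext ω
      simp only [mem_ofPred_eq, mem_empty_iff_false, iff_false]
      rintro rfl
      exact hA fun γ hγ => (lb_mem_pres.1 hγ).1
    rw [e]
    exact MeasurableSet.empty

end meas

/-! ### The law of a trajectory -/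

section law1

variable {V : Type*} [Countable V] [MeasurableSpace V] [DiscreteMeasurableSpace V]
  {G : SimpleGraph V} [G.LocallyFinite]

theorem lb_uniform [DecidableEq V] (v y : V) [Decidable (G.Adj v y)] :
    uniformOn (G.neighborSet v) {y} =
      ENNReal.ofReal (if G.Adj v y then ((G.degree v : ℝ))⁻¹ else 0) := by
  have h1 : G.neighborSet v = ((G.neighborFinset v : Finset V) : Set V) := by
    ext z
    simp
  have h2 : ({y} : Set V) = (({y} : Finset V) : Set V) := by simp
  rw [h1, h2, uniformOn_apply_finset, SimpleGraph.card_neighborFinset_eq_degree]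
  split_ifs with h
  · have h3 : G.neighborFinset v ∩ {y} = {y} := by
      rw [Finset.inter_singleton_of_mem]
      exact (SimpleGraph.mem_neighborFinset _ _ _).2 h
    have h4 : 0 < G.degree v := (G.degree_pos_iff_exists_adj v).2 ⟨y, h⟩
    rw [h3, Finset.card_singleton, ENNReal.ofReal_inv_of_pos (by exact_mod_cast h4),
      ENNReal.ofReal_natCast, Nat.cast_one, one_div]
  · have h3 : G.neighborFinset v ∩ {y} = ∅ := by
      rw [Finset.inter_singleton_of_notMem]
      rwa [SimpleGraph.mem_neighborFinset]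
    rw [h3]
    simp

theorem lb_cylinder [DecidableEq V] (x : V) (l : List V) :
    ∃ (I : Finset (ℕ × V)) (f : ℕ × V → V), (∀ q ∈ I, q.1 < l.length) ∧
      {τ : ℕ × V → V | posList x ((fun _ => 0 : ℕ → ℝ), τ) l.length = l} =
        Set.pi (I : Set (ℕ × V)) (fun q => {f q}) ∧
      ∏ q ∈ I, uniformOn (G.neighborSet q.2) {f q} = ENNReal.ofReal (wgt G x l) := by
  classical
  induction l with
  | nil =>
    refine ⟨∅, fun _ => x, by simp, ?_, by simp [wgt]⟩
    ext τ
    simp [posList]
  | cons y l ih =>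
    obtain ⟨I, f, h1, h2, h3⟩ := ih
    have hI : (l.length, cur (x, l)) ∉ I := fun h => lt_irrefl _ (h1 _ h)
    have hI' : ∀ q ∈ I, q ≠ (l.length, cur (x, l)) := fun q hq h => hI (h ▸ hq)
    refine ⟨insert (l.length, cur (x, l)) I, Function.update f (l.length, cur (x, l)) y,
      ?_, ?_, ?_⟩
    · intro q hq
      rw [List.length_cons]
      rcases Finset.mem_insert.1 hq with rfl | hq
      · exact Nat.lt_succ_self _
      · exact (h1 q hq).trans (Nat.lt_succ_self _)
    · ext τ
      have h4 : τ ∈ {τ : ℕ × V → V | posList x ((fun _ => 0 : ℕ → ℝ), τ) l.length = l} ↔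
          τ ∈ Set.pi (I : Set (ℕ × V)) (fun q => {f q}) := by rw [h2]
      simp only [mem_ofPred_eq, Set.mem_pi, Finset.mem_coe, mem_singleton_iff] at h4
      simp only [mem_ofPred_eq, List.length_cons, posList, List.cons.injEq, Set.mem_pi,
        Finset.coe_insert, mem_insert_iff, Finset.mem_coe, mem_singleton_iff, forall_eq_or_imp,
        Function.update_self, pos]
      constructor
      · rintro ⟨h5, h6⟩
        have h7 := lb_cur_posList x ((fun _ => 0 : ℕ → ℝ), τ) l.length
        rw [h6] at h7
        refine ⟨by rw [h7]; exact h5, fun q hq => ?_⟩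
        rw [Function.update_of_ne (hI' q hq)]
        exact (h4.1 h6) q hq
      · rintro ⟨h5, h6⟩
        have h8 : posList x ((fun _ => 0 : ℕ → ℝ), τ) l.length = l := by
          refine h4.2 fun q hq => ?_
          have := h6 q hq
          rwa [Function.update_of_ne (hI' q hq)] at this
        have h7 := lb_cur_posList x ((fun _ => 0 : ℕ → ℝ), τ) l.length
        rw [h8] at h7
        exact ⟨by rw [← h7]; exact h5, h8⟩
    · rw [Finset.prod_insert hI, Function.update_self, lb_uniform]
      have h4 : ∏ q ∈ I, uniformOn (G.neighborSet q.2)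
          {Function.update f (l.length, cur (x, l)) y q} = ENNReal.ofReal (wgt G x l) := by
        rw [← h3]
        refine Finset.prod_congr rfl fun q hq => ?_
        rw [Function.update_of_ne (hI' q hq)]
      rw [h4, ← ENNReal.ofReal_mul (by split_ifs <;> positivity), wgt]

theorem lb_clock (M m : ℕ) (hm : m ≤ M) {t : ℝ} (ht : 0 ≤ t) :
    (Measure.infinitePi fun _ : ℕ => expMeasure 1)
      {T | Nat.findGreatest (fun k => ∑ j ∈ Finset.range k, T j ≤ t) M = m} =
      ENNReal.ofReal (tl' 1 t M m - tl' 1 t M (m + 1)) := by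
  have := isProb_exp
  set P := (Measure.infinitePi fun _ : ℕ => expMeasure 1) with hP
  have hmeas : ∀ k, MeasurableSet {T : ℕ → ℝ | ∑ j ∈ Finset.range k, T j ≤ t} := by
    intro k
    have : Measurable fun T : ℕ → ℝ => ∑ j ∈ Finset.range k, T j := by fun_prop
    exact measurableSet_le this measurable_const
  have hmono : ∀ᵐ T ∂P, Monotone fun k => ∑ j ∈ Finset.range k, T j := by
    filter_upwards [clock_ae_nonneg] with T hT
    exact monotone_nat_of_le_succ fun k => by
      rw [Finset.sum_range_succ]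
      linarith [hT k]
  rcases hm.eq_or_lt with rfl | hlt
  · have e1 : {T : ℕ → ℝ | Nat.findGreatest (fun k => ∑ j ∈ Finset.range k, T j ≤ t) m = m} =ᵐ[P]
        {T : ℕ → ℝ | ∑ j ∈ Finset.range m, T j ≤ t} := by
      filter_upwards [hmono] with T hT
      refine propext ?_
      change Nat.findGreatest (fun k => ∑ j ∈ Finset.range k, T j ≤ t) m = m ↔
        ∑ j ∈ Finset.range m, T j ≤ t
      constructor
      · intro h
        rcases Nat.eq_zero_or_pos m with h0 | h0
        · subst h0
          simpa using ht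
        · exact (Nat.findGreatest_eq_iff.1 h).2.1 h0.ne'
      · intro h
        exact le_antisymm (Nat.findGreatest_le _)
          (Nat.le_findGreatest (P := fun k => ∑ j ∈ Finset.range k, T j ≤ t) le_rfl h)
    rw [measure_congr e1, clock_law m ht, tl', tl', if_pos le_rfl,
      if_neg (by omega : ¬ m + 1 ≤ m), one_mul, sub_zero]
  · have e1 : {T : ℕ → ℝ | Nat.findGreatest (fun k => ∑ j ∈ Finset.range k, T j ≤ t) M = m} =ᵐ[P]
        ({T : ℕ → ℝ | ∑ j ∈ Finset.range m, T j ≤ t} \
          {T : ℕ → ℝ | ∑ j ∈ Finset.range (m + 1), T j ≤ t} : Set (ℕ → ℝ)) := by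
      filter_upwards [hmono] with T hT
      refine propext ?_
      change Nat.findGreatest (fun k => ∑ j ∈ Finset.range k, T j ≤ t) M = m ↔
        ∑ j ∈ Finset.range m, T j ≤ t ∧ ¬ ∑ j ∈ Finset.range (m + 1), T j ≤ t
      constructor
      · intro h
        obtain ⟨h1, h2, h3⟩ := Nat.findGreatest_eq_iff.1 h
        refine ⟨?_, h3 (Nat.lt_succ_self m) (by omega)⟩
        rcases Nat.eq_zero_or_pos m with h0 | h0
        · subst h0
          simpa using ht
        · exact h2 h0.ne'
      · rintro ⟨h1, h2⟩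
        refine Nat.findGreatest_eq_iff.2 ⟨hm, fun _ => h1, fun n hn _ hc => h2 ?_⟩
        exact (hT (by omega : m + 1 ≤ n)).trans hc
    have e2 : ({T : ℕ → ℝ | ∑ j ∈ Finset.range (m + 1), T j ≤ t} ∩
        {T : ℕ → ℝ | ∑ j ∈ Finset.range m, T j ≤ t} : Set (ℕ → ℝ)) =ᵐ[P]
        {T : ℕ → ℝ | ∑ j ∈ Finset.range (m + 1), T j ≤ t} := by
      filter_upwards [hmono] with T hT
      refine propext ?_
      change (∑ j ∈ Finset.range (m + 1), T j ≤ t ∧ ∑ j ∈ Finset.range m, T j ≤ t) ↔
        ∑ j ∈ Finset.range (m + 1), T j ≤ t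
      exact ⟨fun h => h.1, fun h => ⟨h, (hT (Nat.le_succ m)).trans h⟩⟩
    have h3 := measure_inter_add_sdiff {T : ℕ → ℝ | ∑ j ∈ Finset.range m, T j ≤ t}
      (hmeas (m + 1)) (μ := P)
    rw [inter_comm, measure_congr e2, clock_law (m + 1) ht, clock_law m ht] at h3
    rw [measure_congr e1]
    have h4 : (tl' 1 t M m - tl' 1 t M (m + 1)) = tail m t - tail (m + 1) t := by
      rw [tl', tl', if_pos hm, if_pos (by omega : m + 1 ≤ M), one_mul, one_mul]
    rw [h4, ENNReal.ofReal_sub _ (tail_nonneg _ ht), ← h3,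
      ENNReal.add_sub_cancel_left ENNReal.ofReal_ne_top]

theorem lb_particle [DecidableEq V] (hne : ∀ v, (G.neighborSet v).Nonempty) (x : V) (l : List V)
    (M : ℕ) (hl : l.length ≤ M) (t : ℝ≥0) :
    particleLaw G {p | traj t M x p = l} = ENNReal.ofReal (rate G (tl' 1 t M) (x, l)) := by
  have := br_prob_exp
  have := br_prob_uniform hne
  obtain ⟨I, f, -, h2, h3⟩ := lb_cylinder (G := G) x l
  have e : {p : Particle V | traj t M x p = l} =
      {T : ℕ → ℝ | Nat.findGreatest (fun k => ∑ j ∈ Finset.range k, T j ≤ (t : ℝ)) M =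
        l.length} ×ˢ {τ : ℕ × V → V | posList x ((fun _ => 0 : ℕ → ℝ), τ) l.length = l} := by
    ext p
    rw [mem_ofPred_eq, lb_traj_iff, mem_prod, lb_posList_eq]
    rfl
  rw [e, particleLaw, Measure.prod_prod, lb_clock M _ hl t.coe_nonneg, h2,
    Measure.infinitePi_pi _ fun q _ => measurableSet_singleton (f q), h3, rate,
    ENNReal.ofReal_mul' (wgt_nonneg G x l)]

omit [Countable V] [MeasurableSpace V] [DiscreteMeasurableSpace V] in
theorem lb_rate_nonneg [DecidableEq V] (x : V) (l : List V) (M : ℕ) (t : ℝ≥0) :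
    0 ≤ rate G (tl' 1 t M) (x, l) := by
  refine rate_nonneg (G := G) ?_
  unfold tl'
  simp only [one_mul]
  split_ifs with h1 h2
  · exact tail_succ_le _ t.coe_nonneg
  · omega
  · exact tail_nonneg _ t.coe_nonneg
  · exact le_rfl

end law1

/-! ### The law of the particles of a vertex -/

section law2

variable {V : Type*} [Countable V] [MeasurableSpace V] [DiscreteMeasurableSpace V]
  {G : SimpleGraph V} [G.LocallyFinite]

theorem lb_poisson_sum (l : ℝ≥0) (q : ℝ) (hq1 : q ≤ 1) :
    ∑' n : ℕ, ENNReal.ofReal (Real.exp (-l) * l ^ n / (n.factorial : ℝ)) *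
      (ENNReal.ofReal (1 - q)) ^ n = ENNReal.ofReal (Real.exp (-(l * q))) := by
  have h1 : (0 : ℝ) ≤ 1 - q := by linarith
  have h2 : ∀ n : ℕ, ENNReal.ofReal (Real.exp (-l) * l ^ n / (n.factorial : ℝ)) *
      (ENNReal.ofReal (1 - q)) ^ n =
      ENNReal.ofReal (Real.exp (-l) * ((l * (1 - q)) ^ n / (n.factorial : ℝ))) := by
    intro n
    rw [← ENNReal.ofReal_pow h1, ← ENNReal.ofReal_mul (by positivity)]
    congr 1
    rw [mul_pow]
    ring
  rw [tsum_congr h2]
  have h3 : HasSum (fun n : ℕ => Real.exp (-l) * (((l : ℝ) * (1 - q)) ^ n / (n.factorial : ℝ)))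
      (Real.exp (-l) * Real.exp (l * (1 - q))) := by
    rw [Real.exp_eq_exp_ℝ]
    exact (NormedSpace.expSeries_div_hasSum_exp ((l : ℝ) * (1 - q))).mul_left _
  rw [← ENNReal.ofReal_tsum_of_nonneg (fun n => by positivity) h3.summable, h3.tsum_eq,
    ← Real.exp_add]
  congr 2
  ring

theorem lb_site [DecidableEq V] (hne : ∀ v, (G.neighborSet v).Nonempty) (x : V)
    (L : Finset (List V)) (M : ℕ) (hL : ∀ l ∈ L, l.length ≤ M) (l t : ℝ≥0) :
    siteLaw G l {s | ∀ i < s.1, traj t M x (s.2 i) ∉ L} =
      ENNReal.ofReal (Real.exp (-(l * ∑ l' ∈ L, rate G (tl' 1 t M) (x, l')))) := by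
  have hp := br_prob_particle hne
  have hA : MeasurableSet {p : Particle V | traj t M x p ∈ L} := by
    have e : {p : Particle V | traj t M x p ∈ L} = ⋃ l' ∈ L, {p | traj t M x p = l'} := by
      ext p
      simp
    rw [e]
    exact Finset.measurableSet_biUnion L fun l' _ => lb_measurableSet_traj _ M x l'
  have hq : particleLaw G {p | traj t M x p ∈ L} =
      ENNReal.ofReal (∑ l' ∈ L, rate G (tl' 1 t M) (x, l')) := by
    have e : {p : Particle V | traj t M x p ∈ L} = ⋃ l' ∈ L, {p | traj t M x p = l'} := by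
      ext p
      simp
    rw [e, measure_biUnion_finset, ENNReal.ofReal_sum_of_nonneg]
    · exact Finset.sum_congr rfl fun l' hl' => lb_particle hne x l' M (hL l' hl') t
    · exact fun l' _ => lb_rate_nonneg x l' M t
    · intro a _ b _ hab
      refine Set.disjoint_left.2 fun p hp1 hp2 => hab ?_
      rw [← (hp1 : traj t M x p = a), ← (hp2 : traj t M x p = b)]
    · exact fun l' _ => lb_measurableSet_traj _ M x l'
  set q := ∑ l' ∈ L, rate G (tl' 1 t M) (x, l') with hqd
  have hq0 : 0 ≤ q := Finset.sum_nonneg fun l' _ => lb_rate_nonneg x l' M t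
  have hq1 : q ≤ 1 := by
    have : ENNReal.ofReal q ≤ 1 := by
      rw [← hq]
      exact prob_le_one
    rwa [ENNReal.ofReal_le_one] at this
  have hc : particleLaw G {p | traj t M x p ∈ L}ᶜ = ENNReal.ofReal (1 - q) := by
    rw [prob_compl_eq_one_sub hA, hq, ENNReal.ofReal_sub _ hq0, ENNReal.ofReal_one]
  have hmeasE : MeasurableSet {s : ℕ × (ℕ → Particle V) | ∀ i < s.1, traj t M x (s.2 i) ∉ L} := by
    have e : {s : ℕ × (ℕ → Particle V) | ∀ i < s.1, traj t M x (s.2 i) ∉ L} =
        ⋂ i, ({s : ℕ × (ℕ → Particle V) | i < s.1} ∩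
          ((fun s : ℕ × (ℕ → Particle V) => s.2 i) ⁻¹' {p : Particle V | traj t M x p ∈ L}))ᶜ := by
      ext s
      simp only [mem_ofPred_eq, mem_iInter, mem_compl_iff, mem_inter_iff, mem_preimage, not_and]
    rw [e]
    refine MeasurableSet.iInter fun i => (MeasurableSet.inter ?_ ?_).compl
    · exact measurable_fst measurableSet_Ioi
    · have h2 : Measurable fun s : ℕ × (ℕ → Particle V) => s.2 i := by fun_prop
      exact h2 hA
  rw [siteLaw, Measure.prod_apply hmeasE, lintegral_countable']
  rw [← lb_poisson_sum l q hq1]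
  refine tsum_congr fun n => ?_
  rw [poissonMeasure_singleton, mul_comm]
  congr 1
  have e : Prod.mk n ⁻¹' {s : ℕ × (ℕ → Particle V) | ∀ i < s.1, traj t M x (s.2 i) ∉ L} =
      Set.pi ((Finset.range n : Finset ℕ) : Set ℕ)
        (fun _ => {p : Particle V | traj t M x p ∈ L}ᶜ) := by
    ext f
    simp only [mem_preimage, mem_ofPred_eq, Set.mem_pi, Finset.mem_coe, Finset.mem_range,
      mem_compl_iff]
  rw [e, Measure.infinitePi_pi _ fun _ _ => hA.compl, Finset.prod_const, Finset.card_range, hc]

end law2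

theorem void_prob {V : Type*} [Countable V] [Infinite V] [DecidableEq V] [MeasurableSpace V]
    [DiscreteMeasurableSpace V] (G : SimpleGraph V) [G.LocallyFinite] (hG : G.Connected)
    (l t : ℝ≥0) (B : Finset V) (M : ℕ) (S : Finset (V × List V)) (hS : S ⊆ idx G B M) :
    law G l {ω | Disjoint (pres t M (idx G B M) ω) S} =
      ENNReal.ofReal (Real.exp (-∑ γ ∈ S, rate G (tl' l t M) γ)) := by
  have hne : ∀ v, (G.neighborSet v).Nonempty := by
    intro v
    obtain ⟨w, hw⟩ := hG.preconnected.exists_adj_of_nontrivial v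
    exact ⟨w, hw⟩
  have hps := br_prob_site hne l
  have hlen : ∀ γ ∈ S, γ.2.length ≤ M := by
    rintro ⟨x, l'⟩ hγ
    exact (mem_idx G |>.1 (hS hγ)).2.2.1
  let L : V → Finset (List V) := fun x => (S.filter fun γ => γ.1 = x).image Prod.snd
  have hL : ∀ x l', l' ∈ L x ↔ (x, l') ∈ S := by
    intro x l'
    simp only [L, Finset.mem_image, Finset.mem_filter]
    constructor
    · rintro ⟨⟨y, l''⟩, ⟨h1, h2⟩, h3⟩
      simp only at h2 h3
      rw [← h2, ← h3]
      exact h1
    · intro h
      exact ⟨(x, l'), ⟨h, rfl⟩, rfl⟩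
  have e : {ω : Config V | Disjoint (pres t M (idx G B M) ω) S} =
      Set.pi ((S.image Prod.fst : Finset V) : Set V)
        (fun x => {s | ∀ i < s.1, traj t M x (s.2 i) ∉ L x}) := by
    ext ω
    simp only [mem_ofPred_eq, Set.mem_pi, Finset.mem_coe, Finset.disjoint_left]
    constructor
    · intro h x _ i hi hc
      rw [hL] at hc
      refine h (a := (x, traj t M x ((ω x).2 i))) ?_ hc
      rw [lb_mem_pres]
      exact ⟨hS hc, i, hi, rfl⟩
    · intro h γ hγ hγS
      rw [lb_mem_pres] at hγ
      obtain ⟨-, i, hi, hi'⟩ := hγ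
      refine h γ.1 (Finset.mem_image_of_mem _ hγS) i hi ?_
      rw [hL, hi']
      exact hγS
  have hmeas : ∀ x, MeasurableSet {s : ℕ × (ℕ → Particle V) |
      ∀ i < s.1, traj t M x (s.2 i) ∉ L x} := by
    intro x
    have e : {s : ℕ × (ℕ → Particle V) | ∀ i < s.1, traj t M x (s.2 i) ∉ L x} =
        ⋂ l' ∈ L x, (lbPres t M x l')ᶜ := by
      ext s
      simp only [mem_ofPred_eq, mem_iInter, mem_compl_iff, lbPres, not_exists, not_and]
      constructor
      · intro h l' hl' i hi hc
        exact h i hi (hc ▸ hl')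
      · intro h i hi hc
        exact h _ hc i hi rfl
    rw [e]
    exact Finset.measurableSet_biInter _ fun l' _ => (lb_measurableSet_pres' _ M x l').compl
  rw [e, law, Measure.infinitePi_pi _ fun x _ => hmeas x]
  have h1 : ∀ x, siteLaw G l {s | ∀ i < s.1, traj t M x (s.2 i) ∉ L x} =
      ENNReal.ofReal (Real.exp (-(l * ∑ l' ∈ L x, rate G (tl' 1 t M) (x, l')))) := by
    intro x
    refine lb_site hne x (L x) M (fun l' hl' => ?_) l t
    exact hlen _ ((hL x l').1 hl')
  simp_rw [h1]
  rw [← ENNReal.ofReal_prod_of_nonneg fun _ _ => (Real.exp_pos _).le, ← Real.exp_sum,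
    Finset.sum_neg_distrib]
  congr 3
  rw [← Finset.sum_fiberwise_of_maps_to (g := Prod.fst) (t := S.image Prod.fst)
    (fun γ hγ => Finset.mem_image_of_mem _ hγ)]
  refine Finset.sum_congr rfl fun x _ => ?_
  simp only [L]
  rw [Finset.sum_image, Finset.mul_sum]
  · refine Finset.sum_congr rfl fun γ hγ => ?_
    have h2 := (Finset.mem_filter.1 hγ).2
    obtain ⟨y, l'⟩ := γ
    simp only at h2
    subst h2
    simp only [rate, tl', one_mul]
    split_ifs <;> ring
  · rintro ⟨a, a'⟩ ha ⟨b, b'⟩ hb hab
    have h2 := (Finset.mem_filter.1 ha).2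
    have h3 := (Finset.mem_filter.1 hb).2
    simp only at h2 h3 hab
    rw [h2, h3, hab]

end Pool.Agent.Frog
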