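import Pool.Agent.Work.MP_c9ff92_pr.LinkDefs
import Pool.Agent.Work.MP_c9ff92_pr.Branch

/-!
# The event of leaving a finite set in terms of the present trajectories (MP_c9ff92_pr)
-/

open MeasureTheory ProbabilityTheory Set
open scoped ENNReal NNReal

noncomputable section

namespace Pool.Agent.Frog

/-- A regular particle: nonnegative waiting times, all targets are neighbours. -/
def Reg {V : Type*} (G : SimpleGraph V) (p : Particle V) : Prop :=
  (∀ j, 0 ≤ p.1 j) ∧ ∀ q : ℕ × V, G.Adj q.2 (p.2 q)

section ae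

variable {V : Type*} [Countable V] [MeasurableSpace V] [DiscreteMeasurableSpace V]
  {G : SimpleGraph V} [G.LocallyFinite]

theorem ae_reg_particle (hne : ∀ v, (G.neighborSet v).Nonempty) :
    ∀ᵐ p ∂(particleLaw G), Reg G p := by
  have := br_prob_exp
  have := br_prob_uniform hne
  have h1 : ∀ᵐ p ∂(particleLaw G), ∀ j, 0 ≤ p.1 j := by
    have := clock_ae_nonneg
    rw [ae_iff] at this ⊢
    have h2 := br_particle_clock hne {T : ℕ → ℝ | ¬ ∀ j, 0 ≤ T j}
    rw [this] at h2
    exact h2
  have h2 : ∀ᵐ p ∂(particleLaw G), ∀ q : ℕ × V, G.Adj q.2 (p.2 q) := by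
    rw [ae_all_iff]
    intro q
    have h3 := (measurePreserving_eval_infinitePi
      (fun q : ℕ × V => uniformOn (G.neighborSet q.2)) q).quasiMeasurePreserving
    have h4 : Measure.QuasiMeasurePreserving (Prod.snd : Particle V → _) (particleLaw G)
        (Measure.infinitePi fun q : ℕ × V => uniformOn (G.neighborSet q.2)) := by
      unfold particleLaw
      exact Measure.quasiMeasurePreserving_snd
    have h5 : ∀ᵐ y ∂(uniformOn (G.neighborSet q.2)), G.Adj q.2 y := by
      rw [ae_iff]
      have h6 := uniformOn_inter_self (Set.toFinite (G.neighborSet q.2)) (t := {y | ¬ G.Adj q.2 y})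
      rw [← h6]
      have h7 : G.neighborSet q.2 ∩ {y | ¬ G.Adj q.2 y} = ∅ := by
        ext y
        simp only [mem_inter_iff, SimpleGraph.mem_neighborSet, mem_ofPred_eq, mem_empty_iff_false,
          iff_false, not_and, not_not]
        exact fun h => h
      rw [h7, measure_empty]
    exact (h3.comp h4).ae h5
  filter_upwards [h1, h2] with p hp1 hp2
  exact ⟨hp1, hp2⟩

theorem ae_reg (hne : ∀ v, (G.neighborSet v).Nonempty) (l : ℝ≥0) :
    ∀ᵐ ω ∂(law G l), ∀ x i, Reg G ((ω x).2 i) := by
  have := br_prob_particle hne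
  have := br_prob_site hne l
  have h1 : ∀ᵐ s ∂(siteLaw G l), ∀ i, Reg G (s.2 i) := by
    rw [ae_all_iff]
    intro i
    have h2 : Measure.QuasiMeasurePreserving (fun s : ℕ × (ℕ → Particle V) => s.2 i)
        (siteLaw G l) (particleLaw G) := by
      have h3 := (measurePreserving_eval_infinitePi
        (fun _ : ℕ => particleLaw G) i).quasiMeasurePreserving
      have h4 : Measure.QuasiMeasurePreserving (Prod.snd : ℕ × (ℕ → Particle V) → _)
        (siteLaw G l) (Measure.infinitePi fun _ : ℕ => particleLaw G) := by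
        unfold siteLaw
        exact Measure.quasiMeasurePreserving_snd
      exact h3.comp h4
    exact h2.ae (ae_reg_particle hne)
  rw [ae_all_iff]
  intro x
  have h2 : Measure.QuasiMeasurePreserving (fun ω : Config V => ω x)
      (law G l) (siteLaw G l) :=
    (measurePreserving_eval_infinitePi (fun _ : V => siteLaw G l) x).quasiMeasurePreserving
  exact h2.ae h1

end ae

section det

variable {V : Type*} [DecidableEq V] {G : SimpleGraph V}

omit [DecidableEq V] in
theorem cur_posList (x : V) (p : Particle V) (k : ℕ) : cur (x, posList x p k) = pos x p k := by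
  cases k with
  | zero => rfl
  | succ k => rfl

omit [DecidableEq V] in
theorem length_posList (x : V) (p : Particle V) (k : ℕ) : (posList x p k).length = k := by
  induction k with
  | zero => rfl
  | succ k ih => rw [posList, List.length_cons, ih]

omit [DecidableEq V] in
theorem good_posList {x : V} {p : Particle V} (hp : Reg G p) (k : ℕ) :
    Good G x (posList x p k) := by
  induction k with
  | zero => trivial
  | succ k ih =>
    refine ⟨?_, ih⟩
    rw [cur_posList]
    exact hp.2 (k, pos x p k)

omit [DecidableEq V] in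
theorem mem_posList {x : V} {p : Particle V} {k : ℕ} {z : V} :
    z ∈ posList x p k ↔ ∃ j, 1 ≤ j ∧ j ≤ k ∧ pos x p j = z := by
  induction k with
  | zero =>
    simp only [posList, List.not_mem_nil, false_iff, not_exists, not_and]
    intro j h1 h2
    omega
  | succ k ih =>
    rw [posList, List.mem_cons, ih]
    constructor
    · rintro (rfl | ⟨j, h1, h2, h3⟩)
      · exact ⟨k + 1, by omega, le_rfl, rfl⟩
      · exact ⟨j, h1, by omega, h3⟩
    · rintro ⟨j, h1, h2, h3⟩
      rcases Nat.lt_or_ge k j with h4 | h4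
      · left
        have : j = k + 1 := by omega
        rw [← h3, this]
      · exact Or.inr ⟨j, h1, h4, h3⟩

omit [DecidableEq V] in
theorem jumpTime_mono {p : Particle V} (hp : ∀ j, 0 ≤ p.1 j) : Monotone (jumpTime p) := by
  intro a b hab
  exact Finset.sum_le_sum_of_subset_of_nonneg (Finset.range_mono hab) fun j _ _ => hp j

omit [DecidableEq V] in
theorem njumps_le (t : ℝ) (M : ℕ) (p : Particle V) : njumps t M p ≤ M := by
  classical
  exact Nat.findGreatest_le M

omit [DecidableEq V] in
theorem jumpTime_njumps {t : ℝ} (ht : 0 ≤ t) (M : ℕ) (p : Particle V) :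
    jumpTime p (njumps t M p) ≤ t := by
  classical
  have h0 : jumpTime p 0 ≤ t := by simpa [jumpTime] using ht
  exact Nat.findGreatest_spec (P := fun k => jumpTime p k ≤ t) (Nat.zero_le M) h0

omit [DecidableEq V] in
theorem le_njumps {t : ℝ} {M k : ℕ} {p : Particle V} (hk : k ≤ M) (h : jumpTime p k ≤ t) :
    k ≤ njumps t M p := by
  classical
  exact Nat.le_findGreatest hk h

omit [DecidableEq V] in
theorem mem_traj {t : ℝ} (ht : 0 ≤ t) {M : ℕ} {x : V} {p : Particle V} (hp : Reg G p) {z : V} :
    z ∈ traj t M x p ↔ ∃ k, 1 ≤ k ∧ k ≤ M ∧ jumpTime p k ≤ t ∧ pos x p k = z := by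
  rw [traj, mem_posList]
  constructor
  · rintro ⟨j, h1, h2, h3⟩
    exact ⟨j, h1, h2.trans (njumps_le t M p),
      (jumpTime_mono hp.1 h2).trans (jumpTime_njumps ht M p), h3⟩
  · rintro ⟨k, h1, h2, h3, h4⟩
    exact ⟨k, h1, le_njumps h2 h3, h4⟩

omit [DecidableEq V] in
theorem mem_pres {t : ℝ} {M : ℕ} {s : Finset (V × List V)} {ω : Config V} {γ : V × List V} :
    γ ∈ pres t M s ω ↔ γ ∈ s ∧ ∃ i < (ω γ.1).1, traj t M γ.1 ((ω γ.1).2 i) = γ.2 := by
  unfold pres
  simp only [Finset.mem_filter]

variable [G.LocallyFinite]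

theorem out_pres_iff {t : ℝ} (ht : 0 ≤ t) {M : ℕ} {B : Finset V} {o : V} {ω : Config V}
    (hω : ∀ x i, Reg G ((ω x).2 i)) :
    Out B o (pres t M (idx G B M) ω) ↔ ω ∈ outM B o t M := by
  have hrel : ∀ x z, rel (pres t M (idx G B M) ω) x z → z ∈ visM t M x (ω x) := by
    rintro x z ⟨l, hl, hz⟩
    rw [mem_pres] at hl
    obtain ⟨_, i, hi, htr⟩ := hl
    simp only at hi htr
    rw [← htr, mem_traj ht (hω x i)] at hz
    obtain ⟨k, _, h2, h3, h4⟩ := hz
    exact Or.inr ⟨i, hi, k, h2, h3, h4⟩
  have hvis : ∀ x z, x ∈ B → z ∈ visM t M x (ω x) →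
      z = x ∨ rel (pres t M (idx G B M) ω) x z := by
    rintro x z hx (hz | ⟨i, hi, k, hk, hkt, hz⟩)
    · exact Or.inl hz
    · rcases Nat.eq_zero_or_pos k with rfl | hk0
      · exact Or.inl hz.symm
      · right
        refine ⟨traj t M x ((ω x).2 i), ?_, (mem_traj ht (hω x i)).2 ⟨k, hk0, hk, hkt, hz⟩⟩
        rw [mem_pres]
        refine ⟨(mem_idx G).2 ⟨hx, ?_, ?_, good_posList (hω x i) _⟩, i, hi, rfl⟩
        · rw [traj, length_posList]
          exact Nat.one_le_iff_ne_zero.2 (Nat.pos_iff_ne_zero.1 hk0) |>.trans (le_njumps hk hkt)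
        · rw [traj, length_posList]
          exact njumps_le _ _ _
  constructor
  · rintro ⟨y, hy, hr⟩
    exact ⟨y, hy, Relation.ReflTransGen.mono hrel _ _ hr⟩
  · rintro ⟨y, hy, hr⟩
    have key : Out B o (pres t M (idx G B M) ω) ∨
        Relation.ReflTransGen (rel (pres t M (idx G B M) ω)) o y := by
      clear hy
      induction hr with
      | refl => exact Or.inr Relation.ReflTransGen.refl
      | @tail a b _ hst ih =>
        rcases ih with ih | ih
        · exact Or.inl ih
        · by_cases ha : a ∈ B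
          · rcases hvis a b ha hst with h | h
            · rw [h]; exact Or.inr ih
            · exact Or.inr (ih.tail h)
          · exact Or.inl ⟨a, ha, ih⟩
    rcases key with h | h
    · exact h
    · exact ⟨y, hy, h⟩

/-- The ball about `o` as a finite set. -/
def ballF (G : SimpleGraph V) [G.LocallyFinite] (o : V) : ℕ → Finset V
  | 0 => {o}
  | n + 1 => ballF G o n ∪ (ballF G o n).biUnion fun x => G.neighborFinset x

theorem mem_ballF (hG : G.Connected) (o : V) (n : ℕ) (x : V) :
    x ∈ ballF G o n ↔ G.dist o x ≤ n := by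
  induction n generalizing x with
  | zero =>
    rw [ballF, Finset.mem_singleton, Nat.le_zero]
    constructor
    · rintro rfl
      exact SimpleGraph.dist_self
    · intro h
      exact ((hG.dist_eq_zero_iff).1 h).symm
  | succ n ih =>
    rw [ballF, Finset.mem_union, Finset.mem_biUnion, ih]
    constructor
    · rintro (h | ⟨z, hz, hzx⟩)
      · omega
      · rw [SimpleGraph.mem_neighborFinset] at hzx
        rw [ih] at hz
        have h1 : G.dist o x ≤ G.dist o z + G.dist z x := hG.dist_triangle
        have h2 : G.dist z x = 1 := SimpleGraph.dist_eq_one_iff_adj.2 hzx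
        omega
    · intro h
      by_cases h' : G.dist o x ≤ n
      · exact Or.inl h'
      · right
        have hd : G.dist o x = n + 1 := by omega
        obtain ⟨w, hw⟩ := hG.exists_walk_length_eq_dist x o
        rw [SimpleGraph.dist_comm, hd] at hw
        cases w with
        | nil => simp at hw
        | @cons _ z _ hadj w' =>
          refine ⟨z, ?_, (SimpleGraph.mem_neighborFinset _ _ _).2 hadj.symm⟩
          rw [ih, SimpleGraph.dist_comm]
          have := SimpleGraph.dist_le w'
          simp only [SimpleGraph.Walk.length_cons] at hw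
          omega

end det

section main

variable {V : Type*} [Countable V] [DecidableEq V] [MeasurableSpace V]
  [DiscreteMeasurableSpace V] {G : SimpleGraph V} [G.LocallyFinite]

omit [MeasurableSpace V] [DiscreteMeasurableSpace V] [Countable V] in
theorem percolates_eq (hG : G.Connected) (o : V) (t : ℝ) :
    percolates G o t = ⋂ n : ℕ, ⋃ M : ℕ, outM (ballF G o n) o t (M + 2) := by
  ext ω
  simp only [percolates, mem_ofPred_eq, mem_iInter, mem_iUnion]
  refine forall_congr' fun n => ?_
  constructor
  · rintro ⟨y, hy, hr⟩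
    have hmono : ∀ {M M' : ℕ}, M ≤ M' → ∀ a b, b ∈ visM t M a (ω a) → b ∈ visM t M' a (ω a) := by
      rintro M M' h a b (hb | ⟨i, hi, k, hk, h2⟩)
      · exact Or.inl hb
      · exact Or.inr ⟨i, hi, k, hk.trans h, h2⟩
    have key : ∃ M, Relation.ReflTransGen (fun x z => z ∈ visM t M x (ω x)) o y := by
      clear hy
      induction hr with
      | refl => exact ⟨0, Relation.ReflTransGen.refl⟩
      | @tail a b _ hst ih =>
        obtain ⟨M, hM⟩ := ih
        rcases hst with hb | ⟨i, hi, k, hk, hpos⟩
        · exact ⟨M, hM.tail (Or.inl hb)⟩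
        · refine ⟨max M k, ?_⟩
          refine (Relation.ReflTransGen.mono (hmono (le_max_left M k)) _ _ hM).tail ?_
          exact Or.inr ⟨i, hi, k, le_max_right M k, hk, hpos⟩
    obtain ⟨M, hM⟩ := key
    refine ⟨M, y, ?_, Relation.ReflTransGen.mono (hmono (by omega)) _ _ hM⟩
    rw [mem_ballF hG]
    omega
  · rintro ⟨M, y, hy, hr⟩
    rw [mem_ballF hG] at hy
    refine ⟨y, by omega, Relation.ReflTransGen.mono ?_ _ _ hr⟩
    rintro a b (hb | ⟨i, hi, k, _, hkt, hz⟩)
    · exact Or.inl hb
    · exact Or.inr ⟨i, hi, k, hkt, hz⟩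

end main

end Pool.Agent.Frog
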