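import Pool.Agent.Work.MP_c9ff92_pr.LinkA
import Pool.Agent.Work.MP_c9ff92_pr.LinkB
import Pool.Agent.Work.MP_c9ff92_pr.LinkC
import Pool.Agent.Work.MP_c9ff92_pr.Compare2
import Pool.Agent.Work.MP_c9ff92_pr.Critical

/-!
# The comparison inequalities of the percolation probability (MP_c9ff92_pr)
-/

open MeasureTheory ProbabilityTheory Set
open scoped ENNReal NNReal

noncomputable section

namespace Pool.Agent.Frog

theorem tl'_anti {l t : ℝ} (hl : 0 ≤ l) (ht : 0 ≤ t) (M m : ℕ) :
    tl' l t M (m + 1) ≤ tl' l t M m := by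
  unfold tl'
  by_cases h : m + 1 ≤ M
  · rw [if_pos h, if_pos (by omega)]
    exact mul_le_mul_of_nonneg_left (tail_succ_le m ht) hl
  · rw [if_neg h]
    split_ifs
    · exact mul_nonneg hl (tail_nonneg m ht)
    · exact le_rfl

section

variable {V : Type*} [Countable V] [Infinite V] [DecidableEq V] [MeasurableSpace V]
  [DiscreteMeasurableSpace V] {G : SimpleGraph V} [G.LocallyFinite]

omit [Countable V] [DecidableEq V] [MeasurableSpace V] [DiscreteMeasurableSpace V]
  [G.LocallyFinite] in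
theorem neighborSet_nonempty (hG : G.Connected) (v : V) : (G.neighborSet v).Nonempty := by
  obtain ⟨w, hw⟩ := hG.preconnected.exists_adj_of_nontrivial v
  exact ⟨w, hw⟩

theorem outM_ae (hG : G.Connected) (o : V) (l t : ℝ≥0) (B : Finset V) (M : ℕ) :
    {ω : Config V | Out B o (pres t M (idx G B M) ω)} =ᵐ[law G l] outM B o t M := by
  filter_upwards [ae_reg (neighborSet_nonempty hG) l] with ω hω
  exact propext (out_pres_iff t.2 hω)

omit [Infinite V] in
theorem measurableSet_out_pres (o : V) (t : ℝ) (B : Finset V) (M : ℕ) :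
    MeasurableSet {ω : Config V | Out B o (pres t M (idx G B M) ω)} := by
  classical
  have h : {ω : Config V | Out B o (pres t M (idx G B M) ω)} =
      ⋃ A ∈ (idx G B M).powerset.filter (fun A => Out B o A),
        {ω : Config V | pres t M (idx G B M) ω = A} := by
    ext ω
    simp only [mem_ofPred_eq, mem_iUnion, Finset.mem_filter, Finset.mem_powerset, exists_prop]
    constructor
    · intro h
      refine ⟨_, ⟨?_, h⟩, rfl⟩
      intro γ hγ
      exact (mem_pres.1 hγ).1
    · rintro ⟨A, ⟨_, hA⟩, rfl⟩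
      exact hA
  rw [h]
  exact Finset.measurableSet_biUnion _ fun A _ => measurableSet_pres t M _ A

theorem nullMeasurable_outM (hG : G.Connected) (o : V) (l t : ℝ≥0) (B : Finset V) (M : ℕ) :
    NullMeasurableSet (outM B o t M) (law G l) :=
  (measurableSet_out_pres (G := G) o t B M).nullMeasurableSet.congr (outM_ae hG o l t B M)

theorem law_outM (hG : G.Connected) (o : V) (l t : ℝ≥0) (B : Finset V) (M : ℕ) :
    law G l (outM B o t M) =
      ENNReal.ofReal (1 - Q (rate G (tl' l t M)) (idx G B M) (Out B o)) := by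
  have := br_prob_site (neighborSet_nonempty hG) l
  have : IsProbabilityMeasure (law G l) := by
    unfold law
    infer_instance
  rw [← measure_congr (outM_ae hG o l t B M)]
  refine measure_eq_Q (law G l) (idx G B M) (fun ω => pres t M (idx G B M) ω)
    (fun ω γ hγ => (mem_pres.1 hγ).1) (fun A => measurableSet_pres t M _ A) _ ?_
    (fun S hS => void_prob G hG l t B M S hS) _
  intro γ _
  exact rate_nonneg G (tl'_anti l.2 t.2 M _)

/-- It suffices to compare the events of leaving finite sets. -/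
theorem theta_le (hG : G.Connected) (o : V) (l l' t t' : ℝ≥0)
    (h : ∀ (B : Finset V) (M : ℕ), 2 ≤ M →
      Q (rate G (tl' l' t' M)) (idx G B M) (Out B o) ≤
        Q (rate G (tl' l t M)) (idx G B M) (Out B o)) :
    theta G o l t ≤ theta G o l' t' := by
  have := br_prob_site (neighborSet_nonempty hG) l'
  have : IsProbabilityMeasure (law G l') := by
    unfold law
    infer_instance
  have hmono : ∀ (B : Finset V) (s : ℝ), Monotone fun M : ℕ => outM B o s (M + 2) := by
    rintro B s M M' hM ω ⟨y, hy, hr⟩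
    refine ⟨y, hy, Relation.ReflTransGen.mono ?_ _ _ hr⟩
    rintro a b (hb | ⟨i, hi, k, hk, h2⟩)
    · exact Or.inl hb
    · exact Or.inr ⟨i, hi, k, hk.trans (by simpa using hM), h2⟩
  have hn : ∀ n : ℕ, law G l (⋃ M : ℕ, outM (ballF G o n) o t (M + 2)) ≤
      law G l' (⋃ M : ℕ, outM (ballF G o n) o t' (M + 2)) := by
    intro n
    rw [(hmono _ _).measure_iUnion, (hmono _ _).measure_iUnion]
    refine iSup_mono fun M => ?_
    rw [law_outM hG, law_outM hG]
    apply ENNReal.ofReal_le_ofReal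
    linarith [h (ballF G o n) (M + 2) (by omega)]
  have hanti : Antitone fun n : ℕ => ⋃ M : ℕ, outM (ballF G o n) o t' (M + 2) := by
    apply antitone_nat_of_succ_le
    intro n
    refine iUnion_mono fun M => ?_
    rintro ω ⟨y, hy, hr⟩
    refine ⟨y, fun h => hy ?_, hr⟩
    rw [ballF, Finset.mem_union]
    exact Or.inl h
  have h1 : theta G o l' t' = ⨅ n : ℕ, law G l' (⋃ M : ℕ, outM (ballF G o n) o t' (M + 2)) := by
    rw [theta, percolates_eq hG]
    apply hanti.measure_iInter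
    · intro n
      exact NullMeasurableSet.iUnion fun M => nullMeasurable_outM hG o l' t' _ _
    · exact ⟨0, measure_ne_top _ _⟩
  rw [h1]
  refine le_iInf fun n => le_trans ?_ (hn n)
  rw [theta, percolates_eq hG]
  exact measure_mono (iInter_subset _ n)

omit [Infinite V] [Countable V] [DecidableEq V] [MeasurableSpace V]
  [DiscreteMeasurableSpace V] in
theorem degree_pos' [Infinite V] (hG : G.Connected) (v : V) : 0 < G.degree v := by
  obtain ⟨w, hw⟩ := neighborSet_nonempty hG v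
  exact (G.degree_pos_iff_exists_adj v).2 ⟨w, hw⟩

/-- Comparison (A). -/
theorem theta_A (hG : G.Connected) (o : V) (l l' t t' : ℝ≥0) (htt : t ≤ t')
    (h : (l : ℝ) * (1 - Real.exp (-t)) ≤ l' * (1 - Real.exp (-t'))) :
    theta G o l t ≤ theta G o l' t' := by
  apply theta_le hG
  intro B M _
  refine Q_rate_anti (degree_pos' hG) o (fun m _ => tl'_anti l.2 t.2 M m)
    (fun m _ => tl'_anti l'.2 t'.2 M m) (fun m hm => ?_) (fun m hm => ?_) (fun m hm => ?_)
  · unfold tl'
    by_cases h1 : m ≤ M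
    · rw [if_pos h1, if_pos h1]
      apply mul_tail_le l.2 t.2 (by exact_mod_cast htt) _ m hm
      rw [tail_one, tail_one]
      exact h
    · rw [if_neg h1, if_neg h1]
  · exact if_neg (by omega)
  · exact if_neg (by omega)

/-- The constant of comparison (B). -/
def KB (D : ℕ) (z : ℝ × ℝ) : ℝ :=
  1 + (D : ℝ) * (((D : ℝ) + 1) / (1 - Real.exp (-(z.1 * z.2 * Real.exp (-z.2) / D))) *
    Real.exp (z.2 * (((D : ℝ) + 1) / (1 - Real.exp (-(z.1 * z.2 * Real.exp (-z.2) / D))))))

omit [Infinite V] [Countable V] [DecidableEq V] [MeasurableSpace V]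
  [DiscreteMeasurableSpace V] [G.LocallyFinite] in
theorem continuousOn_KB {D : ℕ} (hD : 0 < D) : ContinuousOn (KB D) (Ioi 0 ×ˢ Ioi 0) := by
  have hp : ∀ z ∈ (Ioi 0 ×ˢ Ioi 0 : Set (ℝ × ℝ)),
      1 - Real.exp (-(z.1 * z.2 * Real.exp (-z.2) / D)) ≠ 0 := by
    rintro ⟨a, b⟩ ⟨ha, hb⟩
    have ha' : (0 : ℝ) < a := ha
    have hb' : (0 : ℝ) < b := hb
    have hD' : (0 : ℝ) < D := by exact_mod_cast hD
    have h1 : 0 < a * b * Real.exp (-b) / D := by positivity
    have : Real.exp (-(a * b * Real.exp (-b) / D)) < 1 := exp_lt_one' (by linarith)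
    simp only
    linarith
  unfold KB
  have hc : ContinuousOn (fun z : ℝ × ℝ => ((D : ℝ) + 1) /
      (1 - Real.exp (-(z.1 * z.2 * Real.exp (-z.2) / D)))) (Ioi 0 ×ˢ Ioi 0) := by
    apply ContinuousOn.div continuousOn_const _ hp
    fun_prop
  fun_prop

/-- The sum of the costs. -/
theorem sum_cost_le {x q : ℝ} (hx : 0 ≤ x) (hq : 0 ≤ q) (M : ℕ) :
    ∑ m ∈ Finset.Icc 2 M, x ^ (m - 1) / ((m - 1).factorial : ℝ) * q ^ m ≤
      q * Real.exp (x * q) := by
  have h1 : ∑ m ∈ Finset.Icc 2 M, x ^ (m - 1) / ((m - 1).factorial : ℝ) * q ^ m ≤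
      ∑ m ∈ Finset.range M, q * ((x * q) ^ m / (m.factorial : ℝ)) := by
    have h2 : ∀ m ∈ Finset.Icc 2 M, x ^ (m - 1) / ((m - 1).factorial : ℝ) * q ^ m =
        q * ((x * q) ^ (m - 1) / ((m - 1).factorial : ℝ)) := by
      intro m hm
      rw [Finset.mem_Icc] at hm
      obtain ⟨k, rfl⟩ := Nat.exists_eq_add_of_le' (show 1 ≤ m by omega)
      rw [Nat.add_sub_cancel, mul_pow, pow_succ]
      ring
    rw [Finset.sum_congr rfl h2]
    have h3 : ∑ m ∈ Finset.Icc 2 M, q * ((x * q) ^ (m - 1) / ((m - 1).factorial : ℝ)) =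
        ∑ m ∈ (Finset.Icc 2 M).image (fun m => m - 1), q * ((x * q) ^ m / (m.factorial : ℝ)) := by
      rw [Finset.sum_image]
      intro a ha b hb hab
      rw [Finset.mem_coe, Finset.mem_Icc] at ha hb
      simp only at hab
      omega
    rw [h3]
    apply Finset.sum_le_sum_of_subset_of_nonneg
    · intro m hm
      rw [Finset.mem_image] at hm
      obtain ⟨a, ha, rfl⟩ := hm
      rw [Finset.mem_Icc] at ha
      rw [Finset.mem_range]
      omega
    · intro m _ _
      positivity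
  refine h1.trans ?_
  rw [← Finset.mul_sum]
  apply mul_le_mul_of_nonneg_left _ hq
  exact Real.sum_le_exp_of_nonneg (by positivity) M

/-- Comparison (B). -/
theorem theta_B (hG : G.Connected) {D : ℕ} (hD : ∀ v, G.degree v ≤ D) (o : V)
    (l l' t t' : ℝ≥0) (hl : 0 < l) (hll : l ≤ l') (ht' : 0 < t') (htt : t' ≤ t)
    (h : (l : ℝ) * (t - t') * KB D (l, t) ≤ (l' - l) * (t' * Real.exp (-t'))) :
    theta G o l t ≤ theta G o l' t' := by
  apply theta_le hG
  intro B M hM
  have hl0 : (0 : ℝ) < l := by exact_mod_cast hl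
  have hll0 : (l : ℝ) ≤ l' := by exact_mod_cast hll
  have ht0 : (0 : ℝ) < t' := by exact_mod_cast ht'
  have htt0 : (t' : ℝ) ≤ t := by exact_mod_cast htt
  have ht1 : (0 : ℝ) < t := ht0.trans_le htt0
  have hD0 : 0 < D := (degree_pos' hG o).trans_le (hD o)
  have hD1 : (0 : ℝ) < D := by exact_mod_cast hD0
  set ρ : ℝ := (l : ℝ) * t * Real.exp (-t) / D with hρ
  have hρ0 : 0 < ρ := by positivity
  set p : ℝ := 1 - Real.exp (-ρ) with hp
  have hp0 : 0 < p := by
    have : Real.exp (-ρ) < 1 := exp_lt_one' (by linarith)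
    rw [hp]; linarith
  have hwgt1 : ∀ γ ∈ idx G B M, γ.2.length = 1 → wgt G γ.1 γ.2 = ((G.degree γ.1 : ℝ))⁻¹ := by
    rintro ⟨x, k⟩ hγ h1
    obtain ⟨_, _, _, hg⟩ := (mem_idx G).1 hγ
    simp only at h1
    obtain ⟨y, rfl⟩ := List.length_eq_one_iff.1 h1
    simp only [wgt, mul_one]
    rw [if_pos hg.1]
    rfl
  have hw : ∀ s : ℝ, tail 1 s - tail 2 s = s * Real.exp (-s) := by
    intro s
    rw [tail_sub_tail_succ]
    simp
    ring
  have hrate1 : ∀ (a s : ℝ) (γ : V × List V), γ.2.length = 1 →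
      rate G (tl' a s M) γ = a * (s * Real.exp (-s)) * wgt G γ.1 γ.2 := by
    intro a s γ h1
    unfold rate tl'
    rw [h1, if_pos (show 1 ≤ M by omega), if_pos (show 1 + 1 ≤ M by omega), ← hw]
    ring
  refine Q_tradeoff (degree_pos' hG) hD (by omega) o (fun m _ => tl'_anti l.2 t.2 M m)
    (fun m _ => tl'_anti l'.2 t'.2 M m) hρ0 ?_
    (fun m => (l : ℝ) * (t - t') * ((t : ℝ) ^ (m - 1) / ((m - 1).factorial : ℝ))) ?_ ?_ ?_
  · intro γ hγ h1
    rw [hrate1 _ _ γ h1, hwgt1 γ hγ h1, hρ]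
    have h2 : (0 : ℝ) < G.degree γ.1 := by exact_mod_cast degree_pos' hG γ.1
    have h3 : (G.degree γ.1 : ℝ) ≤ D := by exact_mod_cast hD γ.1
    rw [div_eq_mul_inv]
    have h4 : ((D : ℝ))⁻¹ ≤ ((G.degree γ.1 : ℝ))⁻¹ := inv_anti₀ h2 h3
    have h5 : 0 ≤ (l : ℝ) * (t * Real.exp (-t)) := by positivity
    calc (l : ℝ) * t * Real.exp (-t) * ((D : ℝ))⁻¹ = (l : ℝ) * (t * Real.exp (-t)) * ((D : ℝ))⁻¹ := by
          ring
      _ ≤ _ := mul_le_mul_of_nonneg_left h4 h5
  · intro m
    have : (0 : ℝ) ≤ t - t' := by linarith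
    positivity
  · intro γ hγ h2
    obtain ⟨x, k⟩ := γ
    obtain ⟨_, _, hkM, _⟩ := (mem_idx G).1 hγ
    simp only at h2
    obtain ⟨m, hm⟩ := Nat.exists_eq_add_of_le' (show 1 ≤ k.length by omega)
    unfold rate
    simp only [hm, Nat.add_sub_cancel]
    rw [← sub_mul]
    apply mul_le_mul_of_nonneg_right _ (wgt_nonneg G _ _)
    have hs := tail_sub_le m ht0.le htt0
    have hs2 : 0 ≤ tail (m + 1) t - tail (m + 1) t' := by
      have h3 := mul_sub_le_tail_sub m ht0.le htt0
      have h4 : 0 ≤ tail 1 t - tail 1 t' := by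
        rw [tail_one, tail_one]
        have : Real.exp (-t) ≤ Real.exp (-t') := Real.exp_le_exp.2 (by linarith)
        linarith
      have h5 : 0 ≤ (t' : ℝ) ^ m / (m.factorial : ℝ) := by positivity
      nlinarith
    have hs3 : 0 ≤ tail (m + 1 + 1) t - tail (m + 1 + 1) t' := by
      have h3 := mul_sub_le_tail_sub (m + 1) ht0.le htt0
      have h4 : 0 ≤ tail 1 t - tail 1 t' := by
        rw [tail_one, tail_one]
        have : Real.exp (-t) ≤ Real.exp (-t') := Real.exp_le_exp.2 (by linarith)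
        linarith
      have h5 : 0 ≤ (t' : ℝ) ^ (m + 1) / ((m + 1).factorial : ℝ) := by positivity
      nlinarith
    have hbound : (l : ℝ) * (tail (m + 1) t - tail (m + 1) t') ≤
        (l : ℝ) * (t - t') * ((t : ℝ) ^ m / (m.factorial : ℝ)) := by
      rw [mul_assoc]
      exact mul_le_mul_of_nonneg_left hs hl0.le
    have hn1 : 0 ≤ tail (m + 1) (t' : ℝ) := tail_nonneg _ ht0.le
    have hn2 : 0 ≤ tail (m + 1) (t' : ℝ) - tail (m + 1 + 1) t' := by
      linarith [tail_succ_le (m + 1) ht0.le]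
    unfold tl'
    rw [if_pos (show m + 1 ≤ M by omega)]
    by_cases hM' : m + 1 + 1 ≤ M
    · rw [if_pos hM', if_pos hM', if_pos (show m + 1 ≤ M by omega)]
      nlinarith
    · rw [if_neg hM', if_neg hM', if_pos (show m + 1 ≤ M by omega)]
      nlinarith
  · intro γ hγ h1
    rw [hrate1 _ _ γ h1, hrate1 _ _ γ h1, hwgt1 γ hγ h1]
    have h2 : (0 : ℝ) < G.degree γ.1 := by exact_mod_cast degree_pos' hG γ.1
    have h3 : (G.degree γ.1 : ℝ) ≤ D := by exact_mod_cast hD γ.1
    set q : ℝ := ((D : ℝ) + 1) / p with hq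
    have hq0 : 0 ≤ q := by positivity
    have hsum : ∑ m ∈ Finset.Icc 2 M, (l : ℝ) * (t - t') *
        ((t : ℝ) ^ (m - 1) / ((m - 1).factorial : ℝ)) / p ^ m * ((D : ℝ) + 1) ^ m ≤
        (l : ℝ) * (t - t') * (q * Real.exp (t * q)) := by
      have h4 : ∀ m ∈ Finset.Icc 2 M, (l : ℝ) * (t - t') *
          ((t : ℝ) ^ (m - 1) / ((m - 1).factorial : ℝ)) / p ^ m * ((D : ℝ) + 1) ^ m =
          (l : ℝ) * (t - t') * ((t : ℝ) ^ (m - 1) / ((m - 1).factorial : ℝ) * q ^ m) := by
        intro m _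
        rw [hq, div_pow]
        ring
      rw [Finset.sum_congr rfl h4, ← Finset.mul_sum]
      apply mul_le_mul_of_nonneg_left (sum_cost_le ht1.le hq0 M)
      have : (0 : ℝ) ≤ t - t' := by linarith
      positivity
    have hKB : KB D (l, t) = 1 + (D : ℝ) * (q * Real.exp (t * q)) := rfl
    rw [hKB] at h
    set E : ℝ := q * Real.exp (t * q) with hE
    have hE0 : 0 ≤ E := by positivity
    have hexp : (t : ℝ) * Real.exp (-t) - t' * Real.exp (-t') ≤ t - t' := by
      have h5 : Real.exp (-t) ≤ Real.exp (-t') := Real.exp_le_exp.2 (by linarith)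
      have h6 : Real.exp (-(t' : ℝ)) ≤ 1 := Real.exp_le_one_iff.2 (by linarith)
      nlinarith [Real.exp_pos (-(t' : ℝ)), Real.exp_pos (-(t : ℝ))]
    have hlow : (l : ℝ) * (t - t') * (D * E) ≤
        l' * (t' * Real.exp (-t')) - l * (t * Real.exp (-t)) := by
      nlinarith
    have h7 : (l : ℝ) * (t - t') * E ≤
        (l' * (t' * Real.exp (-t')) - l * (t * Real.exp (-t))) * ((G.degree γ.1 : ℝ))⁻¹ := by
      rw [← div_eq_mul_inv, le_div_iff₀ h2]
      have h8 : (l : ℝ) * (t - t') * E * (G.degree γ.1 : ℝ) ≤ (l : ℝ) * (t - t') * E * D := by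
        apply mul_le_mul_of_nonneg_left h3
        have : (0 : ℝ) ≤ t - t' := by linarith
        positivity
      nlinarith
    have h9 := hsum.trans h7
    rw [sub_mul] at h9
    linarith

end

end Pool.Agent.Frog
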