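import Mathlib

/-!
# Independent presence of finitely many objects (MP_c9ff92_pr)

`Q r s U` is the probability that the random set of present objects of `s` is not in `U`, if the
object `i` is present with probability `1 - exp (-r i)`.
-/

open Finset

noncomputable section

namespace Pool.Agent.Frog

variable {T : Type*} [DecidableEq T]

open Classical in
/-- The probability that the random set of present objects does not satisfy `U`. -/
def Q (r : T → ℝ) (s : Finset T) (U : Finset T → Prop) : ℝ :=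
  ∑ A ∈ s.powerset, if U A then 0 else (∏ i ∈ A, (1 - Real.exp (-r i))) *
    ∏ i ∈ s \ A, Real.exp (-r i)

/-- `U` is increasing. -/
def Up (U : Finset T → Prop) : Prop := ∀ A B, A ⊆ B → U A → U B

theorem Up.insert {U : Finset T → Prop} (h : Up U) (a : T) :
    Up fun A => U (insert a A) :=
  fun _ _ hAB => h _ _ (insert_subset_insert a hAB)

theorem Q_empty (r : T → ℝ) (U : Finset T → Prop) :
    Q r ∅ U = (open Classical in if U ∅ then 0 else 1) := by
  simp [Q]

theorem Q_insert (r : T → ℝ) {s : Finset T} {a : T} (ha : a ∉ s) (U : Finset T → Prop) :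
    Q r (insert a s) U = Real.exp (-r a) * Q r s U +
      (1 - Real.exp (-r a)) * Q r s (fun A => U (insert a A)) := by
  classical
  unfold Q
  rw [sum_powerset_insert ha, mul_sum, mul_sum]
  congr 1
  · refine sum_congr rfl fun A hA => ?_
    rw [mem_powerset] at hA
    have haA : a ∉ A := fun h => ha (hA h)
    have h1 : insert a s \ A = insert a (s \ A) := by
      rw [insert_sdiff_of_notMem _ haA]
    rw [h1, prod_insert (fun h => ha (mem_sdiff.1 h).1)]
    split_ifs <;> ring
  · refine sum_congr rfl fun A hA => ?_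
    rw [mem_powerset] at hA
    have haA : a ∉ A := fun h => ha (hA h)
    have h1 : insert a s \ insert a A = s \ A := by
      ext x
      simp only [mem_sdiff, mem_insert]
      constructor
      · rintro ⟨h1 | h1, h2⟩
        · exact absurd (Or.inl h1) h2
        · exact ⟨h1, fun h => h2 (Or.inr h)⟩
      · rintro ⟨h1, h2⟩
        refine ⟨Or.inr h1, ?_⟩
        rintro (h | h)
        · exact ha (h ▸ h1)
        · exact h2 h
    rw [h1, prod_insert haA]
    split_ifs <;> ring

theorem one_sub_exp_nonneg {x : ℝ} (hx : 0 ≤ x) : 0 ≤ 1 - Real.exp (-x) := by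
  have : Real.exp (-x) ≤ 1 := Real.exp_le_one_iff.2 (by linarith)
  linarith

theorem Q_nonneg {r : T → ℝ} {s : Finset T} (hr : ∀ i ∈ s, 0 ≤ r i) (U : Finset T → Prop) :
    0 ≤ Q r s U := by
  classical
  unfold Q
  refine sum_nonneg fun A hA => ?_
  rw [mem_powerset] at hA
  split_ifs
  · exact le_rfl
  · exact mul_nonneg (prod_nonneg fun i hi => one_sub_exp_nonneg (hr i (hA hi)))
      (prod_nonneg fun i _ => (Real.exp_pos _).le)

/-- `Q` is antitone in the family. -/
theorem Q_anti_U {r : T → ℝ} {s : Finset T} (hr : ∀ i ∈ s, 0 ≤ r i) {U U' : Finset T → Prop}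
    (h : ∀ A ⊆ s, U A → U' A) : Q r s U' ≤ Q r s U := by
  classical
  unfold Q
  refine sum_le_sum fun A hA => ?_
  rw [mem_powerset] at hA
  by_cases h1 : U A
  · rw [if_pos h1, if_pos (h A hA h1)]
  · rw [if_neg h1]
    have h2 : 0 ≤ (∏ i ∈ A, (1 - Real.exp (-r i))) * ∏ i ∈ s \ A, Real.exp (-r i) :=
      mul_nonneg (prod_nonneg fun i hi => one_sub_exp_nonneg (hr i (hA hi)))
        (prod_nonneg fun i _ => (Real.exp_pos _).le)
    split_ifs
    · exact h2
    · exact le_rfl

theorem Q_false (r : T → ℝ) (s : Finset T) {U : Finset T → Prop} (hU : ∀ A ⊆ s, ¬ U A) :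
    Q r s U = 1 := by
  classical
  unfold Q
  have h1 : ∀ A ∈ s.powerset, (if U A then 0 else (∏ i ∈ A, (1 - Real.exp (-r i))) *
      ∏ i ∈ s \ A, Real.exp (-r i)) = (∏ i ∈ A, (1 - Real.exp (-r i))) *
      ∏ i ∈ s \ A, Real.exp (-r i) := by
    intro A hA
    rw [if_neg (hU A (mem_powerset.1 hA))]
  rw [sum_congr rfl h1, ← prod_add]
  simp

theorem Q_true {r : T → ℝ} {s : Finset T} {U : Finset T → Prop} (hU : ∀ A ⊆ s, U A) :
    Q r s U = 0 := by
  classical
  unfold Q
  exact sum_eq_zero fun A hA => if_pos (hU A (mem_powerset.1 hA))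

theorem Q_le_one {r : T → ℝ} {s : Finset T} (hr : ∀ i ∈ s, 0 ≤ r i) (U : Finset T → Prop) :
    Q r s U ≤ 1 := by
  rw [← Q_false r s (U := fun _ => False) (fun _ _ h => h)]
  exact Q_anti_U hr fun _ _ h => h.elim

/-- `Q` is antitone in the rates for increasing families. -/
theorem Q_anti_r {r r' : T → ℝ} {s : Finset T} (hr : ∀ i ∈ s, 0 ≤ r i)
    (hrr : ∀ i ∈ s, r i ≤ r' i) {U : Finset T → Prop} (hU : Up U) : Q r' s U ≤ Q r s U := by
  induction s using Finset.induction_on generalizing U with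
  | empty => rw [Q_empty, Q_empty]
  | insert a s ha ih =>
    have hr' : ∀ i ∈ s, 0 ≤ r i := fun i hi => hr i (mem_insert_of_mem hi)
    have hrr' : ∀ i ∈ s, r i ≤ r' i := fun i hi => hrr i (mem_insert_of_mem hi)
    rw [Q_insert r ha, Q_insert r' ha]
    have h0 := ih hr' hrr' hU
    have h1 := ih hr' hrr' (hU.insert a)
    have h2 : Q r' s (fun A => U (insert a A)) ≤ Q r' s U :=
      Q_anti_U (fun i hi => (hr' i hi).trans (hrr' i hi))
        fun A _ h => hU _ _ (subset_insert a A) h
    have h3 : Real.exp (-r' a) ≤ Real.exp (-r a) :=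
      Real.exp_le_exp.2 (by linarith [hrr a (mem_insert_self a s)])
    have h4 : 0 ≤ 1 - Real.exp (-r a) := one_sub_exp_nonneg (hr a (mem_insert_self a s))
    have h5 : 0 < Real.exp (-r' a) := Real.exp_pos _
    nlinarith [mul_nonneg h4 (sub_nonneg.2 h1), mul_nonneg (Real.exp_pos (-r a)).le (sub_nonneg.2 h0),
      mul_nonneg (sub_nonneg.2 h3) (sub_nonneg.2 h2)]

/-- The rates outside `s` do not matter. -/
theorem Q_congr {r r' : T → ℝ} {s : Finset T} (h : ∀ i ∈ s, r i = r' i) (U : Finset T → Prop) :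
    Q r s U = Q r' s U := by
  classical
  unfold Q
  refine sum_congr rfl fun A hA => ?_
  rw [mem_powerset] at hA
  have h1 : ∏ i ∈ A, (1 - Real.exp (-r i)) = ∏ i ∈ A, (1 - Real.exp (-r' i)) :=
    prod_congr rfl fun i hi => by rw [h i (hA hi)]
  have h2 : ∏ i ∈ s \ A, Real.exp (-r i) = ∏ i ∈ s \ A, Real.exp (-r' i) :=
    prod_congr rfl fun i hi => by rw [h i (mem_sdiff.1 hi).1]
  rw [h1, h2]

/-- The numerical inequality of the induction step of the sprinkling lemma. -/
theorem sprinkle_num {x p e k κ : ℝ} (hx0 : 0 ≤ x) (hxp : x ≤ 1 - p) (hp0 : 0 ≤ p)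
    (hκ : κ = Real.exp (-k)) (hk : 0 ≤ k) (he : e ≤ κ) (he0 : 0 ≤ e) :
    κ + x * e * (1 - κ) ≤ Real.exp (-(k * p)) := by
  have hκ0 : 0 < κ := hκ ▸ Real.exp_pos _
  have hκ1 : κ ≤ 1 := by rw [hκ]; exact Real.exp_le_one_iff.2 (by linarith)
  have h1 : x * e * (1 - κ) ≤ (1 - p) * κ * (1 - κ) := by
    have : x * e ≤ (1 - p) * κ := mul_le_mul hxp he he0 (hx0.trans hxp)
    exact mul_le_mul_of_nonneg_right this (by linarith)
  have h2 : 1 - κ ≤ k := by
    rw [hκ]
    linarith [Real.add_one_le_exp (-k)]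
  have h3 : 1 + k * (1 - p) ≤ Real.exp (k * (1 - p)) := by
    linarith [Real.add_one_le_exp (k * (1 - p))]
  have h4 : Real.exp (-(k * p)) = κ * Real.exp (k * (1 - p)) := by
    rw [hκ, ← Real.exp_add]
    congr 1
    ring
  have hp1 : 0 ≤ 1 - p := hx0.trans hxp
  rw [h4]
  have h5 : κ * (1 + (1 - p) * (1 - κ)) ≤ κ * Real.exp (k * (1 - p)) := by
    apply mul_le_mul_of_nonneg_left _ hκ0.le
    nlinarith
  nlinarith

/-- The sprinkling lemma: raising all rates of `S` by `ε` multiplies the probability to miss an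
increasing family containing `S` by at most `exp (-ε p ^ (|S| - 1))`. -/
theorem Q_sprinkle {r r' : T → ℝ} {ρ ε : ℝ} (hρ : 0 ≤ ρ) (hε : 0 ≤ ε) {S : Finset T}
    (hS : S.Nonempty) (hr : ∀ i ∈ S, ρ ≤ r i) (hrr : ∀ i ∈ S, r' i = r i + ε)
    {U : Finset T → Prop} (hU : Up U) (hUS : U S) :
    Q r' S U ≤ Real.exp (-(ε * (1 - Real.exp (-ρ)) ^ (S.card - 1))) * Q r S U := by
  set p : ℝ := 1 - Real.exp (-ρ) with hp
  have hp0 : 0 ≤ p := one_sub_exp_nonneg hρ
  have hp1 : p ≤ 1 := by rw [hp]; linarith [Real.exp_pos (-ρ)]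
  induction hS using Finset.Nonempty.cons_induction generalizing U with
  | singleton a =>
    have e1 : ({a} : Finset T) = insert a ∅ := rfl
    have hUa : U (insert a ∅) := hUS
    rw [e1, Q_insert _ (notMem_empty a), Q_insert _ (notMem_empty a)]
    have h0 : ∀ r'' : T → ℝ, Q r'' ∅ (fun A => U (insert a A)) = 0 := by
      intro r''
      rw [Q_empty, if_pos hUa]
    rw [h0, h0, mul_zero, mul_zero, add_zero, add_zero, Q_empty, Q_empty,
      hrr a (mem_singleton_self a)]
    have h1 : Real.exp (-(r a + ε)) = Real.exp (-(ε * p ^ ((insert a (∅ : Finset T)).card - 1))) *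
        Real.exp (-r a) := by
      rw [← Real.exp_add]
      congr 1
      simp
    rw [h1]
    split_ifs <;> simp
  | cons a S ha hS ih =>
    rw [cons_eq_insert] at *
    have hr2 : ∀ i ∈ S, ρ ≤ r i := fun i hi => hr i (mem_insert_of_mem hi)
    have hrr2 : ∀ i ∈ S, r' i = r i + ε := fun i hi => hrr i (mem_insert_of_mem hi)
    have hr0 : ∀ i ∈ S, 0 ≤ r i := fun i hi => hρ.trans (hr2 i hi)
    have hr0' : ∀ i ∈ S, 0 ≤ r' i := fun i hi => by rw [hrr2 i hi]; linarith [hr0 i hi]
    rw [Q_insert _ ha, Q_insert _ ha]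
    have hcard : (insert a S).card - 1 = (S.card - 1) + 1 := by
      rw [card_insert_of_notMem ha]
      have := hS.card_pos
      omega
    rw [hcard]
    set k : ℝ := ε * p ^ (S.card - 1) with hk
    have hk0 : 0 ≤ k := by positivity
    have hkε : k ≤ ε := by
      calc k ≤ ε * 1 := mul_le_mul_of_nonneg_left (pow_le_one₀ hp0 hp1) hε
        _ = ε := mul_one ε
    have h1 := ih hr2 hrr2 (U := fun A => U (insert a A)) (hU.insert a) hUS
    have h0 : Q r' S U ≤ Q r S U :=
      Q_anti_r hr0 (fun i hi => by rw [hrr2 i hi]; linarith) hU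
    have h01 : Q r S (fun A => U (insert a A)) ≤ Q r S U :=
      Q_anti_U hr0 fun A _ h => hU _ _ (subset_insert a A) h
    have h00 : 0 ≤ Q r S (fun A => U (insert a A)) := Q_nonneg hr0 _
    set x : ℝ := Real.exp (-r a) with hx
    set e : ℝ := Real.exp (-ε) with he
    set κ : ℝ := Real.exp (-k) with hκ
    have hxe : Real.exp (-r' a) = x * e := by
      rw [hrr a (mem_insert_self a S), hx, he, ← Real.exp_add]
      congr 1
      ring
    rw [hxe]
    have hx0 : 0 < x := Real.exp_pos _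
    have he0 : 0 < e := Real.exp_pos _
    have he1 : e ≤ 1 := Real.exp_le_one_iff.2 (by linarith)
    have hxp : x ≤ 1 - p := by
      rw [hp, hx, sub_sub_cancel]
      exact Real.exp_le_exp.2 (by linarith [hr a (mem_insert_self a S)])
    have hx1 : x ≤ 1 := by linarith
    have heκ : e ≤ κ := Real.exp_le_exp.2 (by linarith)
    have hnum := sprinkle_num hx0.le hxp hp0 hκ hk0 heκ he0.le
    have hτ : Real.exp (-(ε * p ^ (S.card - 1 + 1))) = Real.exp (-(k * p)) := by
      rw [hk, pow_succ]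
      congr 1
      ring
    rw [hτ]
    set τ : ℝ := Real.exp (-(k * p)) with hτ'
    have hτe : e ≤ τ := Real.exp_le_exp.2 (by nlinarith)
    set A0 : ℝ := Q r S U
    set B0 : ℝ := Q r S (fun A => U (insert a A))
    have h2 : x * e * Q r' S U ≤ x * e * A0 :=
      mul_le_mul_of_nonneg_left h0 (mul_nonneg hx0.le he0.le)
    have h3 : (1 - x * e) * Q r' S (fun A => U (insert a A)) ≤ (1 - x * e) * (κ * B0) := by
      apply mul_le_mul_of_nonneg_left h1
      nlinarith
    have h4 : x * e * A0 + (1 - x * e) * (κ * B0) ≤ τ * (x * A0 + (1 - x) * B0) := by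
      have h5 : 0 ≤ x * (τ - e) * (A0 - B0) :=
        mul_nonneg (mul_nonneg hx0.le (by linarith)) (by linarith)
      have h6 : 0 ≤ (τ - κ - x * e * (1 - κ)) * B0 := mul_nonneg (by linarith) h00
      nlinarith
    linarith

/-- The replacement lemma: the object `k` may be removed at rate `s` if all objects of `S`
together do the same and their rates are raised by `ε`. -/
theorem Q_replace {r r' : T → ℝ} {ρ ε δ : ℝ} (hρ : 0 ≤ ρ) (hε : 0 ≤ ε) (hδ : 0 ≤ δ)
    {R S : Finset T} {k : T}
    (hS : S.Nonempty) (hk : k ∉ S) (hkR : k ∉ R) (hSR : Disjoint S R)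
    (hr : ∀ i ∈ S, ρ ≤ r i) (hrr : ∀ i ∈ S, r' i = r i + ε)
    (hR : ∀ i ∈ R, 0 ≤ r i) (hR' : ∀ i ∈ R, r' i = r i)
    (hk1 : r' k = r k - δ) (hk2 : 0 ≤ r' k)
    (hcost : δ ≤ ε * (1 - Real.exp (-ρ)) ^ (S.card - 1))
    {U : Finset T → Prop} (hU : Up U) (hUk : ∀ A, U (insert k A) → U (A ∪ S)) :
    Q r' (R ∪ insert k S) U ≤ Q r (R ∪ insert k S) U := by
  induction R using Finset.induction_on generalizing U with
  | empty =>
    rw [empty_union, Q_insert _ hk, Q_insert _ hk]
    have hr0 : ∀ i ∈ S, 0 ≤ r i := fun i hi => hρ.trans (hr i hi)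
    have hr0' : ∀ i ∈ S, 0 ≤ r' i := fun i hi => by rw [hrr i hi]; linarith [hr0 i hi]
    by_cases hUS : U (insert k S)
    · have hUS' : U S := by
        have := hUk S hUS
        rwa [union_idempotent] at this
      have h0 := Q_sprinkle hρ hε hS hr hrr hU hUS'
      have h1 : Q r' S (fun A => U (insert k A)) ≤ Q r S (fun A => U (insert k A)) :=
        Q_anti_r hr0 (fun i hi => by rw [hrr i hi]; linarith) (hU.insert k)
      have h2 : Real.exp (-(ε * (1 - Real.exp (-ρ)) ^ (S.card - 1))) ≤ Real.exp (-δ) :=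
        Real.exp_le_exp.2 (by linarith)
      have h3 : 0 ≤ Q r S U := Q_nonneg hr0 _
      have h4 : Real.exp (-r' k) * Q r' S U ≤ Real.exp (-r k) * Q r S U := by
        calc Real.exp (-r' k) * Q r' S U
            ≤ Real.exp (-r' k) * (Real.exp (-δ) * Q r S U) := by
              apply mul_le_mul_of_nonneg_left _ (Real.exp_pos _).le
              exact h0.trans (mul_le_mul_of_nonneg_right h2 h3)
          _ = Real.exp (-r k) * Q r S U := by
              rw [← mul_assoc, ← Real.exp_add, hk1]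
              congr 2
              ring
      have h5 : (1 - Real.exp (-r' k)) * Q r' S (fun A => U (insert k A)) ≤
          (1 - Real.exp (-r k)) * Q r S (fun A => U (insert k A)) := by
        have h6 : 0 ≤ 1 - Real.exp (-r' k) := one_sub_exp_nonneg hk2
        have h7 : 1 - Real.exp (-r' k) ≤ 1 - Real.exp (-r k) := by
          have : Real.exp (-r k) ≤ Real.exp (-r' k) := Real.exp_le_exp.2 (by linarith)
          linarith
        exact mul_le_mul h7 h1 (Q_nonneg hr0' _) (h6.trans h7)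
      linarith
    · have hno : ∀ A ⊆ S, ¬ U (insert k A) := fun A hA h =>
        hUS (hU _ _ (insert_subset_insert k hA) h)
      have hno' : ∀ A ⊆ S, ¬ U A := fun A hA h =>
        hUS (hU _ _ (hA.trans (subset_insert k S)) h)
      rw [Q_false _ _ hno, Q_false _ _ hno, Q_false _ _ hno', Q_false _ _ hno']
      linarith
  | insert a R ha ih =>
    have hkR' : k ∉ R := fun h => hkR (mem_insert_of_mem h)
    have hSR' : Disjoint S R := hSR.mono_right (subset_insert a R)
    have haS : a ∉ S := fun h => (disjoint_left.1 hSR) h (mem_insert_self a R)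
    have hak : a ≠ k := fun h => hkR (h ▸ mem_insert_self a R)
    have hnot : a ∉ R ∪ insert k S := by
      simp only [mem_union, mem_insert, not_or]
      exact ⟨ha, hak, haS⟩
    have e1 : insert a R ∪ insert k S = insert a (R ∪ insert k S) := by
      rw [insert_union]
    rw [e1, Q_insert _ hnot, Q_insert _ hnot, hR' a (mem_insert_self a R)]
    have hR1 : ∀ i ∈ R, 0 ≤ r i := fun i hi => hR i (mem_insert_of_mem hi)
    have hR1' : ∀ i ∈ R, r' i = r i := fun i hi => hR' i (mem_insert_of_mem hi)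
    have h0 := ih hkR' hSR' hR1 hR1' hU hUk
    have h1 := ih hkR' hSR' hR1 hR1' (hU.insert a) (fun A h => by
      have := hUk (insert a A) (by rwa [Finset.insert_comm])
      rwa [insert_union] at this)
    have h2 : 0 ≤ 1 - Real.exp (-r a) := one_sub_exp_nonneg (hR a (mem_insert_self a R))
    have h3 : 0 < Real.exp (-r a) := Real.exp_pos _
    nlinarith [mul_le_mul_of_nonneg_left h0 h3.le, mul_le_mul_of_nonneg_left h1 h2]

/-- The replacement lemma on an arbitrary finite set of objects. -/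
theorem Q_replace' {r r' : T → ℝ} {ρ ε δ : ℝ} (hρ : 0 ≤ ρ) (hε : 0 ≤ ε) (hδ : 0 ≤ δ)
    {s S : Finset T} {k : T} (hS : S.Nonempty) (hk : k ∉ S) (hks : k ∈ s) (hSs : S ⊆ s)
    (hr : ∀ i ∈ S, ρ ≤ r i) (hrr : ∀ i ∈ S, r' i = r i + ε)
    (hR : ∀ i ∈ s, 0 ≤ r i) (hR' : ∀ i ∈ s, i ∉ S → i ≠ k → r' i = r i)
    (hk1 : r' k = r k - δ) (hk2 : 0 ≤ r' k)
    (hcost : δ ≤ ε * (1 - Real.exp (-ρ)) ^ (S.card - 1))
    {U : Finset T → Prop} (hU : Up U) (hUk : ∀ A, U (insert k A) → U (A ∪ S)) :
    Q r' s U ≤ Q r s U := by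
  have e : s = (s \ insert k S) ∪ insert k S := by
    rw [sdiff_union_of_subset]
    exact insert_subset hks hSs
  rw [e]
  refine Q_replace hρ hε hδ hS hk (fun h => (mem_sdiff.1 h).2 (mem_insert_self k S)) ?_ hr hrr
    (fun i hi => hR i (mem_sdiff.1 hi).1) (fun i hi => ?_) hk1 hk2 hcost hU hUk
  · rw [disjoint_left]
    intro i hi hi'
    exact (mem_sdiff.1 hi').2 (mem_insert_of_mem hi)
  · have h := mem_sdiff.1 hi
    exact hR' i h.1 (fun h' => h.2 (mem_insert_of_mem h')) (fun h' => h.2 (h' ▸ mem_insert_self k S))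

end Pool.Agent.Frog
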