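import Pool.Agent.Work.MP_c9ff92_pr.Tail

/-!
# Sums of independent exponential waiting times (MP_c9ff92_pr)
-/

open MeasureTheory ProbabilityTheory Set
open scoped ENNReal NNReal

noncomputable section

namespace Pool.Agent.Frog

theorem isProb_exp : IsProbabilityMeasure (expMeasure 1) :=
  isProbabilityMeasure_expMeasure one_pos

theorem clock_ae_nonneg :
    ∀ᵐ T ∂(Measure.infinitePi fun _ : ℕ => expMeasure 1), ∀ j, 0 ≤ T j := by
  have := isProb_exp
  rw [ae_all_iff]
  intro j
  have hmp := measurePreserving_eval_infinitePi (fun _ : ℕ => expMeasure 1) j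
  have h : ∀ᵐ x ∂(expMeasure 1), 0 ≤ x := by
    rw [ae_iff]
    have e : {a : ℝ | ¬ 0 ≤ a} = Iio 0 := by
      ext a
      simp
    rw [e, expMeasure, gammaMeasure, withDensity_apply _ measurableSet_Iio]
    exact lintegral_gammaPDF_of_nonpos le_rfl
  exact hmp.quasiMeasurePreserving.ae h

theorem integral_exp_mul_tail (k : ℕ) (t : ℝ) :
    ∫ s in (0 : ℝ)..t, Real.exp (-s) * tail k (t - s) = tail (k + 1) t := by
  have hd : ∀ s : ℝ, HasDerivAt (fun s => -Real.exp (-s) +
      Real.exp (-t) * ∑ i ∈ Finset.range k, (t - s) ^ (i + 1) / ((i + 1).factorial : ℝ))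
      (Real.exp (-s) * tail k (t - s)) s := by
    intro s
    have h1 : HasDerivAt (fun s => -Real.exp (-s)) (Real.exp (-s)) s := by
      have := ((hasDerivAt_neg s).exp).fun_neg
      simpa using this
    have h2 : ∀ i ∈ Finset.range k,
        HasDerivAt (fun s : ℝ => (t - s) ^ (i + 1) / ((i + 1).factorial : ℝ))
        (-((t - s) ^ i / (i.factorial : ℝ))) s := by
      intro i _
      have h3 := (((hasDerivAt_id s).const_sub t).pow (i + 1)).div_const ((i + 1).factorial : ℝ)
      refine h3.congr_deriv ?_
      rw [Nat.factorial_succ]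
      push_cast
      have : (i.factorial : ℝ) ≠ 0 := by positivity
      have : (i : ℝ) + 1 ≠ 0 := by positivity
      field_simp
      simp
    have h4 := HasDerivAt.fun_sum h2
    refine (h1.add (h4.const_mul (Real.exp (-t)))).congr_deriv ?_
    rw [tail, Finset.sum_neg_distrib, show -(t - s) = -t + s by ring, Real.exp_add,
      Real.exp_neg s]
    have := Real.exp_pos s
    field_simp
    ring
  have hc : Continuous fun s => Real.exp (-s) * tail k (t - s) := by
    unfold tail
    fun_prop
  rw [intervalIntegral.integral_eq_sub_of_hasDerivAt (fun s _ => hd s)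
    (hc.intervalIntegrable _ _), tail, Finset.sum_range_succ']
  simp
  ring

theorem clock_law (k : ℕ) {t : ℝ} (ht : 0 ≤ t) :
    (Measure.infinitePi fun _ : ℕ => expMeasure 1) {T | ∑ j ∈ Finset.range k, T j ≤ t} =
      ENNReal.ofReal (tail k t) := by
  have := isProb_exp
  induction k generalizing t with
  | zero =>
    have e : {T : ℕ → ℝ | ∑ j ∈ Finset.range 0, T j ≤ t} = univ := by
      ext T
      simp [ht]
    rw [e, measure_univ, tail_zero, ENNReal.ofReal_one]
  | succ k ih =>
    set μ : Measure (ℕ → ℝ) := Measure.infinitePi fun _ : ℕ => expMeasure 1 with hμ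
    have hmS : Measurable fun T : ℕ → ℝ => ∑ j ∈ Finset.range k, T j := by fun_prop
    have hmk : Measurable fun T : ℕ → ℝ => T k := by fun_prop
    have hind : IndepFun (fun T : ℕ → ℝ => ∑ j ∈ Finset.range k, T j) (fun T => T k) μ := by
      have h1 : iIndepFun (fun (i : ℕ) (T : ℕ → ℝ) => T i) μ :=
        iIndepFun_infinitePi (P := fun _ : ℕ => expMeasure 1) (X := fun _ x => x)
          (fun _ => measurable_id)
      have h2 := h1.indepFun_finsetSum_of_notMem (fun i => measurable_pi_apply i)
        (Finset.notMem_range_self (n := k))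
      have e : (∑ j ∈ Finset.range k, fun T : ℕ → ℝ => T j) =
          fun T : ℕ → ℝ => ∑ j ∈ Finset.range k, T j := by
        funext T
        simp
      rwa [e] at h2
    have hmap : μ.map (fun T : ℕ → ℝ => (∑ j ∈ Finset.range k, T j, T k)) =
        (μ.map fun T : ℕ → ℝ => ∑ j ∈ Finset.range k, T j).prod (expMeasure 1) := by
      rw [(indepFun_iff_map_prod_eq_prod_map_map hmS.aemeasurable hmk.aemeasurable).1 hind]
      congr 1
      exact Measure.infinitePi_map_eval (fun _ : ℕ => expMeasure 1) k
    have hA : MeasurableSet {p : ℝ × ℝ | p.1 + p.2 ≤ t} :=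
      measurableSet_le (by fun_prop) (by fun_prop)
    have e1 : μ {T | ∑ j ∈ Finset.range (k + 1), T j ≤ t} =
        (μ.map (fun T : ℕ → ℝ => (∑ j ∈ Finset.range k, T j, T k))) {p | p.1 + p.2 ≤ t} := by
      rw [Measure.map_apply (hmS.prodMk hmk) hA]
      congr 1
      ext T
      simp [Finset.sum_range_succ]
    have : IsProbabilityMeasure (μ.map fun T : ℕ → ℝ => ∑ j ∈ Finset.range k, T j) :=
      Measure.isProbabilityMeasure_map hmS.aemeasurable
    have e2 : ∀ y : ℝ, (μ.map fun T : ℕ → ℝ => ∑ j ∈ Finset.range k, T j)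
        ((fun x => (x, y)) ⁻¹' {p : ℝ × ℝ | p.1 + p.2 ≤ t}) =
        (Iic t).indicator (fun y => ENNReal.ofReal (tail k (t - y))) y := by
      intro y
      rw [Measure.map_apply hmS (measurable_prodMk_right hA)]
      by_cases hy : y ≤ t
      · rw [indicator_of_mem (show y ∈ Iic t from hy), ← ih (sub_nonneg.2 hy)]
        congr 1
        ext T
        simp [le_sub_iff_add_le]
      · rw [indicator_of_notMem (show y ∉ Iic t from hy)]
        push Not at hy
        refine measure_mono_null ?_ (ae_iff.1 clock_ae_nonneg)
        intro T hT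
        simp only [mem_preimage, mem_ofPred_eq] at hT ⊢
        intro hpos
        have := Finset.sum_nonneg fun j (_ : j ∈ Finset.range k) => hpos j
        linarith
    rw [e1, hmap, Measure.prod_apply_symm hA]
    simp only [e2]
    have hmt : Measurable fun y : ℝ => tail k (t - y) := by
      unfold tail
      fun_prop
    have hc : Continuous fun s => Real.exp (-s) * tail k (t - s) := by
      unfold tail
      fun_prop
    have hg : Measurable ((Iic t).indicator (fun y => ENNReal.ofReal (tail k (t - y)))) :=
      hmt.ennreal_ofReal.indicator measurableSet_Iic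
    have e3 : (gammaPDF 1 1 * (Iic t).indicator (fun y => ENNReal.ofReal (tail k (t - y)))) =
        (Icc 0 t).indicator fun y => ENNReal.ofReal (Real.exp (-y) * tail k (t - y)) := by
      funext y
      rw [Pi.mul_apply]
      by_cases h0 : 0 ≤ y
      · by_cases hy : y ≤ t
        · rw [indicator_of_mem (show y ∈ Iic t from hy),
            indicator_of_mem (show y ∈ Icc 0 t from ⟨h0, hy⟩), gammaPDF_of_nonneg h0,
            ENNReal.ofReal_mul (Real.exp_pos _).le]
          simp
        · rw [indicator_of_notMem (show y ∉ Iic t from hy),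
            indicator_of_notMem (show y ∉ Icc 0 t from fun h => hy h.2), mul_zero]
      · rw [gammaPDF_of_neg (not_le.1 h0), zero_mul,
          indicator_of_notMem (show y ∉ Icc 0 t from fun h => h0 h.1)]
    have hpdf : Measurable (gammaPDF 1 1) := (measurable_gammaPDFReal 1 1).ennreal_ofReal
    rw [expMeasure, gammaMeasure, lintegral_withDensity_eq_lintegral_mul _ hpdf hg, e3,
      lintegral_indicator measurableSet_Icc, ← ofReal_integral_eq_lintegral_ofReal
        hc.continuousOn.integrableOn_Icc, integral_Icc_eq_integral_Ioc,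
      ← intervalIntegral.integral_of_le ht, integral_exp_mul_tail]
    rw [Filter.EventuallyLE, ae_restrict_iff' measurableSet_Icc]
    refine Filter.Eventually.of_forall fun y hy => ?_
    exact mul_nonneg (Real.exp_pos _).le (tail_nonneg k (sub_nonneg.2 hy.2))

end Pool.Agent.Frog
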