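import Mathlib

/-!
# The frog model with death (MP_c9ff92_pr): definitions

The randomness of one particle is a pair `p`: `p.1 0, p.1 1, ...` are its waiting times
(independent, exponential of rate one) and `p.2 (k, v)` is the vertex to which the particle jumps
if its jump number `k` (counted from zero) starts at the vertex `v` (independent, uniform among
the neighbours of `v`).
-/

open MeasureTheory ProbabilityTheory Set
open scoped ENNReal NNReal

noncomputable section

namespace Pool.Agent.Frog

variable {V : Type*}

/-- The randomness of one particle: waiting times and jump targets. -/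
abbrev Particle (V : Type*) : Type _ := (ℕ → ℝ) × (ℕ × V → V)

/-- A configuration: for every vertex the number of its particles and the randomness of its
particle number `i`, for every `i` (only those with `i` smaller than the number exist). -/
abbrev Config (V : Type*) : Type _ := V → ℕ × (ℕ → Particle V)

/-- The position after `k` jumps of a particle started at `x`. -/
def pos (x : V) (p : Particle V) : ℕ → V
  | 0 => x
  | k + 1 => p.2 (k, pos x p k)

/-- The time of the jump number `k` (counted from one); zero for `k = 0`. -/
def jumpTime (p : Particle V) (k : ℕ) : ℝ := ∑ j ∈ Finset.range k, p.1 j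

/-- The set `R_x` of the vertices visited during `[0, t]` by the particles started at `x`
(`{x}` if there are none). -/
def visits (t : ℝ) (x : V) (s : ℕ × (ℕ → Particle V)) : Set V :=
  insert x {y | ∃ i < s.1, ∃ k, jumpTime (s.2 i) k ≤ t ∧ pos x (s.2 i) k = y}

/-- The event that a directed path leads from `o` outside every ball about `o`. -/
def percolates (G : SimpleGraph V) (o : V) (t : ℝ) : Set (Config V) :=
  {ω | ∀ n : ℕ, ∃ y, n < G.dist o y ∧
    Relation.ReflTransGen (fun x z => z ∈ visits t x (ω x)) o y}

variable [MeasurableSpace V]

/-- The law of one particle. -/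
def particleLaw (G : SimpleGraph V) : Measure (Particle V) :=
  (Measure.infinitePi fun _ : ℕ => expMeasure 1).prod
    (Measure.infinitePi fun q : ℕ × V => uniformOn (G.neighborSet q.2))

/-- The law of the particles of one vertex: a Poisson number, and independent particles. -/
def siteLaw (G : SimpleGraph V) (l : ℝ≥0) : Measure (ℕ × (ℕ → Particle V)) :=
  (poissonMeasure l).prod (Measure.infinitePi fun _ : ℕ => particleLaw G)

/-- The law of the configuration: the vertices are independent. -/
def law (G : SimpleGraph V) (l : ℝ≥0) : Measure (Config V) :=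
  Measure.infinitePi fun _ : V => siteLaw G l

/-- The percolation probability `P_{l,t}(o → ∞)`. -/
def theta (G : SimpleGraph V) (o : V) (l t : ℝ≥0) : ℝ≥0∞ := law G l (percolates G o t)

/-- The critical density `λ_c(t) = sup {λ : P_{λ,t}(o → ∞) = 0}`, with values in `[0, ∞]`. -/
def lambdaC (G : SimpleGraph V) (o : V) (t : ℝ≥0) : ℝ≥0∞ :=
  ⨆ (l : ℝ≥0) (_ : theta G o l t = 0), (l : ℝ≥0∞)

/-- The critical lifetime `t_c(λ) = sup {t : P_{λ,t}(o → ∞) = 0}`, with values in `[0, ∞]`. -/
def tC (G : SimpleGraph V) (o : V) (l : ℝ≥0) : ℝ≥0∞ :=
  ⨆ (t : ℝ≥0) (_ : theta G o l t = 0), (t : ℝ≥0∞)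

end Pool.Agent.Frog
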