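import Mathlib

/-!
# The heat kernel of simple random walk on a transitive graph of cubic growth (MP_c9ff92_pr)

`hk G d n x y` is the probability that simple random walk on a `d`-regular graph goes from `x` to
`y` in `n` steps. On an infinite transitive graph with `g(n) ≥ c n ^ 3` it is at most
`C / (n + 1) ^ (3 / 2)`, uniformly in `x` and `y`.
-/

open Finset

noncomputable section

namespace Pool.Agent.Frog

variable {V : Type*} (G : SimpleGraph V) [G.LocallyFinite]

open Classical in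
/-- The `n`-step transition probabilities of simple random walk on a `d`-regular graph. -/
def hk (d : ℕ) : ℕ → V → V → ℝ
  | 0 => fun x y => if x = y then 1 else 0
  | n + 1 => fun x y => (d : ℝ)⁻¹ * ∑ z ∈ G.neighborFinset x, hk d n z y

open Classical in
/-- The set of the end points of the walks with `n` steps from `x`. -/
def ends : ℕ → V → Finset V
  | 0 => fun x => {x}
  | n + 1 => fun x => (G.neighborFinset x).biUnion (ends n)

variable {G} {d : ℕ}

@[simp] lemma ends_zero (x : V) : ends G 0 x = {x} := rfl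

@[simp] lemma mem_ends_succ {n : ℕ} {x y : V} :
    y ∈ ends G (n + 1) x ↔ ∃ z, G.Adj x z ∧ y ∈ ends G n z := by
  simp [ends]

lemma mem_ends_add {m n : ℕ} {x y : V} :
    y ∈ ends G (m + n) x ↔ ∃ z ∈ ends G m x, y ∈ ends G n z := by
  induction m generalizing x with
  | zero => simp
  | succ m ih =>
    rw [show m + 1 + n = (m + n) + 1 by ring]
    simp only [mem_ends_succ, ih]
    constructor
    · rintro ⟨z, hz, w, hw, hy⟩; exact ⟨w, ⟨z, hz, hw⟩, hy⟩
    · rintro ⟨w, ⟨z, hz, hw⟩, hy⟩; exact ⟨z, hz, w, hw, hy⟩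

lemma mem_ends_one {x y : V} : y ∈ ends G 1 x ↔ G.Adj x y := by
  rw [show (1 : ℕ) = 0 + 1 from rfl, mem_ends_succ]
  simp

lemma mem_ends_symm {n : ℕ} {x y : V} : y ∈ ends G n x ↔ x ∈ ends G n y := by
  induction n generalizing x y with
  | zero => simp [eq_comm]
  | succ n ih =>
    rw [mem_ends_succ, mem_ends_add (m := n) (n := 1)]
    constructor
    · rintro ⟨z, hz, hy⟩; exact ⟨z, ih.1 hy, mem_ends_one.2 hz.symm⟩
    · rintro ⟨z, hz, hy⟩; exact ⟨z, (mem_ends_one.1 hy).symm, ih.1 hz⟩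

lemma hk_zero (x y : V) [Decidable (x = y)] : hk G d 0 x y = if x = y then 1 else 0 := by
  simp only [hk]; congr

lemma hk_succ (n : ℕ) (x y : V) :
    hk G d (n + 1) x y = (d : ℝ)⁻¹ * ∑ z ∈ G.neighborFinset x, hk G d n z y := rfl

lemma hk_nonneg (n : ℕ) (x y : V) : 0 ≤ hk G d n x y := by
  classical
  induction n generalizing x with
  | zero => rw [hk_zero]; split_ifs <;> norm_num
  | succ n ih =>
    rw [hk_succ]
    exact mul_nonneg (by positivity) (sum_nonneg fun z _ => ih z)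

lemma hk_eq_zero {n : ℕ} {x y : V} (h : y ∉ ends G n x) : hk G d n x y = 0 := by
  classical
  induction n generalizing x with
  | zero => rw [hk_zero, if_neg]; rintro rfl; exact h (by simp)
  | succ n ih =>
    rw [hk_succ, sum_eq_zero, mul_zero]
    intro z hz
    apply ih
    intro hy
    exact h (mem_ends_succ.2 ⟨z, by simpa using hz, hy⟩)

lemma le_hk {n : ℕ} {x y : V} (h : y ∈ ends G n x) : ((d : ℝ)⁻¹) ^ n ≤ hk G d n x y := by
  classical
  induction n generalizing x with
  | zero =>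
    rw [hk_zero]
    simp only [ends_zero, mem_singleton] at h
    simp [h]
  | succ n ih =>
    obtain ⟨z, hz, hy⟩ := mem_ends_succ.1 h
    rw [hk_succ, pow_succ']
    refine mul_le_mul_of_nonneg_left ?_ (by positivity)
    refine (ih hy).trans ?_
    exact single_le_sum (f := fun z => hk G d n z y) (fun z _ => hk_nonneg n z y)
      (by simpa using hz)

/-- Chapman-Kolmogorov. -/
lemma hk_add {m : ℕ} (n : ℕ) {x : V} (y : V) {S : Finset V} (hS : ends G m x ⊆ S) :
    hk G d (m + n) x y = ∑ z ∈ S, hk G d m x z * hk G d n z y := by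
  classical
  induction m generalizing x with
  | zero =>
    have hx : x ∈ S := hS (by simp)
    rw [sum_eq_single_of_mem x hx]
    · rw [hk_zero]; simp
    · intro z _ hz; rw [hk_zero, if_neg hz.symm, zero_mul]
  | succ m ih =>
    rw [show m + 1 + n = (m + n) + 1 by ring, hk_succ]
    have h1 : ∀ w ∈ G.neighborFinset x, hk G d (m + n) w y =
        ∑ z ∈ S, hk G d m w z * hk G d n z y := by
      intro w hw
      apply ih
      intro z hz
      exact hS (mem_ends_succ.2 ⟨w, by simpa using hw, hz⟩)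
    rw [sum_congr rfl h1, sum_comm, mul_sum]
    refine sum_congr rfl fun z _ => ?_
    rw [hk_succ, ← sum_mul]
    ring

lemma hk_symm (n : ℕ) (x y : V) : hk G d n x y = hk G d n y x := by
  classical
  induction n generalizing x y with
  | zero => rw [hk_zero, hk_zero]; simp [eq_comm]
  | succ n ih =>
    have h1 : ∀ x y : V, hk G d 1 x y = if G.Adj x y then (d : ℝ)⁻¹ else 0 := by
      intro x y
      rw [show (1 : ℕ) = 0 + 1 from rfl, hk_succ]
      simp only [hk_zero]
      rw [Finset.sum_ite_eq']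
      simp
    have e1 := hk_add (G := G) (d := d) (m := n) 1 (x := x) y
      (S := ends G n x ∪ ends G 1 y) subset_union_left
    have e2 := hk_add (G := G) (d := d) (m := 1) n (x := y) x
      (S := ends G n x ∪ ends G 1 y) subset_union_right
    rw [e1, show n + 1 = 1 + n by ring, e2]
    refine sum_congr rfl fun z _ => ?_
    rw [ih x z, h1, h1, mul_comm]
    simp only [G.adj_comm]

/-- The transition probabilities sum to one. -/
lemma sum_hk (hd : ∀ v, G.degree v = d) (hd0 : 0 < d) {n : ℕ} {x : V} {S : Finset V}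
    (hS : ends G n x ⊆ S) : ∑ y ∈ S, hk G d n x y = 1 := by
  classical
  induction n generalizing x with
  | zero =>
    have hx : x ∈ S := hS (by simp)
    rw [sum_eq_single_of_mem x hx]
    · rw [hk_zero]; simp
    · intro z _ hz; rw [hk_zero, if_neg hz.symm]
  | succ n ih =>
    have h1 : ∀ w ∈ G.neighborFinset x, ∑ y ∈ S, hk G d n w y = 1 := by
      intro w hw
      apply ih
      intro z hz
      exact hS (mem_ends_succ.2 ⟨w, by simpa using hw, hz⟩)
    simp only [hk_succ]
    rw [← mul_sum, sum_comm, sum_congr rfl h1]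
    have : (d : ℝ) ≠ 0 := by positivity
    simp only [sum_const, nsmul_eq_mul, mul_one]
    rw [G.card_neighborFinset_eq_degree, hd x]
    field_simp

lemma hk_le_one (hd : ∀ v, G.degree v = d) (hd0 : 0 < d) (n : ℕ) (x y : V) :
    hk G d n x y ≤ 1 := by
  classical
  rw [← sum_hk hd hd0 (n := n) (x := x) (S := insert y (ends G n x)) (subset_insert _ _)]
  exact single_le_sum (f := fun y => hk G d n x y) (fun z _ => hk_nonneg n x z)
    (mem_insert_self _ _)

/-- The transition probabilities are invariant under automorphisms. -/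
lemma hk_iso (φ : G ≃g G) (n : ℕ) (x y : V) : hk G d n (φ x) (φ y) = hk G d n x y := by
  classical
  induction n generalizing x with
  | zero => rw [hk_zero, hk_zero]; simp
  | succ n ih =>
    rw [hk_succ, hk_succ]
    congr 1
    symm
    refine sum_bij (fun z _ => φ z) ?_ ?_ ?_ ?_
    · intro z hz
      simp only [SimpleGraph.mem_neighborFinset] at hz ⊢
      exact φ.map_rel_iff.2 hz
    · intro z _ w _ h; exact φ.injective h
    · intro w hw
      refine ⟨φ.symm w, ?_, by simp⟩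
      simp only [SimpleGraph.mem_neighborFinset] at hw ⊢
      rw [← φ.map_rel_iff]; simpa using hw
    · intro z _; exact (ih z).symm

/-! ### Decay from a differential inequality -/

lemma decay_aux {U : ℕ → ℝ} (h1 : ∀ n, U n ≤ 1) (hU : Antitone U) (h0 : ∀ n, 0 ≤ U n)
    {A B : ℝ} (hA : 0 ≤ A) (hB : 0 ≤ B) (j : ℕ) (hj : 16 * B ≤ 4 ^ j)
    (h : ∀ n r : ℕ, 1 ≤ r → U n ≤ A / (r : ℝ) ^ 3 + B * (r : ℝ) ^ 2 * (U n - U (n + 1)))
    (k : ℕ) : U (4 ^ k) ≤ 16 * (1 + A) * 8 ^ j / 8 ^ k := by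
  induction k with
  | zero =>
    have : (1 : ℝ) ≤ 8 ^ j := one_le_pow₀ (by norm_num)
    refine (h1 _).trans ?_
    rw [pow_zero, div_one]
    nlinarith
  | succ k ih =>
    rcases lt_or_ge k j with hkj | hkj
    · refine (h1 _).trans ?_
      rw [le_div_iff₀ (by positivity), one_mul]
      have h2 : (8 : ℝ) ^ (k + 1) ≤ 8 ^ j := pow_le_pow_right₀ (by norm_num) hkj
      have : (0 : ℝ) ≤ 8 ^ j := by positivity
      nlinarith
    · -- the inequality summed over `[4 ^ k, 4 ^ (k + 1))`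
      set r : ℕ := 2 ^ (k - j) with hr
      have hr1 : 1 ≤ r := Nat.one_le_two_pow
      have hN : (4 : ℕ) ^ (k + 1) = 4 ^ k + 3 * 4 ^ k := by ring
      have hs : ∀ M N : ℕ, ∑ n ∈ range M, U (N + n) ≤
          M * (A / (r : ℝ) ^ 3) + B * (r : ℝ) ^ 2 * (U N - U (N + M)) := by
        intro M N
        induction M with
        | zero => simp
        | succ M ihM =>
          rw [sum_range_succ]
          have := h (N + M) r hr1
          push_cast
          rw [← add_assoc N M 1]
          nlinarith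
      have h3 := hs (3 * 4 ^ k) (4 ^ k)
      have h4 : ((3 * 4 ^ k : ℕ) : ℝ) * U (4 ^ (k + 1)) ≤ ∑ n ∈ range (3 * 4 ^ k), U (4 ^ k + n) := by
        rw [← card_range (3 * 4 ^ k), ← nsmul_eq_mul]
        rw [card_range]
        have := card_nsmul_le_sum (range (3 * 4 ^ k)) (fun n => U (4 ^ k + n)) (U (4 ^ (k + 1))) ?_
        · simpa using this
        · intro n hn
          apply hU
          have := mem_range.1 hn
          omega
      rw [← hN] at h3
      have hrr : (r : ℝ) ^ 2 * 4 ^ j = 4 ^ k := by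
        rw [hr]; push_cast
        rw [← pow_mul, show (4 : ℝ) = 2 ^ 2 by norm_num, ← pow_mul, ← pow_mul, ← pow_add]
        congr 1; omega
      have hrr3 : (r : ℝ) ^ 3 * 8 ^ j = 8 ^ k := by
        rw [hr]; push_cast
        rw [← pow_mul, show (8 : ℝ) = 2 ^ 3 by norm_num, ← pow_mul, ← pow_mul, ← pow_add]
        congr 1; omega
      have hr0 : (0 : ℝ) < r := by positivity
      have hA3 : A / (r : ℝ) ^ 3 = A * 8 ^ j / 8 ^ k := by
        rw [← hrr3]; field_simp
      rw [hA3] at h3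
      have h5 : B * (r : ℝ) ^ 2 ≤ 4 ^ k / 16 := by
        have : 0 < (r : ℝ) ^ 2 := by positivity
        rw [← hrr]; nlinarith
      have h6 : B * (r : ℝ) ^ 2 * (U (4 ^ k) - U (4 ^ (k + 1))) ≤ 4 ^ k / 16 * U (4 ^ k) := by
        have h7 := h0 (4 ^ (k + 1))
        have h8 := h0 (4 ^ k)
        have h9 : U (4 ^ (k + 1)) ≤ U (4 ^ k) := hU (Nat.pow_le_pow_right (by norm_num) (by omega))
        have : 0 ≤ B * (r : ℝ) ^ 2 := by positivity
        nlinarith
      push_cast at h3 h4
      have h10 : 3 * 4 ^ k * U (4 ^ (k + 1)) ≤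
          3 * 4 ^ k * (A * 8 ^ j / 8 ^ k + U (4 ^ k) / 48) := by
        linarith
      have h11 : U (4 ^ (k + 1)) ≤ A * 8 ^ j / 8 ^ k + U (4 ^ k) / 48 :=
        le_of_mul_le_mul_left h10 (by positivity)
      refine h11.trans ?_
      have h12 : A * 8 ^ j / 8 ^ k + U (4 ^ k) / 48 ≤
          A * 8 ^ j / 8 ^ k + 16 * (1 + A) * 8 ^ j / 8 ^ k / 48 := by linarith
      refine h12.trans ?_
      rw [pow_succ 8 k, ← sub_nonneg]
      have : 16 * (1 + A) * 8 ^ j / (8 ^ k * 8) -
          (A * 8 ^ j / 8 ^ k + 16 * (1 + A) * 8 ^ j / 8 ^ k / 48) =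
          (5 / 3 * (1 + A) - A) * 8 ^ j / 8 ^ k := by
        field_simp; ring
      rw [this]
      have : 0 ≤ 5 / 3 * (1 + A) - A := by nlinarith
      positivity

/-- A nonincreasing sequence with `U n ≤ A / r ^ 3 + B r ^ 2 (U n - U (n + 1))` for all `r ≥ 1`
decays like `n ^ (- 3 / 2)`. -/
lemma decay {U : ℕ → ℝ} (h1 : ∀ n, U n ≤ 1) (hU : Antitone U) (h0 : ∀ n, 0 ≤ U n)
    {A B : ℝ} (hA : 0 ≤ A) (hB : 0 ≤ B)
    (h : ∀ n r : ℕ, 1 ≤ r → U n ≤ A / (r : ℝ) ^ 3 + B * (r : ℝ) ^ 2 * (U n - U (n + 1))) :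
    ∃ C : ℝ, 0 < C ∧ ∀ n : ℕ, U n ≤ C / (((n : ℝ) + 1) * √((n : ℝ) + 1)) := by
  obtain ⟨j, hj⟩ := pow_unbounded_of_one_lt (16 * B) (show (1 : ℝ) < 4 by norm_num)
  have key := decay_aux h1 hU h0 hA hB j hj.le h
  set C : ℝ := 16 * (1 + A) * 8 ^ j with hC
  have hC1 : 1 ≤ C := by
    have : (1 : ℝ) ≤ 8 ^ j := one_le_pow₀ (by norm_num)
    rw [hC]; nlinarith
  refine ⟨64 * C, by positivity, fun n => ?_⟩
  have hpos : 0 < ((n : ℝ) + 1) * √((n : ℝ) + 1) := by positivity
  rw [le_div_iff₀ hpos]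
  set k := Nat.log 4 (n + 1) with hk
  have hk1 : 4 ^ k ≤ n + 1 := Nat.pow_log_le_self 4 (by omega)
  have hk2 : n + 1 < 4 ^ (k + 1) := Nat.lt_pow_succ_log_self (by norm_num) _
  have hk2' : (n : ℝ) + 1 ≤ 4 ^ (k + 1) := by exact_mod_cast hk2.le
  have hsq : √((n : ℝ) + 1) ≤ 2 ^ (k + 1) := by
    rw [Real.sqrt_le_left (by positivity)]
    rw [← pow_mul, mul_comm (k + 1) 2, pow_mul]
    norm_num; exact hk2'
  have hbd : ((n : ℝ) + 1) * √((n : ℝ) + 1) ≤ 8 ^ (k + 1) := by
    calc ((n : ℝ) + 1) * √((n : ℝ) + 1) ≤ 4 ^ (k + 1) * 2 ^ (k + 1) :=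
          mul_le_mul hk2' hsq (by positivity) (by positivity)
      _ = 8 ^ (k + 1) := by rw [← mul_pow]; norm_num
  rcases Nat.eq_zero_or_pos k with hk0 | hk0
  · rw [hk0] at hbd
    have h2 : U n * (((n : ℝ) + 1) * √((n : ℝ) + 1)) ≤ 1 * 8 ^ (0 + 1) :=
      mul_le_mul (h1 n) hbd hpos.le zero_le_one
    norm_num at h2
    linarith
  · obtain ⟨l, hl⟩ : ∃ l, k = l + 1 := ⟨k - 1, by omega⟩
    rw [hl] at hk1 hk2 hbd
    have hn : 4 ^ l ≤ n := by
      have : 4 ^ (l + 1) = 4 * 4 ^ l := by ring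
      have : 1 ≤ 4 ^ l := Nat.one_le_pow _ _ (by norm_num)
      omega
    have h2 : U n ≤ C / 8 ^ l := (hU hn).trans (key l)
    have h3 := h0 n
    calc U n * (((n : ℝ) + 1) * √((n : ℝ) + 1)) ≤ C / 8 ^ l * 8 ^ (l + 1 + 1) :=
          mul_le_mul h2 hbd hpos.le (by positivity)
      _ = 64 * C := by
          rw [pow_succ, pow_succ]; field_simp; ring

/-! ### Transitive graphs -/

section transitive

variable (hd : ∀ v, G.degree v = d) (hd0 : 0 < d) (ht : ∀ x y : V, ∃ φ : G ≃g G, φ x = y)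

include ht in
lemma hk_diag (n : ℕ) (x y : V) : hk G d n x x = hk G d n y y := by
  obtain ⟨φ, rfl⟩ := ht x y
  exact (hk_iso φ n x x).symm

include ht in
/-- The square of the distance of two heat kernels. -/
lemma sum_sq_sub (n : ℕ) (o x z : V) {S : Finset V} (hx : ends G n x ⊆ S) (hz : ends G n z ⊆ S) :
    ∑ y ∈ S, (hk G d n x y - hk G d n z y) ^ 2 =
      2 * (hk G d (2 * n) o o - hk G d (2 * n) x z) := by
  have e : ∀ a b : V, ends G n a ⊆ S →
      ∑ y ∈ S, hk G d n a y * hk G d n b y = hk G d (2 * n) a b := by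
    intro a b ha
    rw [two_mul, hk_add n b ha]
    exact sum_congr rfl fun y _ => by rw [hk_symm n b y]
  have e1 := e x x hx
  have e2 := e x z hx
  have e3 := e z z hz
  rw [hk_diag ht (2 * n) x o] at e1
  rw [hk_diag ht (2 * n) z o] at e3
  calc ∑ y ∈ S, (hk G d n x y - hk G d n z y) ^ 2
      = ∑ y ∈ S, (hk G d n x y * hk G d n x y - 2 * (hk G d n x y * hk G d n z y)
          + hk G d n z y * hk G d n z y) := sum_congr rfl fun y _ => by ring
    _ = _ := by
        rw [sum_add_distrib, sum_sub_distrib, ← mul_sum, e1, e2, e3]; ring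

include ht in
lemma hk_even_le (n : ℕ) (o x z : V) : hk G d (2 * n) x z ≤ hk G d (2 * n) o o := by
  classical
  have h := sum_sq_sub (d := d) ht n o x z (S := ends G n x ∪ ends G n z) subset_union_left
    subset_union_right
  have : 0 ≤ ∑ y ∈ ends G n x ∪ ends G n z, (hk G d n x y - hk G d n z y) ^ 2 :=
    sum_nonneg fun y _ => sq_nonneg _
  linarith

include hd hd0 ht in
lemma sum_two_step (n : ℕ) (o x : V) {S : Finset V} (hS : ends G 2 x ⊆ S) :
    ∑ z ∈ S, hk G d 2 x z * (hk G d (2 * n) o o - hk G d (2 * n) x z) =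
      hk G d (2 * n) o o - hk G d (2 * (n + 1)) o o := by
  have e1 := sum_hk hd hd0 hS
  have e2 := hk_add (d := d) (2 * n) x hS
  rw [show 2 + 2 * n = 2 * (n + 1) by ring, hk_diag ht _ x o] at e2
  rw [e2]
  simp only [mul_sub]
  rw [sum_sub_distrib, ← sum_mul, e1, one_mul]
  congr 1
  exact sum_congr rfl fun z _ => by rw [hk_symm (2 * n) x z]

include hd hd0 ht in
lemma hk_antitone (o : V) : Antitone fun n => hk G d (2 * n) o o := by
  refine antitone_nat_of_succ_le fun n => ?_
  have h := sum_two_step hd hd0 ht n o o (subset_refl _)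
  have : 0 ≤ ∑ z ∈ ends G 2 o, hk G d 2 o z * (hk G d (2 * n) o o - hk G d (2 * n) o z) :=
    sum_nonneg fun z _ => mul_nonneg (hk_nonneg _ _ _) (sub_nonneg.2 (hk_even_le ht n o o z))
  linarith

include hd hd0 ht in
lemma two_step_le (n : ℕ) (o x z : V) (hz : z ∈ ends G 2 x) :
    hk G d (2 * n) o o - hk G d (2 * n) x z ≤
      (d : ℝ) ^ 2 * (hk G d (2 * n) o o - hk G d (2 * (n + 1)) o o) := by
  rw [← sum_two_step hd hd0 ht n o x (subset_refl _)]
  have h1 : ((d : ℝ)⁻¹) ^ 2 * (hk G d (2 * n) o o - hk G d (2 * n) x z) ≤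
      ∑ z ∈ ends G 2 x, hk G d 2 x z * (hk G d (2 * n) o o - hk G d (2 * n) x z) := by
    refine le_trans ?_ (single_le_sum
      (f := fun z => hk G d 2 x z * (hk G d (2 * n) o o - hk G d (2 * n) x z))
      (fun z _ => mul_nonneg (hk_nonneg _ _ _) (sub_nonneg.2 (hk_even_le ht n o x z))) hz)
    exact mul_le_mul_of_nonneg_right (le_hk hz) (sub_nonneg.2 (hk_even_le ht n o x z))
  have hd1 : (d : ℝ) ≠ 0 := by positivity
  have h2 := mul_le_mul_of_nonneg_left h1 (show (0 : ℝ) ≤ (d : ℝ) ^ 2 by positivity)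
  rw [← mul_assoc, ← mul_pow, mul_inv_cancel₀ hd1, one_pow, one_mul] at h2
  exact h2

include hd hd0 ht in
lemma chain_le (n r : ℕ) (o x z : V) (hz : z ∈ ends G (2 * r) x) :
    hk G d (2 * n) o o - hk G d (2 * n) x z ≤
      (r : ℝ) ^ 2 * ((d : ℝ) ^ 2 * (hk G d (2 * n) o o - hk G d (2 * (n + 1)) o o)) := by
  classical
  induction r generalizing z with
  | zero =>
    have : z = x := by simpa using hz
    subst this
    rw [hk_diag ht (2 * n) z o]; simp
  | succ r ih =>
    rcases Nat.eq_zero_or_pos r with hr | hr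
    · subst hr
      have := two_step_le hd hd0 ht n o x z (by simpa using hz)
      simpa using this
    · rw [show 2 * (r + 1) = 2 * r + 2 by ring, mem_ends_add] at hz
      obtain ⟨w, hw, hz⟩ := hz
      have h1 := ih w hw
      have h2 := two_step_le hd hd0 ht n o w z hz
      set E := (d : ℝ) ^ 2 * (hk G d (2 * n) o o - hk G d (2 * (n + 1)) o o) with hE
      set S := ends G n x ∪ ends G n w ∪ ends G n z with hS
      have hSx : ends G n x ⊆ S := fun a ha => by simp [hS, ha]
      have hSw : ends G n w ⊆ S := fun a ha => by simp [hS, ha]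
      have hSz : ends G n z ⊆ S := fun a ha => by simp [hS, ha]
      have e1 := sum_sq_sub (d := d) ht n o x z hSx hSz
      have e2 := sum_sq_sub (d := d) ht n o x w hSx hSw
      have e3 := sum_sq_sub (d := d) ht n o w z hSw hSz
      have hr0 : (0 : ℝ) < r := by positivity
      have h3 : ∑ y ∈ S, (hk G d n x y - hk G d n z y) ^ 2 ≤
          ∑ y ∈ S, ((1 + (r : ℝ)⁻¹) * (hk G d n x y - hk G d n w y) ^ 2 +
            (1 + (r : ℝ)) * (hk G d n w y - hk G d n z y) ^ 2) := by
        refine sum_le_sum fun y _ => ?_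
        set a := hk G d n x y
        set b := hk G d n w y
        set c := hk G d n z y
        have : (1 + (r : ℝ)⁻¹) * (a - b) ^ 2 + (1 + (r : ℝ)) * (b - c) ^ 2 - (a - c) ^ 2 =
            (r : ℝ)⁻¹ * ((a - b) - r * (b - c)) ^ 2 := by
          field_simp; ring
        have h4 : 0 ≤ (r : ℝ)⁻¹ * ((a - b) - r * (b - c)) ^ 2 := by positivity
        linarith
      rw [sum_add_distrib, ← mul_sum, ← mul_sum, e1, e2, e3] at h3
      have h5 : (1 + (r : ℝ)⁻¹) * (2 * (hk G d (2 * n) o o - hk G d (2 * n) x w)) ≤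
          (1 + (r : ℝ)⁻¹) * (2 * ((r : ℝ) ^ 2 * E)) :=
        mul_le_mul_of_nonneg_left (by linarith) (by positivity)
      have h6 : (1 + (r : ℝ)) * (2 * (hk G d (2 * n) o o - hk G d (2 * n) w z)) ≤
          (1 + (r : ℝ)) * (2 * E) :=
        mul_le_mul_of_nonneg_left (by linarith) (by positivity)
      have h7 : (1 + (r : ℝ)⁻¹) * (2 * ((r : ℝ) ^ 2 * E)) = 2 * ((r : ℝ) ^ 2 + r) * E := by
        field_simp
      push_cast
      nlinarith

include hd hd0 ht in
/-- The inequality which gives the decay. -/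
lemma card_mul_le (n r : ℕ) (o : V) :
    ((ends G (2 * r) o).card : ℝ) * (hk G d (2 * n) o o -
      (r : ℝ) ^ 2 * ((d : ℝ) ^ 2 * (hk G d (2 * n) o o - hk G d (2 * (n + 1)) o o))) ≤ 1 := by
  classical
  rw [← sum_hk hd hd0 (n := 2 * n) (x := o) (S := ends G (2 * n) o ∪ ends G (2 * r) o)
    subset_union_left, ← nsmul_eq_mul]
  refine (card_nsmul_le_sum _ (fun z => hk G d (2 * n) o z) _ ?_).trans
    (sum_le_sum_of_subset_of_nonneg subset_union_right fun z _ _ => hk_nonneg _ _ _)
  intro z hz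
  have := chain_le hd hd0 ht n r o o z hz
  linarith

end transitive

/-! ### Balls and end points of walks -/

lemma mem_ends_walk {x y : V} (p : G.Walk x y) : y ∈ ends G p.length x := by
  induction p with
  | nil => simp
  | cons h p ih => exact mem_ends_succ.2 ⟨_, h, ih⟩

lemma exists_adj (hd : ∀ v, G.degree v = d) (hd0 : 0 < d) (x : V) : ∃ y, G.Adj x y := by
  have : 0 < (G.neighborFinset x).card := by
    rw [G.card_neighborFinset_eq_degree, hd x]; exact hd0
  obtain ⟨y, hy⟩ := card_pos.1 this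
  exact ⟨y, by simpa using hy⟩

lemma ends_add_two (hd : ∀ v, G.degree v = d) (hd0 : 0 < d) {n : ℕ} {x y : V}
    (h : y ∈ ends G n x) (j : ℕ) : y ∈ ends G (n + 2 * j) x := by
  induction j with
  | zero => simpa using h
  | succ j ih =>
    obtain ⟨z, hz⟩ := exists_adj hd hd0 y
    rw [show n + 2 * (j + 1) = (n + 2 * j + 1) + 1 by ring, mem_ends_add]
    exact ⟨z, mem_ends_add.2 ⟨y, ih, mem_ends_one.2 hz⟩, mem_ends_one.2 hz.symm⟩

/-- The ball of radius `2 r - 1` is contained in the set of the end points of the walks with `2 r`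
steps, together with the neighbours of these points. -/
lemma ncard_ball_le (hG : G.Connected) (hd : ∀ v, G.degree v = d) (hd0 : 0 < d) (r : ℕ)
    (o : V) :
    {y | G.dist o y ≤ r}.ncard ≤ (1 + d) * (ends G (2 * r) o).card := by
  classical
  set T := ends G (2 * r) o ∪ (ends G (2 * r) o).biUnion fun z => G.neighborFinset z with hT
  have hsub : {y | G.dist o y ≤ r} ⊆ (T : Set V) := by
    intro y hy
    obtain ⟨p, hp⟩ := (hG o y).exists_walk_length_eq_dist
    have h1 := mem_ends_walk p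
    rw [hp] at h1
    have hy' : G.dist o y ≤ r := hy
    rcases Nat.even_or_odd (G.dist o y) with ⟨k, hk⟩ | ⟨k, hk⟩
    · have h2 := ends_add_two hd hd0 h1 (r - k)
      rw [hk, show k + k + 2 * (r - k) = 2 * r by omega] at h2
      exact mem_coe.2 (mem_union_left _ h2)
    · obtain ⟨z, hz⟩ := exists_adj hd hd0 y
      have h2 : z ∈ ends G (G.dist o y + 1) o := mem_ends_add.2 ⟨y, h1, mem_ends_one.2 hz⟩
      have h3 := ends_add_two hd hd0 h2 (r - k - 1)
      rw [hk, show 2 * k + 1 + 1 + 2 * (r - k - 1) = 2 * r by omega] at h3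
      refine mem_coe.2 (mem_union_right _ (mem_biUnion.2 ⟨z, h3, ?_⟩))
      simpa using hz.symm
  have h1 : {y | G.dist o y ≤ r}.ncard ≤ T.card := by
    rw [← Set.ncard_coe_finset]
    exact Set.ncard_le_ncard hsub (finite_toSet T)
  refine h1.trans ((card_union_le _ _).trans ?_)
  have h2 : ((ends G (2 * r) o).biUnion fun z => G.neighborFinset z).card ≤
      (ends G (2 * r) o).card * d := by
    refine card_biUnion_le_card_mul _ _ _ fun z _ => ?_
    rw [G.card_neighborFinset_eq_degree, hd z]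
  nlinarith

/-- On a transitive graph with `g(n) ≥ c n ^ 3` the transition probabilities of simple random walk
satisfy `p_n(x, y) ≤ C / (n + 1) ^ (3 / 2)`. -/
theorem hk_le (hG : G.Connected) (hd : ∀ v, G.degree v = d) (hd0 : 0 < d)
    (ht : ∀ x y : V, ∃ φ : G ≃g G, φ x = y) (o : V) {c : ℝ} (hc : 0 < c)
    (hg : ∀ n : ℕ, c * (n : ℝ) ^ 3 ≤ ({y | G.dist o y ≤ n}.ncard : ℝ)) :
    ∃ C : ℝ, 0 < C ∧ ∀ (n : ℕ) (x y : V),
      hk G d n x y ≤ C / (((n : ℝ) + 1) * √((n : ℝ) + 1)) := by
  classical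
  have hA : (0 : ℝ) ≤ (1 + d) / c := by positivity
  have hB : (0 : ℝ) ≤ (d : ℝ) ^ 2 := by positivity
  obtain ⟨C, hC, h⟩ := decay (U := fun n => hk G d (2 * n) o o)
    (fun n => hk_le_one hd hd0 _ _ _) (hk_antitone hd hd0 ht o) (fun n => hk_nonneg _ _ _)
    hA hB (fun n r hr => by
      have h1 := card_mul_le hd hd0 ht n r o
      have h2 := ncard_ball_le hG hd hd0 r o
      have h3 := hg r
      have h2' : ({y | G.dist o y ≤ r}.ncard : ℝ) ≤ (1 + d) * (ends G (2 * r) o).card := by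
        exact_mod_cast h2
      have hr0 : (0 : ℝ) < (r : ℝ) ^ 3 := by positivity
      have hE : 0 < ((ends G (2 * r) o).card : ℝ) := by
        have : 0 < c * (r : ℝ) ^ 3 := by positivity
        by_contra hcon
        have : ((ends G (2 * r) o).card : ℝ) = 0 := le_antisymm (not_lt.1 hcon) (by positivity)
        rw [this] at h2'
        linarith
      set E : ℝ := ((ends G (2 * r) o).card : ℝ)
      set u := hk G d (2 * n) o o
      set v := hk G d (2 * (n + 1)) o o
      have h4 : u - (r : ℝ) ^ 2 * ((d : ℝ) ^ 2 * (u - v)) ≤ 1 / E := by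
        rw [le_div_iff₀ hE]; linarith
      have h5 : 1 / E ≤ (1 + d) / c / (r : ℝ) ^ 3 := by
        rw [div_div, div_le_div_iff₀ hE (by positivity)]
        linarith
      show u ≤ (1 + d) / c / (r : ℝ) ^ 3 + (d : ℝ) ^ 2 * (r : ℝ) ^ 2 * (u - v)
      linarith)
  refine ⟨8 * C, by positivity, ?_⟩
  -- even times
  have heven : ∀ (m : ℕ) (x y : V), hk G d (2 * m) x y ≤ C / (((m : ℝ) + 1) * √((m : ℝ) + 1)) :=
    fun m x y => (hk_even_le ht m o x y).trans (h m)
  have hall : ∀ (n : ℕ) (x y : V),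
      hk G d n x y ≤ C / ((((n / 2 : ℕ) : ℝ) + 1) * √(((n / 2 : ℕ) : ℝ) + 1)) := by
    intro n x y
    rcases Nat.even_or_odd' n with ⟨m, rfl | rfl⟩
    · rw [Nat.mul_div_cancel_left _ (by norm_num)]; exact heven m x y
    · rw [show (2 * m + 1) / 2 = m by omega, hk_succ]
      have h1 : ∑ z ∈ G.neighborFinset x, hk G d (2 * m) z y ≤
          d * (C / (((m : ℝ) + 1) * √((m : ℝ) + 1))) := by
        have := sum_le_card_nsmul (G.neighborFinset x) (fun z => hk G d (2 * m) z y) _
          (fun z _ => heven m z y)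
        rwa [G.card_neighborFinset_eq_degree, hd x, nsmul_eq_mul] at this
      have h2 := mul_le_mul_of_nonneg_left h1 (show (0 : ℝ) ≤ (d : ℝ)⁻¹ by positivity)
      rwa [← mul_assoc, inv_mul_cancel₀ (by positivity), one_mul] at h2
  intro n x y
  refine (hall n x y).trans ?_
  have h1 : ((n : ℝ) + 1) ≤ 4 * (((n / 2 : ℕ) : ℝ) + 1) := by
    have : n + 1 ≤ 4 * (n / 2 + 1) := by omega
    exact_mod_cast this
  have h2 : √((n : ℝ) + 1) ≤ 2 * √(((n / 2 : ℕ) : ℝ) + 1) := by
    rw [show (2 : ℝ) = √4 by rw [show (4 : ℝ) = 2 ^ 2 by norm_num]; simp,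
      ← Real.sqrt_mul (by norm_num)]
    exact Real.sqrt_le_sqrt h1
  rw [div_le_div_iff₀ (by positivity) (by positivity)]
  have h3 : ((n : ℝ) + 1) * √((n : ℝ) + 1) ≤
      (4 * (((n / 2 : ℕ) : ℝ) + 1)) * (2 * √(((n / 2 : ℕ) : ℝ) + 1)) :=
    mul_le_mul h1 h2 (by positivity) (by positivity)
  nlinarith

end Pool.Agent.Frog
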