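import Pool.Agent.Work.MP_c9ff92_pr.Ber

/-!
# Trajectories as finite objects (MP_c9ff92_pr)

A trajectory is a pair `(x, l)`: the starting vertex `x` and the list `l` of the later positions,
the last one first.
-/

open Finset

noncomputable section

namespace Pool.Agent.Frog

variable {V : Type*} [DecidableEq V]

/-- The current position. -/
def cur (γ : V × List V) : V :=
  match γ.2 with
  | [] => γ.1
  | y :: _ => y

omit [DecidableEq V] in
@[simp] theorem cur_nil (x : V) : cur (x, ([] : List V)) = x := rfl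

omit [DecidableEq V] in
@[simp] theorem cur_cons (x y : V) (l : List V) : cur (x, y :: l) = y := rfl

variable (G : SimpleGraph V) [G.LocallyFinite]

open Classical in
/-- The probability that the walk from `x` follows the list `l`. -/
def wgt (x : V) : List V → ℝ
  | [] => 1
  | y :: l => (if G.Adj (cur (x, l)) y then ((G.degree (cur (x, l)) : ℝ))⁻¹ else 0) * wgt x l

omit [DecidableEq V] in
theorem wgt_nonneg (x : V) (l : List V) : 0 ≤ wgt G x l := by
  induction l with
  | nil => exact zero_le_one
  | cons y l ih =>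
    rw [wgt]
    refine mul_nonneg ?_ ih
    split_ifs
    · positivity
    · exact le_rfl

/-- The consecutive positions are adjacent. -/
def Good (x : V) : List V → Prop
  | [] => True
  | y :: l => G.Adj (cur (x, l)) y ∧ Good x l

/-- The trajectories with `m` jumps started in `B`. -/
def lev (B : Finset V) : ℕ → Finset (V × List V)
  | 0 => B.image fun x => (x, [])
  | m + 1 => (lev B m).biUnion fun γ =>
      (G.neighborFinset (cur γ)).image fun y => (γ.1, y :: γ.2)

theorem mem_lev {B : Finset V} {m : ℕ} {x : V} {l : List V} :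
    (x, l) ∈ lev G B m ↔ x ∈ B ∧ l.length = m ∧ Good G x l := by
  induction m generalizing x l with
  | zero =>
    rw [lev]
    simp only [mem_image, Prod.mk.injEq]
    constructor
    · rintro ⟨z, hz, rfl, rfl⟩
      exact ⟨hz, rfl, trivial⟩
    · rintro ⟨hx, hl, _⟩
      exact ⟨x, hx, rfl, (List.length_eq_zero_iff.1 hl).symm⟩
  | succ m ih =>
    rw [lev]
    simp only [mem_biUnion, mem_image, Prod.mk.injEq, SimpleGraph.mem_neighborFinset]
    constructor
    · rintro ⟨⟨z, l'⟩, hz, y, hy, rfl, rfl⟩
      obtain ⟨h1, h2, h3⟩ := ih.1 hz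
      exact ⟨h1, by simp [h2], hy, h3⟩
    · rintro ⟨hx, hl, hg⟩
      rcases l with _ | ⟨y, l⟩
      · simp at hl
      · obtain ⟨hg1, hg2⟩ := hg
        exact ⟨(x, l), ih.2 ⟨hx, by simpa using hl, hg2⟩, y, hg1, rfl, rfl⟩

theorem sum_lev_succ (B : Finset V) (m : ℕ) (f : V × List V → ℝ) :
    ∑ γ ∈ lev G B (m + 1), f γ =
      ∑ γ ∈ lev G B m, ∑ y ∈ G.neighborFinset (cur γ), f (γ.1, y :: γ.2) := by
  rw [lev, sum_biUnion]
  · refine sum_congr rfl fun γ _ => ?_
    rw [sum_image]
    intro y _ y' _ h
    simpa using h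
  · intro γ _ γ' _ hne
    rw [Function.onFun, disjoint_left]
    intro δ h1 h2
    rw [mem_image] at h1 h2
    obtain ⟨y, _, rfl⟩ := h1
    obtain ⟨y', _, h⟩ := h2
    apply hne
    simp only [Prod.mk.injEq, List.cons.injEq] at h
    exact Prod.ext h.1.symm h.2.2.symm

variable {G}

omit [DecidableEq V] in
theorem degree_pos_of (hdeg : ∀ v, 0 < G.degree v) (v : V) : (0 : ℝ) < G.degree v := by
  exact_mod_cast hdeg v

omit [DecidableEq V] in
/-- The weights of the extensions of a trajectory add up to its weight. -/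
theorem sum_wgt_cons (hdeg : ∀ v, 0 < G.degree v) (γ : V × List V) :
    ∑ y ∈ G.neighborFinset (cur γ), wgt G γ.1 (y :: γ.2) = wgt G γ.1 γ.2 := by
  have h : ∀ y ∈ G.neighborFinset (cur γ), wgt G γ.1 (y :: γ.2) =
      ((G.degree (cur γ) : ℝ))⁻¹ * wgt G γ.1 γ.2 := by
    intro y hy
    rw [SimpleGraph.mem_neighborFinset] at hy
    rw [wgt, if_pos hy]
  rw [sum_congr rfl h, sum_const, SimpleGraph.card_neighborFinset_eq_degree, nsmul_eq_mul,
    ← mul_assoc, mul_inv_cancel₀ (degree_pos_of hdeg _).ne', one_mul]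

/-- The total weight of the trajectories with `m` jumps through `x`. -/
def thr (G : SimpleGraph V) [G.LocallyFinite] (B : Finset V) (m : ℕ) (x : V) : ℝ :=
  ∑ γ ∈ lev G B m, if x = γ.1 ∨ x ∈ γ.2 then wgt G γ.1 γ.2 else 0

omit [DecidableEq V] in
theorem cur_mem (γ : V × List V) : cur γ = γ.1 ∨ cur γ ∈ γ.2 := by
  obtain ⟨x, l⟩ := γ
  rcases l with _ | ⟨y, l⟩
  · exact Or.inl rfl
  · exact Or.inr (by simp)

theorem thr_le (hdeg : ∀ v, 0 < G.degree v) {D : ℕ} (hD : ∀ v, G.degree v ≤ D) (B : Finset V)
    (m : ℕ) (x : V) : thr G B m x ≤ ((D : ℝ) + 1) ^ m := by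
  induction m generalizing x with
  | zero =>
    rw [thr, lev, sum_image (by intro a _ b _ h; simpa using h)]
    simp only [List.not_mem_nil, or_false, wgt, pow_zero]
    rw [sum_ite_eq]
    split_ifs <;> norm_num
  | succ m ih =>
    rw [thr, sum_lev_succ]
    have h1 : ∀ γ ∈ lev G B m, (∑ y ∈ G.neighborFinset (cur γ),
        if x = (γ.1, y :: γ.2).1 ∨ x ∈ (γ.1, y :: γ.2).2 then
          wgt G (γ.1, y :: γ.2).1 (γ.1, y :: γ.2).2 else 0) ≤
        (if x = γ.1 ∨ x ∈ γ.2 then wgt G γ.1 γ.2 else 0) +
          ∑ z ∈ G.neighborFinset x, if z = γ.1 ∨ z ∈ γ.2 then wgt G γ.1 γ.2 else 0 := by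
      intro γ _
      have hw := wgt_nonneg G γ.1 γ.2
      have hz : 0 ≤ ∑ z ∈ G.neighborFinset x, if z = γ.1 ∨ z ∈ γ.2 then wgt G γ.1 γ.2 else 0 :=
        sum_nonneg fun z _ => by split_ifs <;> [exact hw; exact le_rfl]
      by_cases hx : x = γ.1 ∨ x ∈ γ.2
      · rw [if_pos hx]
        have h2 : (∑ y ∈ G.neighborFinset (cur γ),
            if x = (γ.1, y :: γ.2).1 ∨ x ∈ (γ.1, y :: γ.2).2 then
              wgt G (γ.1, y :: γ.2).1 (γ.1, y :: γ.2).2 else 0) ≤
            ∑ y ∈ G.neighborFinset (cur γ), wgt G γ.1 (y :: γ.2) := by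
          refine sum_le_sum fun y _ => ?_
          split_ifs
          · exact le_rfl
          · exact wgt_nonneg G _ _
        rw [sum_wgt_cons hdeg] at h2
        linarith
      · rw [if_neg hx, zero_add]
        push Not at hx
        by_cases hadj : G.Adj (cur γ) x
        · have hsingle : (∑ y ∈ G.neighborFinset (cur γ),
              if x = (γ.1, y :: γ.2).1 ∨ x ∈ (γ.1, y :: γ.2).2 then
                wgt G (γ.1, y :: γ.2).1 (γ.1, y :: γ.2).2 else 0) = wgt G γ.1 (x :: γ.2) := by
            rw [sum_eq_single x]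
            · simp
            · intro y _ hy
              rw [if_neg]
              simp only [List.mem_cons, not_or]
              exact ⟨hx.1, hy.symm, hx.2⟩
            · intro h
              exact absurd ((SimpleGraph.mem_neighborFinset _ _ _).2 hadj) h
          rw [hsingle]
          have h3 : wgt G γ.1 (x :: γ.2) ≤ wgt G γ.1 γ.2 := by
            have hadj' : G.Adj (cur (γ.1, γ.2)) x := hadj
            rw [wgt, if_pos hadj']
            have h4 : ((G.degree (cur (γ.1, γ.2)) : ℝ))⁻¹ ≤ 1 := by
              apply inv_le_one_of_one_le₀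
              exact_mod_cast hdeg _
            calc _ ≤ 1 * wgt G γ.1 γ.2 := mul_le_mul_of_nonneg_right h4 hw
              _ = _ := one_mul _
          refine h3.trans ?_
          have hc : cur γ ∈ G.neighborFinset x := (SimpleGraph.mem_neighborFinset _ _ _).2 hadj.symm
          refine le_trans ?_ (single_le_sum (f := fun z => if z = γ.1 ∨ z ∈ γ.2 then
            wgt G γ.1 γ.2 else 0) (fun z _ => by
              split_ifs <;> [exact hw; exact le_rfl]) hc)
          rw [if_pos (cur_mem γ)]
        · rw [sum_eq_zero]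
          · exact hz
          · intro y hy
            rw [SimpleGraph.mem_neighborFinset] at hy
            rw [if_neg]
            simp only [List.mem_cons, not_or]
            refine ⟨hx.1, ?_, hx.2⟩
            rintro rfl
            exact hadj hy
    refine (sum_le_sum h1).trans ?_
    rw [sum_add_distrib, sum_comm]
    have h2 : ∑ z ∈ G.neighborFinset x, ∑ γ ∈ lev G B m,
        (if z = γ.1 ∨ z ∈ γ.2 then wgt G γ.1 γ.2 else 0) ≤ (D : ℝ) * ((D : ℝ) + 1) ^ m := by
      refine (sum_le_sum fun z _ => ih z).trans ?_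
      rw [sum_const, SimpleGraph.card_neighborFinset_eq_degree, nsmul_eq_mul]
      exact mul_le_mul_of_nonneg_right (by exact_mod_cast hD x) (by positivity)
    have h3 := ih x
    rw [thr] at h3
    rw [pow_succ]
    linarith

end Pool.Agent.Frog
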