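import Pool.Agent.Work.MP_c9ff92_pr.LinkDefs

/-!
# Inclusion-exclusion from void probabilities (MP_c9ff92_pr, L1)
-/

open MeasureTheory ProbabilityTheory Set
open scoped ENNReal NNReal

noncomputable section

namespace Pool.Agent.Frog

theorem linkA_sum {Ω T : Type*} [MeasurableSpace Ω] (P : Measure Ω) [IsProbabilityMeasure P]
    (s : Finset T) (Z : Ω → Finset T) (hZ : ∀ ω, Z ω ⊆ s)
    (hmeas : ∀ A, MeasurableSet {ω | Z ω = A}) (U : Finset T → Prop) [DecidablePred U] :
    P.real {ω | U (Z ω)} = ∑ A ∈ s.powerset.filter U, P.real {ω | Z ω = A} := by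
  have h1 : {ω | U (Z ω)} = ⋃ A ∈ s.powerset.filter U, {ω | Z ω = A} := by
    ext ω
    simp only [mem_ofPred_eq, mem_iUnion, exists_prop, Finset.mem_filter, Finset.mem_powerset]
    constructor
    · intro h
      exact ⟨Z ω, ⟨hZ ω, h⟩, rfl⟩
    · rintro ⟨A, ⟨_, hA⟩, h⟩
      rw [h]; exact hA
  rw [h1, measureReal_biUnion_finset]
  · intro A _ B _ hAB
    refine Set.disjoint_left.2 fun ω hA hB => hAB ?_
    rw [← (hA : Z ω = A), (hB : Z ω = B)]
  · intro A _
    exact hmeas A

theorem linkA_gsum {T : Type*} [DecidableEq T] (s A : Finset T) (hA : A ⊆ s) (r : T → ℝ) :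
    ∑ B ∈ A.powerset, ((∏ i ∈ B, (1 - Real.exp (-r i))) * ∏ i ∈ s \ B, Real.exp (-r i)) =
      ∏ i ∈ s \ A, Real.exp (-r i) := by
  have h1 : ∀ B ∈ A.powerset, ((∏ i ∈ B, (1 - Real.exp (-r i))) * ∏ i ∈ s \ B, Real.exp (-r i)) =
      ((∏ i ∈ B, (1 - Real.exp (-r i))) * ∏ i ∈ A \ B, Real.exp (-r i)) *
        ∏ i ∈ s \ A, Real.exp (-r i) := by
    intro B hB
    rw [Finset.mem_powerset] at hB
    have h2 : s \ B = (A \ B) ∪ (s \ A) := by
      ext x
      simp only [Finset.mem_sdiff, Finset.mem_union]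
      constructor
      · rintro ⟨h1, h2⟩
        by_cases h3 : x ∈ A
        · exact Or.inl ⟨h3, h2⟩
        · exact Or.inr ⟨h1, h3⟩
      · rintro (⟨h1, h2⟩ | ⟨h1, h2⟩)
        · exact ⟨hA h1, h2⟩
        · exact ⟨h1, fun h => h2 (hB h)⟩
    have h3 : Disjoint (A \ B) (s \ A) := by
      rw [Finset.disjoint_left]
      intro x hx hx'
      exact (Finset.mem_sdiff.1 hx').2 (Finset.mem_sdiff.1 hx).1
    rw [h2, Finset.prod_union h3, mul_assoc]
  rw [Finset.sum_congr rfl h1, ← Finset.sum_mul, ← Finset.prod_add]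
  simp

theorem measure_eq_Q {Ω T : Type*} [MeasurableSpace Ω] (P : Measure Ω) [IsProbabilityMeasure P]
    [DecidableEq T] (s : Finset T) (Z : Ω → Finset T) (hZ : ∀ ω, Z ω ⊆ s)
    (hmeas : ∀ A, MeasurableSet {ω | Z ω = A}) (r : T → ℝ) (hr : ∀ i ∈ s, 0 ≤ r i)
    (hvoid : ∀ S ⊆ s, P {ω | Disjoint (Z ω) S} = ENNReal.ofReal (Real.exp (-∑ i ∈ S, r i)))
    (U : Finset T → Prop) : P {ω | U (Z ω)} = ENNReal.ofReal (1 - Q r s U) := by
  classical
  set f : Finset T → ℝ := fun A => P.real {ω | Z ω = A} with hf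
  set g : Finset T → ℝ := fun A => (∏ i ∈ A, (1 - Real.exp (-r i))) *
    ∏ i ∈ s \ A, Real.exp (-r i) with hg
  have h1 : ∀ A ⊆ s, ∑ B ∈ A.powerset, f B = ∏ i ∈ s \ A, Real.exp (-r i) := by
    intro A hA
    have h2 : {ω | Disjoint (Z ω) (s \ A)} = {ω | Z ω ⊆ A} := by
      ext ω
      simp only [mem_ofPred_eq]
      constructor
      · intro h x hx
        by_contra hxA
        exact Finset.disjoint_left.1 h hx (Finset.mem_sdiff.2 ⟨hZ ω hx, hxA⟩)
      · intro h
        rw [Finset.disjoint_left]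
        intro x hx hx'
        exact (Finset.mem_sdiff.1 hx').2 (h hx)
    have h3 := linkA_sum P s Z hZ hmeas (fun B => B ⊆ A)
    have h4 : s.powerset.filter (fun B => B ⊆ A) = A.powerset := by
      ext B
      simp only [Finset.mem_filter, Finset.mem_powerset]
      exact ⟨fun h => h.2, fun h => ⟨h.trans hA, h⟩⟩
    rw [h4, ← h2, measureReal_def, hvoid _ Finset.sdiff_subset,
      ENNReal.toReal_ofReal (Real.exp_pos _).le] at h3
    rw [← h3, ← Real.exp_sum, Finset.sum_neg_distrib]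
  have h2 : ∀ A ⊆ s, ∑ B ∈ A.powerset, g B = ∏ i ∈ s \ A, Real.exp (-r i) :=
    fun A hA => linkA_gsum s A hA r
  have h3 : ∀ A : Finset T, A ⊆ s → f A = g A := by
    intro A
    induction A using Finset.strongInduction with
    | H A ih =>
      intro hA
      have h4 := (h1 A hA).trans (h2 A hA).symm
      have hmem : A ∈ A.powerset := Finset.mem_powerset_self A
      rw [← Finset.add_sum_erase _ _ hmem, ← Finset.add_sum_erase _ _ hmem] at h4
      have h5 : ∑ B ∈ A.powerset.erase A, f B = ∑ B ∈ A.powerset.erase A, g B := by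
        refine Finset.sum_congr rfl fun B hB => ?_
        rw [Finset.mem_erase, Finset.mem_powerset] at hB
        exact ih B (Finset.ssubset_iff_subset_ne.2 ⟨hB.2, hB.1⟩) (hB.2.trans hA)
      linarith
  have h4 : P.real {ω | U (Z ω)} = 1 - Q r s U := by
    rw [linkA_sum P s Z hZ hmeas U]
    have h5 : ∑ A ∈ s.powerset.filter U, P.real {ω | Z ω = A} = ∑ A ∈ s.powerset.filter U, g A :=
      Finset.sum_congr rfl fun A hA =>
        h3 A (Finset.mem_powerset.1 (Finset.mem_filter.1 hA).1)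
    have h6 : ∑ A ∈ s.powerset, g A = 1 := by
      rw [h2 s (Finset.Subset.refl s)]
      simp
    have h7 : Q r s U = ∑ A ∈ s.powerset.filter (fun A => ¬ U A), g A := by
      rw [Finset.sum_filter]
      unfold Q
      refine Finset.sum_congr rfl fun A _ => ?_
      by_cases h : U A
      · rw [if_pos h, if_neg (not_not.2 h)]
      · rw [if_neg h, if_pos h]
    rw [h5, h7, ← h6, ← Finset.sum_filter_add_sum_filter_not s.powerset U g]
    ring
  rw [← h4, measureReal_def, ENNReal.ofReal_toReal (measure_ne_top _ _)]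

end Pool.Agent.Frog
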