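import Pool.Agent.Work.MP_c9ff92_pr.Tail
import Pool.Agent.Work.MP_c9ff92_pr.Compare

/-!
# Definitions for the comparison of the frog model with the finite models (MP_c9ff92_pr)
-/

open MeasureTheory ProbabilityTheory Set
open scoped ENNReal NNReal

noncomputable section

namespace Pool.Agent.Frog

variable {V : Type*}

/-- The positions after the jumps `1, ..., k`, the last one first. -/
def posList (x : V) (p : Particle V) : ℕ → List V
  | 0 => []
  | k + 1 => pos x p (k + 1) :: posList x p k

open Classical in
/-- The number of jumps until time `t`, capped at `M`. -/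
def njumps (t : ℝ) (M : ℕ) (p : Particle V) : ℕ := Nat.findGreatest (fun k => jumpTime p k ≤ t) M

/-- The trajectory until time `t`, stopped after `M` jumps. -/
def traj (t : ℝ) (M : ℕ) (x : V) (p : Particle V) : List V := posList x p (njumps t M p)

/-- The set visited until time `t` by the particles of `x`, stopped after `M` jumps. -/
def visM (t : ℝ) (M : ℕ) (x : V) (s : ℕ × (ℕ → Particle V)) : Set V :=
  insert x {y | ∃ i < s.1, ∃ k ≤ M, jumpTime (s.2 i) k ≤ t ∧ pos x (s.2 i) k = y}

/-- With particles stopped after `M` jumps, `o` activates a vertex outside `B`. -/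
def outM (B : Finset V) (o : V) (t : ℝ) (M : ℕ) : Set (Config V) :=
  {ω | ∃ y, y ∉ B ∧ Relation.ReflTransGen (fun x z => z ∈ visM t M x (ω x)) o y}

open Classical in
/-- The trajectories of `s` which are present. -/
def pres (t : ℝ) (M : ℕ) (s : Finset (V × List V)) (ω : Config V) : Finset (V × List V) :=
  s.filter fun γ => ∃ i < (ω γ.1).1, traj t M γ.1 ((ω γ.1).2 i) = γ.2

/-- The tails of the number of jumps, times the density, capped at `M`. -/
def tl' (l t : ℝ) (M : ℕ) (m : ℕ) : ℝ := if m ≤ M then l * tail m t else 0

end Pool.Agent.Frog
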