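import Pool.Agent.Work.MP_c9ff92_pr.Defs

/-!
# The Poisson tail (MP_c9ff92_pr)
-/

open MeasureTheory ProbabilityTheory Set
open scoped ENNReal NNReal

noncomputable section

namespace Pool.Agent.Frog

/-- `P(Poisson(t) ≥ k)`. -/
def tail (k : ℕ) (t : ℝ) : ℝ :=
  1 - Real.exp (-t) * ∑ i ∈ Finset.range k, t ^ i / (i.factorial : ℝ)

theorem exp_lt_one' {x : ℝ} (hx : x < 0) : Real.exp x < 1 := by
  rw [← Real.exp_zero]
  exact Real.exp_lt_exp.2 hx

theorem tail_zero (t : ℝ) : tail 0 t = 1 := by simp [tail]

theorem tail_one (t : ℝ) : tail 1 t = 1 - Real.exp (-t) := by simp [tail]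

theorem tail_sub_tail_succ (k : ℕ) (t : ℝ) :
    tail k t - tail (k + 1) t = Real.exp (-t) * (t ^ k / (k.factorial : ℝ)) := by
  simp only [tail, Finset.sum_range_succ]
  ring

theorem tail_succ_le (k : ℕ) {t : ℝ} (ht : 0 ≤ t) : tail (k + 1) t ≤ tail k t := by
  have h := tail_sub_tail_succ k t
  have : 0 ≤ Real.exp (-t) * (t ^ k / (k.factorial : ℝ)) := by positivity
  linarith

theorem tail_anti {t : ℝ} (ht : 0 ≤ t) : Antitone fun k => tail k t :=
  antitone_nat_of_succ_le fun k => tail_succ_le k ht

theorem tail_at_zero {k : ℕ} (hk : 1 ≤ k) : tail k 0 = 0 := by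
  obtain ⟨m, rfl⟩ := Nat.exists_eq_add_of_le hk
  rw [tail, add_comm, Finset.sum_range_succ']
  simp

theorem hasDerivAt_tail (k : ℕ) (t : ℝ) :
    HasDerivAt (tail (k + 1)) (Real.exp (-t) * (t ^ k / (k.factorial : ℝ))) t := by
  induction k with
  | zero =>
    have h : tail (0 + 1) = fun t => 1 - Real.exp (-t) := by
      funext s
      simp [tail]
    rw [h]
    have h1 := ((hasDerivAt_neg t).exp).const_sub 1
    simpa using h1
  | succ k ih =>
    have h : tail (k + 1 + 1) = fun s => tail (k + 1) s -
        Real.exp (-s) * (s ^ (k + 1) / ((k + 1).factorial : ℝ)) := by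
      funext s
      have := tail_sub_tail_succ (k + 1) s
      linarith
    rw [h]
    have h1 := ((hasDerivAt_neg t).exp).mul
      (((hasDerivAt_pow (k + 1) t)).div_const ((k + 1).factorial : ℝ))
    refine (ih.sub h1).congr_deriv ?_
    rw [Nat.factorial_succ]
    push_cast
    have : (k.factorial : ℝ) ≠ 0 := by positivity
    field_simp
    simp

theorem tail_nonneg (k : ℕ) {t : ℝ} (ht : 0 ≤ t) : 0 ≤ tail k t := by
  rcases k with _ | k
  · rw [tail_zero]; norm_num
  · have hm : MonotoneOn (tail (k + 1)) (Ici 0) := by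
      apply monotoneOn_of_deriv_nonneg (convex_Ici 0)
      · exact fun s _ => (hasDerivAt_tail k s).continuousAt.continuousWithinAt
      · exact fun s _ => (hasDerivAt_tail k s).differentiableAt.differentiableWithinAt
      · intro s hs
        rw [interior_Ici] at hs
        rw [(hasDerivAt_tail k s).deriv]
        have : (0 : ℝ) < s := hs
        positivity
    have h := hm (mem_Ici.2 le_rfl) (mem_Ici.2 ht) ht
    rwa [tail_at_zero (by omega)] at h

theorem tail_le_one (k : ℕ) {t : ℝ} (ht : 0 ≤ t) : tail k t ≤ 1 := by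
  have := tail_anti ht (Nat.zero_le k)
  simpa [tail_zero] using this

/-- The increment of the tail is at most the increment of time times the maximal density. -/
theorem tail_sub_le (k : ℕ) {t t' : ℝ} (h0 : 0 ≤ t') (h : t' ≤ t) :
    tail (k + 1) t - tail (k + 1) t' ≤ (t - t') * (t ^ k / (k.factorial : ℝ)) := by
  set c : ℝ := t ^ k / (k.factorial : ℝ)
  have ha : AntitoneOn (fun s => tail (k + 1) s - c * s) (Icc 0 t) := by
    apply antitoneOn_of_deriv_nonpos (convex_Icc 0 t)
    · exact fun s _ => ((hasDerivAt_tail k s).sub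
        ((hasDerivAt_id s).const_mul c)).continuousAt.continuousWithinAt
    · exact fun s _ => ((hasDerivAt_tail k s).sub
        ((hasDerivAt_id s).const_mul c)).differentiableAt.differentiableWithinAt
    · intro s hs
      rw [interior_Icc] at hs
      have := ((hasDerivAt_tail k s).sub ((hasDerivAt_id s).const_mul c)).deriv
      rw [show (fun s => tail (k + 1) s - c * s) = (tail (k + 1) - fun y => c * id y) from rfl,
        this, mul_one]
      have h1 : Real.exp (-s) ≤ 1 := Real.exp_le_one_iff.2 (by linarith [hs.1])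
      have h2 : s ^ k / (k.factorial : ℝ) ≤ c :=
        div_le_div_of_nonneg_right (pow_le_pow_left₀ hs.1.le hs.2.le k) (by positivity)
      have h3 : 0 ≤ s ^ k / (k.factorial : ℝ) := by
        have := hs.1.le
        positivity
      nlinarith
  have h1 := ha ⟨h0, h⟩ ⟨h0.trans h, le_rfl⟩ h
  simp only at h1
  linarith

/-- The upper bound by the first tail. -/
theorem tail_le_mul_tail_one (k : ℕ) {t : ℝ} (ht : 0 ≤ t) :
    tail (k + 1) t ≤ t ^ k / (k.factorial : ℝ) * tail 1 t := by
  set c : ℝ := t ^ k / (k.factorial : ℝ)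
  have hd : ∀ s, HasDerivAt (fun s => tail (k + 1) s + c * Real.exp (-s))
      (Real.exp (-s) * (s ^ k / (k.factorial : ℝ)) + c * (-Real.exp (-s))) s := by
    intro s
    have h1 := (hasDerivAt_neg s).exp
    have h2 : HasDerivAt (fun s => Real.exp (-s)) (-Real.exp (-s)) s := by
      simpa using h1
    exact (hasDerivAt_tail k s).add (h2.const_mul c)
  have ha : AntitoneOn (fun s => tail (k + 1) s + c * Real.exp (-s)) (Icc 0 t) := by
    apply antitoneOn_of_deriv_nonpos (convex_Icc 0 t)
    · exact fun s _ => (hd s).continuousAt.continuousWithinAt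
    · exact fun s _ => (hd s).differentiableAt.differentiableWithinAt
    · intro s hs
      rw [interior_Icc] at hs
      rw [(hd s).deriv]
      have h2 : s ^ k / (k.factorial : ℝ) ≤ c :=
        div_le_div_of_nonneg_right (pow_le_pow_left₀ hs.1.le hs.2.le k) (by positivity)
      have := Real.exp_pos (-s)
      nlinarith
  have h1 := ha ⟨le_rfl, ht⟩ ⟨ht, le_rfl⟩ ht
  simp only [tail_at_zero (show 1 ≤ k + 1 by omega), neg_zero, Real.exp_zero] at h1
  rw [tail_one]
  linarith

/-- The lower bound of the increment by the increment of the first tail. -/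
theorem mul_sub_le_tail_sub (k : ℕ) {t t' : ℝ} (ht : 0 ≤ t) (h : t ≤ t') :
    t ^ k / (k.factorial : ℝ) * (tail 1 t' - tail 1 t) ≤ tail (k + 1) t' - tail (k + 1) t := by
  set c : ℝ := t ^ k / (k.factorial : ℝ)
  have hd : ∀ s, HasDerivAt (fun s => tail (k + 1) s + c * Real.exp (-s))
      (Real.exp (-s) * (s ^ k / (k.factorial : ℝ)) + c * (-Real.exp (-s))) s := by
    intro s
    have h1 := (hasDerivAt_neg s).exp
    have h2 : HasDerivAt (fun s => Real.exp (-s)) (-Real.exp (-s)) s := by
      simpa using h1
    exact (hasDerivAt_tail k s).add (h2.const_mul c)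
  have ha : MonotoneOn (fun s => tail (k + 1) s + c * Real.exp (-s)) (Ici t) := by
    apply monotoneOn_of_deriv_nonneg (convex_Ici t)
    · exact fun s _ => (hd s).continuousAt.continuousWithinAt
    · exact fun s _ => (hd s).differentiableAt.differentiableWithinAt
    · intro s hs
      rw [interior_Ici] at hs
      rw [(hd s).deriv]
      have hs' : t < s := hs
      have h2 : c ≤ s ^ k / (k.factorial : ℝ) :=
        div_le_div_of_nonneg_right (pow_le_pow_left₀ ht hs'.le k) (by positivity)
      have := Real.exp_pos (-s)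
      nlinarith
  have h1 := ha (mem_Ici.2 le_rfl) (mem_Ici.2 h) h
  simp only at h1
  rw [tail_one, tail_one]
  linarith

/-- Domination of the tails follows from domination of the first tail. -/
theorem mul_tail_le {l l' t t' : ℝ} (hl : 0 ≤ l) (ht : 0 ≤ t) (h : t ≤ t')
    (h1 : l * tail 1 t ≤ l' * tail 1 t') (k : ℕ) (hk : 1 ≤ k) :
    l * tail k t ≤ l' * tail k t' := by
  obtain ⟨m, rfl⟩ := Nat.exists_eq_add_of_le' hk
  rcases ht.eq_or_lt with rfl | ht0
  · rw [tail_at_zero (by omega), mul_zero]
    rw [tail_at_zero le_rfl, mul_zero] at h1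
    rcases h.eq_or_lt with rfl | h0
    · rw [tail_at_zero (by omega), mul_zero]
    · have h2 : 0 < tail 1 t' := by
        rw [tail_one]
        have : Real.exp (-t') < 1 := exp_lt_one' (by linarith)
        linarith
      have h3 : 0 ≤ l' := by
        by_contra hc
        push Not at hc
        nlinarith
      exact mul_nonneg h3 (tail_nonneg _ h0.le)
  have h2 : 0 < tail 1 t := by
    rw [tail_one]
    have : Real.exp (-t) < 1 := exp_lt_one' (by linarith)
    linarith
  have h2' : 0 < tail 1 t' := by
    rw [tail_one]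
    have : Real.exp (-t') < 1 := exp_lt_one' (by linarith)
    linarith
  have h3 : 0 ≤ tail 1 t' - tail 1 t := by
    rw [tail_one, tail_one]
    have : Real.exp (-t') ≤ Real.exp (-t) := Real.exp_le_exp.2 (by linarith)
    linarith
  have h4 := tail_le_mul_tail_one m ht
  have h5 := mul_sub_le_tail_sub m ht h
  have h6 : 0 ≤ tail (m + 1) t := tail_nonneg _ ht
  set c : ℝ := t ^ m / (m.factorial : ℝ)
  -- cross multiplied ratio inequality
  have h7 : tail (m + 1) t * tail 1 t' ≤ tail (m + 1) t' * tail 1 t := by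
    nlinarith [mul_le_mul_of_nonneg_right h5 h2.le, mul_le_mul_of_nonneg_left h4 h3]
  have h8 : l * tail (m + 1) t * tail 1 t' ≤ l' * tail (m + 1) t' * tail 1 t' := by
    have h9 : 0 ≤ tail (m + 1) t' := tail_nonneg _ (ht.trans h)
    calc l * tail (m + 1) t * tail 1 t' = l * (tail (m + 1) t * tail 1 t') := by ring
      _ ≤ l * (tail (m + 1) t' * tail 1 t) := mul_le_mul_of_nonneg_left h7 hl
      _ = (l * tail 1 t) * tail (m + 1) t' := by ring
      _ ≤ (l' * tail 1 t') * tail (m + 1) t' := mul_le_mul_of_nonneg_right h1 h9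
      _ = l' * tail (m + 1) t' * tail 1 t' := by ring
  exact le_of_mul_le_mul_right h8 h2'

end Pool.Agent.Frog
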